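import Pool.Agent.W_7d29a1_Z86.Run86

/-!
STORM Z, helper86: counting of the clusters, the at most two border clusters left out, places counted from `k0`.
-/

namespace Pool.Agent.W_7d29a1_Z86

open Finset

/-- An interior bad junction of the grid `k0 + st j ℕ`. -/
theorem run_place2 {bad : ℕ → Prop} {k0 k1 j : ℕ} {p : ℕ × ℕ} (hp : p ∈ Runs bad k0 k1)
    (h0 : k0 < p.1) (h1 : p.2 < k1) (hj : 2 ^ j ≤ p.2 - p.1) :
    ∃ u, p.1 < k0 + u * st j ∧ k0 + u * st j < p.2 ∧ bad (k0 + u * st j) := by
  rw [mem_Runs] at hp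
  obtain ⟨p1, p2, p3, p4, p5, p6, p7⟩ := hp
  have hs := st_pos j
  have hd : st j < p.2 - p.1 := by
    rcases Nat.eq_zero_or_pos j with hz | hz
    · subst hz
      by_contra hcon
      have e1 : p.2 = p.1 + 1 := by
        simp [st] at hcon
        omega
      obtain ⟨b, hb1, hb2, hb3⟩ := p7
      have hg1 : ¬ bad p.1 := by
        rcases p5 with h | h
        · omega
        · exact h
      have hg2 : ¬ bad p.2 := by
        rcases p6 with h | h
        · omega
        · exact h
      have : b = p.1 ∨ b = p.2 := by omega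
      rcases this with h | h
      · exact hg1 (h ▸ hb3)
      · exact hg2 (h ▸ hb3)
    · have : 2 ^ j = 2 * st j := by
        unfold st
        rw [← pow_succ']
        congr 1
        omega
      have h2 : 1 ≤ st j := hs
      rcases Nat.lt_or_ge (st j) (p.2 - p.1) with h | h
      · exact h
      · omega
  refine ⟨(p.1 - k0) / st j + 1, ?_, ?_, ?_⟩
  · have := Nat.lt_div_mul_add (a := p.1 - k0) hs
    rw [add_mul, one_mul]
    omega
  · have := Nat.div_mul_le_self (p.1 - k0) (st j)
    rw [add_mul, one_mul]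
    omega
  · apply p4
    · have := Nat.lt_div_mul_add (a := p.1 - k0) hs
      rw [add_mul, one_mul]
      omega
    · have := Nat.div_mul_le_self (p.1 - k0) (st j)
      rw [add_mul, one_mul]
      omega

/-- The number of the clusters of the size class `j`. -/
theorem runs_count2 {bad : ℕ → Prop} {k0 k1 j : ℕ} (NT : ℕ → Prop)
    (hNT : ∀ p ∈ Runs bad k0 k1, k0 < p.1 → p.2 < k1 → 2 ^ j ≤ p.2 - p.1 → p.2 - p.1 < 2 ^ (j + 1) →
      ∀ b, p.1 < b → b < p.2 → bad b → NT b) :
    ((Runs bad k0 k1).filter fun p => 2 ^ j ≤ p.2 - p.1 ∧ p.2 - p.1 < 2 ^ (j + 1)).card ≤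
      Set.ncard {u | u < (k1 - k0) / st j + 1 ∧ NT (k0 + u * st j)} + 2 := by
  classical
  set F := (Runs bad k0 k1).filter fun p => 2 ^ j ≤ p.2 - p.1 ∧ p.2 - p.1 < 2 ^ (j + 1) with hF
  set B := F.filter fun p => ¬ (k0 < p.1 ∧ p.2 < k1) with hB
  set G := F.filter fun p => k0 < p.1 ∧ p.2 < k1 with hG
  have hsplit : F.card = G.card + B.card := by
    rw [hG, hB, card_filter_add_card_filter_not]
  -- at most two border runs
  have hBc : B.card ≤ 2 := by
    have hsub : B ⊆ (B.filter fun p => p.1 = k0) ∪ (B.filter fun p => p.2 = k1) := by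
      intro p hp
      have hp0 := hp
      rw [hB, mem_filter] at hp
      have hr := (mem_filter.1 hp.1).1
      rw [mem_Runs] at hr
      obtain ⟨p1, p2, p3, p4, p5, p6, p7⟩ := hr
      by_cases h : p.1 = k0
      · exact mem_union_left _ (mem_filter.2 ⟨hp0, h⟩)
      · refine mem_union_right _ (mem_filter.2 ⟨hp0, ?_⟩)
        by_contra h2
        exact hp.2 ⟨by omega, by omega⟩
    have h1 : (B.filter fun p => p.1 = k0).card ≤ 1 := by
      rw [card_le_one]
      intro p hp q hq
      rw [mem_filter] at hp hq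
      have hp1 := (mem_filter.1 (mem_filter.1 hp.1).1).1
      have hq1 := (mem_filter.1 (mem_filter.1 hq.1).1).1
      by_contra hne
      have hd := Runs_disjoint hp1 hq1 hne
      rw [mem_Runs] at hp1 hq1
      omega
    have h2 : (B.filter fun p => p.2 = k1).card ≤ 1 := by
      rw [card_le_one]
      intro p hp q hq
      rw [mem_filter] at hp hq
      have hp1 := (mem_filter.1 (mem_filter.1 hp.1).1).1
      have hq1 := (mem_filter.1 (mem_filter.1 hq.1).1).1
      by_contra hne
      have hd := Runs_disjoint hp1 hq1 hne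
      rw [mem_Runs] at hp1 hq1
      omega
    calc B.card ≤ _ := card_le_card hsub
      _ ≤ _ := card_union_le _ _
      _ ≤ 2 := by omega
  -- the interior runs
  have hGc : G.card ≤ Set.ncard {u | u < (k1 - k0) / st j + 1 ∧ NT (k0 + u * st j)} := by
    have hpl : ∀ p ∈ G, ∃ u, p.1 < k0 + u * st j ∧ k0 + u * st j < p.2 ∧ bad (k0 + u * st j) := by
      intro p hp
      rw [hG, mem_filter] at hp
      obtain ⟨h1, h2, h3⟩ := hp
      rw [hF, mem_filter] at h1
      exact run_place2 h1.1 h2 h3 h1.2.1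
    choose! u hu using hpl
    have hfin : {u | u < (k1 - k0) / st j + 1 ∧ NT (k0 + u * st j)}.Finite :=
      (Set.finite_lt_nat ((k1 - k0) / st j + 1)).subset fun u hu => hu.1
    rw [Set.ncard_eq_toFinset_card _ hfin]
    refine card_le_card_of_injOn u ?_ ?_
    · intro p hp
      have hp' := hp
      rw [mem_coe, hG, mem_filter] at hp
      obtain ⟨h1, h2, h3⟩ := hp
      rw [hF, mem_filter] at h1
      obtain ⟨a1, a2, a3⟩ := hu p hp'
      rw [Set.Finite.coe_toFinset]
      refine ⟨?_, hNT p h1.1 h2 h3 h1.2.1 h1.2.2 _ a1 a2 a3⟩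
      rw [Nat.lt_succ_iff, Nat.le_div_iff_mul_le (st_pos j)]
      omega
    · intro p hp q hq hpq
      obtain ⟨a1, a2, a3⟩ := hu p hp
      obtain ⟨b1, b2, b3⟩ := hu q hq
      rw [mem_coe, hG, mem_filter, hF, mem_filter] at hp hq
      refine Runs_bad_unique hp.1.1 hq.1.1 a3 ⟨a1.le, a2.le⟩ ?_
      rw [hpq]
      exact ⟨b1.le, b2.le⟩
  omega

end Pool.Agent.W_7d29a1_Z86
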