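import Pool.Agent.W_7d29a1_Z86.Num86

/-!
STORM Z, helper86: BRK with the numbers: bracket and windows of all the bad junctions of a cluster from `NSp` for both paths and the
absence of fresh tubes (hypotheses unfolded: `NSp μ L N ε₂ S`, `¬ Close μ L N ε₂ v S S'`).
-/

namespace Pool.Agent.W_7d29a1_Z86

open MeasureTheory ProbabilityTheory Filter Topology Finset
open Pool.Agent.W_7d29a1_F Pool.Agent.W_7d29a1_X Pool.Agent.W_7d29a1_G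
open Pool.Agent.W_7d29a1_Z

variable {μ : Measure ℝ}

/-- The increments in the form of `brk`. -/
theorem flat_of_NSp {L N t : ℕ} {ε₂ ε : ℝ} {n1 : ℕ → ℕ} {e0 E : ℕ} (hnm : Nm μ L N t ε₂ ε n1 e0 E) {S : Finset ℕ}
    (hS : ∀ i n : ℕ, 1 ≤ n → i + n ≤ N → |2 * ((pos S (i + n) - pos S i : ℤ) : ℝ) - n| ≤ 2 * ((L : ℝ) ^ ε₂ * wd' μ n)) :
    ∀ e, e0 ≤ e → e ≤ E → ∀ i j : ℕ, i ≤ j → j ≤ N → j ≤ i + n1 e → 32 * |(2 * pos S j - j) - (2 * pos S i - i)| ≤ 2 ^ e := by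
  intro e he heE i j hij hjN hjn
  rcases Nat.eq_or_lt_of_le hij with h | h
  · subst h
    rw [sub_self, abs_zero, mul_zero]
    positivity
  · obtain ⟨n, rfl⟩ : ∃ n, j = i + n := ⟨j - i, by omega⟩
    have h1 := hS i n (by omega) hjN
    have h2 := hnm.n1_wd e he heE n (by omega) (by omega)
    have h3 : ((32 * |(2 * pos S (i + n) - ((i + n : ℕ) : ℤ)) - (2 * pos S i - i)| : ℤ) : ℝ) ≤ ((2 ^ e : ℤ) : ℝ) := by
      push_cast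
      have e1 : (2 * (pos S (i + n) : ℝ) - ((i : ℝ) + n)) - (2 * (pos S i : ℝ) - i) =
          2 * ((pos S (i + n) - pos S i : ℤ) : ℝ) - n := by
        push_cast
        ring
      rw [e1]
      linarith
    exact_mod_cast h3

theorem brk_run {L N t τ k0 k1 : ℕ} {y : ℤ} {ε₂ ε : ℝ} {n1 : ℕ → ℕ} {e0 E : ℕ} {I : Finset ℕ} {V : ℕ → ℤ}
    {S S' : Finset ℕ} (hnm : Nm μ L N t ε₂ ε n1 e0 E) (ht : 16 ≤ t) (hI : I ⊆ Core t) (hN : zb t τ (k1 - 1) ≤ N)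
    (hLt : (L : ℝ) ^ ε₂ ≤ ((t / 4 : ℕ) : ℝ)) (hSN : pos S N = y) (hSN' : pos S' N = y) (hsvN : sv (pat t τ I V) 0 N = 0)
    (hS : ∀ i n : ℕ, 1 ≤ n → i + n ≤ N → |2 * ((pos S (i + n) - pos S i : ℤ) : ℝ) - n| ≤ 2 * ((L : ℝ) ^ ε₂ * wd' μ n))
    (hS' : ∀ i n : ℕ, 1 ≤ n → i + n ≤ N → |2 * ((pos S' (i + n) - pos S' i : ℤ) : ℝ) - n| ≤ 2 * ((L : ℝ) ^ ε₂ * wd' μ n))
    (hfr : ¬ ∃ i n : ℕ, (L : ℝ) ^ ε₂ ≤ n ∧ i + n ≤ N ∧ (∀ k, i ≤ k → k ≤ i + n → pos S k ≠ px (pat t τ I V) S' k) ∧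
      ∀ k, i ≤ k → k ≤ i + n → |((pos S k - px (pat t τ I V) S' k : ℤ) : ℝ)| ≤ (L : ℝ) ^ (-ε₂) * wd' μ n)
    (hsv : ∀ i : ℕ, i ≤ N → |((sv (pat t τ I V) 0 i : ℤ) : ℝ)| ≤ (L : ℝ) ^ (-(2 * ε₂)) * wd' μ t)
    (hg : ∀ k, k0 ≤ k → (k + k0) % 2 = 1 → ∀ i, zb t τ k ≤ i → i ≤ za t τ (k + 1) → sv (pat t τ I V) 0 i = 0)
    {p : ℕ × ℕ} (hp : p ∈ Runs (BadJ t τ k0 k1 (pat t τ I V) S S') k0 k1) :
    ∃ a b' : ℕ, Meet (pat t τ I V) S S' a ∧ Meet (pat t τ I V) S S' b' ∧ b' ≤ N ∧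
      (za t τ p.1 ≤ a ∧ a ≤ za t τ p.1 + t / 4 ∨ a = 0 ∧ p.1 = k0) ∧
      (zb t τ (p.2 - 1) - t / 4 ≤ b' ∧ b' ≤ zb t τ (p.2 - 1) ∨ b' = N ∧ p.2 = k1) ∧
      ∀ b, p.1 ≤ b → b ≤ p.2 → BadJ t τ k0 k1 (pat t τ I V) S S' b → ∃ w ∈ Wd N t τ k0 n1 e0 E b, ∃ sg Y s₀ : ℤ,
        (sg = 1 ∨ sg = -1) ∧ (((2 ^ w.1 : ℕ)) : ℤ) ∣ Y ∧
        |sg * (2 * pos S' w.2.1 - w.2.1) - Y| ≤ ((2 ^ (w.1 + 3) : ℕ) : ℤ) ∧ InL sg w.2.2 Y S' ∧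
        InR sg w.2.2 (Y - 2 * sg * s₀) ((2 ^ (w.1 + 3) : ℕ) : ℤ) S ∧ (∀ i ∈ w.2.2, a < i ∧ i < b') ∧
        ∀ i ∈ w.2.2, sv (pat t τ I V) 0 i = s₀ := by
  have hm0 : Meet (pat t τ I V) S S' 0 := by
    unfold Meet px
    rw [pos_zero, pos_zero]
    simp [sv]
  have hmN : Meet (pat t τ I V) S S' N := by
    unfold Meet px
    rw [hSN, hSN', hsvN, sub_zero]
  have hD : ∀ i : ℕ, i ≤ N → 64 * |sv (pat t τ I V) 0 i| ≤ 2 ^ e0 := by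
    intro i hi
    have h1 := hsv i hi
    have h2 := hnm.e0_ge
    have h3 : ((64 * |sv (pat t τ I V) 0 i| : ℤ) : ℝ) ≤ ((2 ^ e0 : ℤ) : ℝ) := by
      push_cast
      linarith
    exact_mod_cast h3
  have hE : ∀ i : ℕ, i ≤ N → |pos S i - px (pat t τ I V) S' i| < 2 ^ (E + 1) := by
    intro i hi
    rcases Nat.eq_zero_or_pos i with h | h
    · subst h
      unfold Meet at hm0
      rw [hm0, sub_self, abs_zero]
      positivity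
    · have h1 := hS 0 i h (by omega)
      have h2 := hS' 0 i h (by omega)
      rw [zero_add, pos_zero, sub_zero] at h1 h2
      have h3 := hnm.E_gt i h hi
      have h4 := hsv i hi
      have h5 := hnm.e0_ge
      have h6 := hnm.e0_le
      have h7 : ((|pos S i - px (pat t τ I V) S' i| : ℤ) : ℝ) < ((2 ^ (E + 1) : ℤ) : ℝ) := by
        unfold px
        push_cast
        rw [abs_lt]
        have g1 := abs_le.1 h1
        have g2 := abs_le.1 h2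
        have g3 := abs_le.1 h4
        constructor <;> linarith [g1.1, g1.2, g2.1, g2.2, g3.1, g3.2]
      exact_mod_cast h7
  obtain ⟨a, b', ha, hb', hbN, hpa, hpb, hall⟩ := bracket (by omega) hm0 hmN hN hp
  refine ⟨a, b', ha, hb', hbN, hpa, hpb, ?_⟩
  intro b hb1 hb2 hbad
  obtain ⟨β, hβ, haβ, hβb, hno⟩ := hall b hb1 hb2 hbad
  have hk0 : k0 ≤ b := by
    rw [mem_Runs] at hp
    omega
  refine brk ht hI hk0 hβ ha hb' haβ hβb hbN ?_ hE hnm.n1_pos (flat_of_NSp hnm hS) (flat_of_NSp hnm hS') hD hg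
  push Not at hfr
  obtain ⟨k, hk1, hk2, hk3⟩ := hfr β (t / 4) hLt (by omega) (fun k hk1 hk2 => hno k hk1 hk2)
  refine ⟨k, hk1, hk2, ?_⟩
  have h8 : ((2 ^ e0 : ℤ) : ℝ) ≤ ((|pos S k - px (pat t τ I V) S' k| : ℤ) : ℝ) := by
    have := hnm.e0_le
    push_cast at hk3 ⊢
    linarith
  exact_mod_cast h8

end Pool.Agent.W_7d29a1_Z86
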