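import Pool.Agent.W_7d29a1_Z86.Brk86

/-!
STORM Z, helper86: the numbers of the windows (`n1 e`, `e0`, `E` of `Brk86.lean`).
-/

namespace Pool.Agent.W_7d29a1_Z86

open MeasureTheory ProbabilityTheory Filter Topology Finset
open Pool.Agent.W_7d29a1_F Pool.Agent.W_7d29a1_X Pool.Agent.W_7d29a1_G
open Pool.Agent.W_7d29a1_Z

noncomputable section

variable {μ : Measure ℝ} {c C : ℝ} {n₀ : ℕ}

/-- Constants are beaten by powers. -/
theorem ev_const (x : ℝ) {e : ℝ} (he : 0 < e) : ∃ L₀ : ℕ, ∀ L : ℕ, L₀ ≤ L → x ≤ (L : ℝ) ^ e := by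
  have h := (tendsto_rpow_atTop he).comp tendsto_natCast_atTop_atTop
  obtain ⟨L₀, h0⟩ := eventually_atTop.1 (h.eventually_ge_atTop x)
  exact ⟨L₀, h0⟩

/-- The numbers of the windows. -/
structure Nm (μ : Measure ℝ) (L N t : ℕ) (ε₂ ε : ℝ) (n1 : ℕ → ℕ) (e0 E : ℕ) : Prop where
  e0_le : (2 : ℝ) ^ e0 ≤ (L : ℝ) ^ (-ε₂) * wd' μ (t / 4)
  e0_ge : 64 * ((L : ℝ) ^ (-(2 * ε₂)) * wd' μ t) ≤ 2 ^ e0
  E_gt : ∀ n : ℕ, 1 ≤ n → n ≤ N → 2 * ((L : ℝ) ^ ε₂ * wd' μ n) + (L : ℝ) ^ (-ε₂) * wd' μ (t / 4) < 2 ^ (E + 1)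
  E_le : 2 ^ (E + 3) ≤ L
  n1_pos : ∀ e, e0 ≤ e → e ≤ E → 1 ≤ n1 e
  n1_le : ∀ e, n1 e ≤ N
  n1_wd : ∀ e, e0 ≤ e → e ≤ E → ∀ n, 1 ≤ n → n ≤ n1 e → 64 * ((L : ℝ) ^ ε₂ * wd' μ n) ≤ 2 ^ e
  rate : ∀ e, e0 ≤ e → e ≤ E → 81 * 512 * ((2 : ℝ) ^ (e + 3) / n1 e) ≤ (L : ℝ) ^ ε * (wd' μ t / t)
  top : ∀ e, e0 ≤ e → e ≤ E → (2 : ℝ) ^ (e + 3) ≤ (L : ℝ) ^ ε * wd' μ (n1 e)
  n1_ge : ∀ e, e0 ≤ e → e ≤ E → (t : ℝ) ≤ (L : ℝ) ^ ε * n1 e
  cnt1 : ∀ e, e0 ≤ e → e ≤ E → ((t / 4 / ell t (n1 e) : ℕ) : ℝ) ≤ (L : ℝ) ^ ε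
  cnt2 : ((E + 1 - e0 : ℕ) : ℝ) ≤ (L : ℝ) ^ ε

theorem wd'_one_le (n : ℕ) : 1 ≤ wd' μ n := le_max_left _ _

/-- Between two consecutive powers of two. -/
theorem exists_pow {x : ℝ} (hx : 1 ≤ x) : ∃ e : ℕ, (2 : ℝ) ^ e ≤ x ∧ x < 2 ^ (e + 1) := by
  have h1 : 1 ≤ ⌊x⌋₊ := Nat.one_le_floor_iff _ |>.2 hx
  refine ⟨Nat.log 2 ⌊x⌋₊, ?_, ?_⟩
  · have := Nat.pow_log_le_self 2 (show ⌊x⌋₊ ≠ 0 by omega)
    calc (2 : ℝ) ^ Nat.log 2 ⌊x⌋₊ = ((2 ^ Nat.log 2 ⌊x⌋₊ : ℕ) : ℝ) := by push_cast; rfl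
      _ ≤ (⌊x⌋₊ : ℝ) := by exact_mod_cast this
      _ ≤ x := Nat.floor_le (by linarith)
  · have h2 : ⌊x⌋₊ + 1 ≤ 2 ^ (Nat.log 2 ⌊x⌋₊ + 1) := Nat.lt_pow_succ_log_self (by norm_num) _
    calc x < (⌊x⌋₊ : ℝ) + 1 := Nat.lt_floor_add_one x
      _ = ((⌊x⌋₊ + 1 : ℕ) : ℝ) := by push_cast; ring
      _ ≤ ((2 ^ (Nat.log 2 ⌊x⌋₊ + 1) : ℕ) : ℝ) := by exact_mod_cast h2
      _ = _ := by push_cast; ring

/-- The pure numerical part: comparison of the widths. `Z = L ^ ε₂`. -/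
theorem wd_ratio {a K : ℝ} (ha0 : 0 < a) (ha1 : a < 1) (hK : 1 ≤ K)
    (hw : ∀ m n : ℕ, 1 ≤ m → m ≤ n → wd' μ m ≤ K * wd' μ n ∧ K⁻¹ * ((n : ℝ) / m) ^ a * wd' μ m ≤ wd' μ n ∧
      wd' μ n ≤ K * ((n : ℝ) / m) ^ (1 - a) * wd' μ m) {t n : ℕ} (ht : 1 ≤ t) (hn : 1 ≤ n) {X : ℝ} (hX : 1 ≤ X)
    (h : wd' μ t ≤ X * wd' μ n) :
    (t : ℝ) / n ≤ (K * X) ^ a⁻¹ ∧ wd' μ n / n ≤ K * (K * X) ^ a⁻¹ * (wd' μ t / t) := by
  have hKX : 1 ≤ K * X := by nlinarith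
  have hY : 1 ≤ (K * X) ^ a⁻¹ := Real.one_le_rpow hKX (inv_nonneg.2 ha0.le)
  have htR : (1 : ℝ) ≤ t := by exact_mod_cast ht
  have hnR : (1 : ℝ) ≤ n := by exact_mod_cast hn
  have hwt := wd'_one_le (μ := μ) t
  have hwn := wd'_one_le (μ := μ) n
  rcases le_total t n with htn | htn
  · have htnR : (t : ℝ) ≤ n := by exact_mod_cast htn
    refine ⟨?_, ?_⟩
    · refine le_trans ?_ hY
      rw [div_le_one (by linarith)]
      exact htnR
    · obtain ⟨_, _, h3⟩ := hw t n ht htn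
      have h4 : ((n : ℝ) / t) ^ (1 - a) ≤ (n : ℝ) / t := by
        have h5 : 1 ≤ (n : ℝ) / t := by rw [one_le_div (by linarith)]; exact htnR
        calc ((n : ℝ) / t) ^ (1 - a) ≤ ((n : ℝ) / t) ^ (1 : ℝ) := Real.rpow_le_rpow_of_exponent_le h5 (by linarith)
          _ = _ := Real.rpow_one _
      have h6 : wd' μ n ≤ K * ((n : ℝ) / t) * wd' μ t :=
        h3.trans (mul_le_mul_of_nonneg_right (mul_le_mul_of_nonneg_left h4 (by linarith)) (by linarith))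
      rw [div_le_iff₀ (by linarith)]
      calc wd' μ n ≤ K * ((n : ℝ) / t) * wd' μ t := h6
        _ = K * 1 * (wd' μ t / t) * n := by field_simp
        _ ≤ K * (K * X) ^ a⁻¹ * (wd' μ t / t) * n := by
            have h7 : 0 ≤ wd' μ t / t := by positivity
            gcongr
  · have htnR : (n : ℝ) ≤ t := by exact_mod_cast htn
    obtain ⟨h1, h2, _⟩ := hw n t hn htn
    have h3 : ((t : ℝ) / n) ^ a ≤ K * X := by
      have h4 : K⁻¹ * ((t : ℝ) / n) ^ a * wd' μ n ≤ X * wd' μ n := h2.trans h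
      have h5 : K⁻¹ * ((t : ℝ) / n) ^ a ≤ X := le_of_mul_le_mul_right h4 (by linarith)
      have h6 := mul_le_mul_of_nonneg_left h5 (show (0 : ℝ) ≤ K by linarith)
      rwa [← mul_assoc, mul_inv_cancel₀ (by linarith), one_mul] at h6
    have h4 : (t : ℝ) / n ≤ (K * X) ^ a⁻¹ := by
      have h5 : 0 ≤ (t : ℝ) / n := by positivity
      calc (t : ℝ) / n = (((t : ℝ) / n) ^ a) ^ a⁻¹ := (Real.rpow_rpow_inv h5 ha0.ne').symm
        _ ≤ _ := Real.rpow_le_rpow (Real.rpow_nonneg h5 _) h3 (inv_nonneg.2 ha0.le)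
    refine ⟨h4, ?_⟩
    rw [div_le_iff₀ (by linarith)]
    calc wd' μ n ≤ K * wd' μ t := h1
      _ = K * ((t : ℝ) / n) * (wd' μ t / t) * n := by field_simp
      _ ≤ K * (K * X) ^ a⁻¹ * (wd' μ t / t) * n := by
          have h7 : 0 ≤ wd' μ t / t := by positivity
          gcongr

/-- The numbers exist. -/
theorem exists_nm {a K : ℝ} (ha0 : 0 < a) (ha1 : a < 1) (hK : 1 ≤ K)
    (hw : ∀ m n : ℕ, 1 ≤ m → m ≤ n → wd' μ m ≤ K * wd' μ n ∧ K⁻¹ * ((n : ℝ) / m) ^ a * wd' μ m ≤ wd' μ n ∧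
      wd' μ n ≤ K * ((n : ℝ) / m) ^ (1 - a) * wd' μ m) {ε θ ε₂ : ℝ} (hε : 0 < ε) (hθ : 0 < θ) (h2 : 0 < ε₂)
    (h2ε : 12 * ε₂ ≤ a * ε) (h2θ : 4 * ε₂ ≤ a * θ) (h2a : 2 * ε₂ ≤ a) :
    ∃ L₀ : ℕ, ∀ L : ℕ, L₀ ≤ L → ∀ N t : ℕ, L ≤ 16 * N → N ≤ L → (L : ℝ) ^ θ ≤ t → t ≤ N →
      ∃ (n1 : ℕ → ℕ) (e0 E : ℕ), Nm μ L N t ε₂ ε n1 e0 E := by
  have hw1 := wd'_one_le (μ := μ) 1
  -- the constants
  set K1 : ℝ := K * (1024 * K ^ 2 * K) with hK1
  obtain ⟨L1, hL1⟩ := ev_const (1024 * K) h2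
  obtain ⟨L2, hL2⟩ := ev_const (4096 * K ^ 2) (show 0 < a * θ / 2 by positivity)
  obtain ⟨L3, hL3⟩ := ev_const (24 * K ^ 2 * wd' μ 1) (show 0 < a - ε₂ by linarith)
  obtain ⟨L4, hL4⟩ := ev_const ((ε / 2)⁻¹ * (Real.log 2)⁻¹) (show 0 < ε / 2 by positivity)
  obtain ⟨L5, hL5⟩ := ev_const (81 * 512 * 1024 * K ^ 2 * K1 ^ a⁻¹) (show 0 < ε / 2 by positivity)
  obtain ⟨L6, hL6⟩ := ev_const 32 hθ
  refine ⟨L1 + L2 + L3 + L4 + L5 + L6 + 2, fun L hL N t hLN hNL htL htN => ?_⟩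
  have hL1 := hL1 L (by omega)
  have hL2 := hL2 L (by omega)
  have hL3 := hL3 L (by omega)
  have hL4 := hL4 L (by omega)
  have hL5 := hL5 L (by omega)
  have hL6 := hL6 L (by omega)
  have hL0 : (1 : ℝ) ≤ L := by exact_mod_cast (show 1 ≤ L by omega)
  have hLp : (0 : ℝ) < L := by linarith
  have ht32 : (32 : ℝ) ≤ t := hL6.trans htL
  have ht32' : 32 ≤ t := by exact_mod_cast ht32
  have hN1 : 1 ≤ N := by omega
  set Z : ℝ := (L : ℝ) ^ ε₂ with hZ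
  have hZ1 : 1 ≤ Z := Real.one_le_rpow hL0 h2.le
  have hZ0 : 0 < Z := by linarith
  have hZi : (L : ℝ) ^ (-ε₂) = Z⁻¹ := Real.rpow_neg hLp.le _
  have hZi2 : (L : ℝ) ^ (-(2 * ε₂)) = Z⁻¹ * Z⁻¹ := by
    rw [Real.rpow_neg hLp.le, two_mul, Real.rpow_add hLp, mul_inv]
  have hZinv1 : Z⁻¹ ≤ 1 := inv_le_one_of_one_le₀ hZ1
  have hq8 : (t : ℝ) / 8 ≤ ((t / 4 : ℕ) : ℝ) := by
    have h1 : t ≤ 8 * (t / 4) := by omega
    have h3 : (t : ℝ) ≤ 8 * ((t / 4 : ℕ) : ℝ) := by exact_mod_cast h1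
    linarith
  have hq1 : 1 ≤ t / 4 := by omega
  have hq1R : (1 : ℝ) ≤ ((t / 4 : ℕ) : ℝ) := by exact_mod_cast hq1
  -- the width of the quarter
  have hquart : wd' μ t ≤ 8 * K * wd' μ (t / 4) := by
    obtain ⟨_, _, h3⟩ := hw (t / 4) t hq1 (Nat.div_le_self _ _)
    have h4 : (t : ℝ) / ((t / 4 : ℕ) : ℝ) ≤ 8 := by
      rw [div_le_iff₀ (by linarith)]
      linarith
    have h5 : 1 ≤ (t : ℝ) / ((t / 4 : ℕ) : ℝ) := by
      rw [one_le_div (by linarith)]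
      exact_mod_cast Nat.div_le_self t 4
    have h6 : ((t : ℝ) / ((t / 4 : ℕ) : ℝ)) ^ (1 - a) ≤ 8 := by
      calc ((t : ℝ) / ((t / 4 : ℕ) : ℝ)) ^ (1 - a) ≤ ((t : ℝ) / ((t / 4 : ℕ) : ℝ)) ^ (1 : ℝ) :=
            Real.rpow_le_rpow_of_exponent_le h5 (by linarith)
        _ ≤ 8 := by rw [Real.rpow_one]; exact h4
    calc wd' μ t ≤ K * ((t : ℝ) / ((t / 4 : ℕ) : ℝ)) ^ (1 - a) * wd' μ (t / 4) := h3
      _ ≤ K * 8 * wd' μ (t / 4) := by
          have := wd'_one_le (μ := μ) (t / 4)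
          gcongr
      _ = _ := by ring
  -- the quarter against one
  have hquart1 : 512 * K * Z ^ 2 * wd' μ 1 ≤ wd' μ (t / 4) := by
    obtain ⟨_, h3, _⟩ := hw 1 (t / 4) le_rfl hq1
    have h4 : ((L : ℝ) ^ θ / 8) ^ a ≤ (((t / 4 : ℕ) : ℝ) / ((1 : ℕ) : ℝ)) ^ a := by
      refine Real.rpow_le_rpow (by positivity) ?_ ha0.le
      rw [Nat.cast_one, div_one]
      linarith
    have h5 : ((L : ℝ) ^ θ / 8) ^ a = (L : ℝ) ^ (a * θ) / 8 ^ a := by
      rw [Real.div_rpow (by positivity) (by norm_num), ← Real.rpow_mul hLp.le, mul_comm θ a]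
    have h6 : (8 : ℝ) ^ a ≤ 8 := by
      calc (8 : ℝ) ^ a ≤ (8 : ℝ) ^ (1 : ℝ) := Real.rpow_le_rpow_of_exponent_le (by norm_num) ha1.le
        _ = 8 := Real.rpow_one _
    have h7 : (L : ℝ) ^ (a * θ / 2) * (L : ℝ) ^ (a * θ / 2) = (L : ℝ) ^ (a * θ) := by
      rw [← Real.rpow_add hLp]
      congr 1
      ring
    have h8 : Z ^ 2 ≤ (L : ℝ) ^ (a * θ / 2) := by
      rw [hZ, ← Real.rpow_natCast, ← Real.rpow_mul hLp.le]
      refine Real.rpow_le_rpow_of_exponent_le hL0 ?_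
      push_cast
      linarith
    have h9 : 4096 * K ^ 2 * Z ^ 2 ≤ (L : ℝ) ^ (a * θ) := by
      rw [← h7]
      exact mul_le_mul hL2 h8 (by positivity) (by positivity)
    have h10 : (L : ℝ) ^ (a * θ) / 8 ≤ (L : ℝ) ^ (a * θ) / 8 ^ a := by
      have : (0 : ℝ) < 8 ^ a := by positivity
      have hp : (0 : ℝ) ≤ (L : ℝ) ^ (a * θ) := by positivity
      gcongr
    have h11 : 512 * K ^ 2 * Z ^ 2 ≤ (((t / 4 : ℕ) : ℝ) / ((1 : ℕ) : ℝ)) ^ a := by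
      refine le_trans ?_ (h10.trans (h5 ▸ h4))
      linarith
    have h12 : 512 * K * Z ^ 2 ≤ K⁻¹ * (((t / 4 : ℕ) : ℝ) / ((1 : ℕ) : ℝ)) ^ a := by
      have : 512 * K * Z ^ 2 = K⁻¹ * (512 * K ^ 2 * Z ^ 2) := by
        field_simp
      rw [this]
      exact mul_le_mul_of_nonneg_left h11 (by positivity)
    exact (mul_le_mul_of_nonneg_right h12 (by linarith)).trans h3
  -- e0
  have hx0 : 1 ≤ Z⁻¹ * wd' μ (t / 4) := by
    have h3 : Z ≤ wd' μ (t / 4) := by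
      refine le_trans ?_ hquart1
      have g1 : 1 ≤ 512 * K * Z * wd' μ 1 :=
        one_le_mul_of_one_le_of_one_le (one_le_mul_of_one_le_of_one_le (by linarith) hZ1) hw1
      calc Z = Z * 1 := (mul_one Z).symm
        _ ≤ Z * (512 * K * Z * wd' μ 1) := mul_le_mul_of_nonneg_left g1 hZ0.le
        _ = _ := by ring
    rw [inv_mul_eq_div, one_le_div hZ0]
    exact h3
  obtain ⟨e0, he1, he2⟩ := exists_pow hx0
  -- E
  have hy0 : 1 ≤ 3 * K * Z * wd' μ N := by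
    exact one_le_mul_of_one_le_of_one_le (one_le_mul_of_one_le_of_one_le (by linarith) hZ1) (wd'_one_le N)
  obtain ⟨E, hE1, hE2⟩ := exists_pow hy0
  classical
  set P : ℝ := 64 * K * Z with hP
  have hP0 : 0 < P := by positivity
  set n1 : ℕ → ℕ := fun e => Nat.findGreatest (fun n => P * wd' μ n ≤ 2 ^ e) N with hn1
  have hn1N : ∀ e, n1 e ≤ N := fun e => Nat.findGreatest_le _
  have hn1pos : ∀ e, e0 ≤ e → 1 ≤ n1 e := by
    intro e he
    refine Nat.le_findGreatest hN1 ?_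
    have h3 : (2 : ℝ) ^ e0 ≤ 2 ^ e := pow_le_pow_right₀ (by norm_num) he
    have h4 : Z⁻¹ * wd' μ (t / 4) / 2 ≤ 2 ^ e0 := by
      rw [pow_succ] at he2
      linarith
    refine le_trans ?_ (h4.trans h3)
    rw [inv_mul_eq_div, div_div, le_div_iff₀ (by positivity)]
    have hp1 : 0 ≤ K * Z ^ 2 * wd' μ 1 := by positivity
    calc P * wd' μ 1 * (Z * 2) = 128 * (K * Z ^ 2 * wd' μ 1) := by rw [hP]; ring
      _ ≤ 512 * (K * Z ^ 2 * wd' μ 1) := by linarith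
      _ = 512 * K * Z ^ 2 * wd' μ 1 := by ring
      _ ≤ _ := hquart1
  have hspec : ∀ e, e0 ≤ e → P * wd' μ (n1 e) ≤ 2 ^ e := by
    intro e he
    have h3 := hn1pos e he
    exact Nat.findGreatest_of_ne_zero (P := fun n => P * wd' μ n ≤ 2 ^ e) (n := N) (m := n1 e) rfl (by omega)
  -- the comparison scale
  have hcmp : ∀ e, e0 ≤ e → e ≤ E → ∃ n : ℕ, 1 ≤ n ∧ n ≤ 2 * n1 e ∧ (2 : ℝ) ^ e ≤ P * wd' μ n := by
    intro e he heE
    have h3 := hn1pos e he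
    rcases Nat.lt_or_ge (n1 e) N with hlt | hge
    · refine ⟨n1 e + 1, by omega, by omega, ?_⟩
      have h4 := Nat.findGreatest_is_greatest (P := fun n => P * wd' μ n ≤ 2 ^ e) (n := N) (k := n1 e + 1)
        (Nat.lt_succ_self _) hlt
      exact (not_le.1 h4).le
    · have h4 : n1 e = N := le_antisymm (hn1N e) hge
      refine ⟨N, hN1, by omega, ?_⟩
      calc (2 : ℝ) ^ e ≤ 2 ^ E := pow_le_pow_right₀ (by norm_num) heE
        _ ≤ 3 * K * Z * wd' μ N := hE1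
        _ ≤ P * wd' μ N := by
            have h5 := wd'_one_le (μ := μ) N
            have h6 : 0 ≤ K * Z * wd' μ N := by positivity
            have e1 : 3 * K * Z * wd' μ N = 3 * (K * Z * wd' μ N) := by ring
            have e2 : P * wd' μ N = 64 * (K * Z * wd' μ N) := by rw [hP]; ring
            rw [e1, e2]
            linarith
  have hZ2 : 1 ≤ Z ^ 2 := one_le_pow₀ hZ1
  have hK2 : 1 ≤ K ^ 2 := one_le_pow₀ hK
  have hX1' : 1 ≤ 1024 * K ^ 2 * K * Z ^ 2 :=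
    one_le_mul_of_one_le_of_one_le (one_le_mul_of_one_le_of_one_le (by linarith) hK) hZ2
  have htop : ∀ e, e0 ≤ e → e ≤ E → (2 : ℝ) ^ (e + 3) ≤ 1024 * K ^ 2 * Z * wd' μ (n1 e) := by
    intro e he heE
    obtain ⟨n, hn1', hn2, hn3⟩ := hcmp e he heE
    have h3 := hn1pos e he
    have h3R : (1 : ℝ) ≤ n1 e := by exact_mod_cast h3
    have hnn : (n : ℝ) ≤ 2 * n1 e := by exact_mod_cast hn2
    have hwn := wd'_one_le (μ := μ) (n1 e)
    have h4 : wd' μ n ≤ 2 * K * wd' μ (n1 e) := by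
      rcases le_total n (n1 e) with hle | hle
      · have h5 := (hw n (n1 e) hn1' hle).1
        have h6 : 0 ≤ K * wd' μ (n1 e) := by positivity
        linarith
      · have h5 := (hw (n1 e) n h3 hle).2.2
        have h6 : 1 ≤ (n : ℝ) / n1 e := by
          rw [one_le_div (by linarith)]
          exact_mod_cast hle
        have h7 : ((n : ℝ) / n1 e) ^ (1 - a) ≤ 2 := by
          calc ((n : ℝ) / n1 e) ^ (1 - a) ≤ ((n : ℝ) / n1 e) ^ (1 : ℝ) :=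
                Real.rpow_le_rpow_of_exponent_le h6 (by linarith)
            _ = (n : ℝ) / n1 e := Real.rpow_one _
            _ ≤ 2 := by
                rw [div_le_iff₀ (by linarith)]
                exact hnn
        calc wd' μ n ≤ K * ((n : ℝ) / n1 e) ^ (1 - a) * wd' μ (n1 e) := h5
          _ ≤ K * 2 * wd' μ (n1 e) := by gcongr
          _ = _ := by ring
    calc (2 : ℝ) ^ (e + 3) = 8 * 2 ^ e := by ring
      _ ≤ 8 * (P * wd' μ n) := by linarith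
      _ ≤ 8 * (P * (2 * K * wd' μ (n1 e))) := by gcongr
      _ = _ := by rw [hP]; ring
  have hrat : ∀ e, e0 ≤ e → e ≤ E → (t : ℝ) / n1 e ≤ 2 * (K1 * Z ^ 2) ^ a⁻¹ ∧
      (2 : ℝ) ^ e / n1 e ≤ 2 * P * (K * (K1 * Z ^ 2) ^ a⁻¹ * (wd' μ t / t)) := by
    intro e he heE
    obtain ⟨n, hn1', hn2, hn3⟩ := hcmp e he heE
    have h3 := hn1pos e he
    have hnR : (1 : ℝ) ≤ n := by exact_mod_cast hn1'
    have h3R : (1 : ℝ) ≤ n1 e := by exact_mod_cast h3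
    have hnn : (n : ℝ) ≤ 2 * n1 e := by exact_mod_cast hn2
    -- `wd' t ≤ X wd' n`
    have h4 : Z⁻¹ * wd' μ (t / 4) ≤ 2 * (P * wd' μ n) := by
      have h5 : (2 : ℝ) ^ e0 ≤ 2 ^ e := pow_le_pow_right₀ (by norm_num) he
      rw [pow_succ] at he2
      linarith
    have h6 : wd' μ (t / 4) ≤ 2 * P * Z * wd' μ n := by
      rw [inv_mul_eq_div, div_le_iff₀ hZ0] at h4
      linarith
    have h7 : wd' μ t ≤ 1024 * K ^ 2 * Z ^ 2 * wd' μ n := by
      calc wd' μ t ≤ 8 * K * wd' μ (t / 4) := hquart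
        _ ≤ 8 * K * (2 * P * Z * wd' μ n) := mul_le_mul_of_nonneg_left h6 (by positivity)
        _ = _ := by rw [hP]; ring
    have h8 : wd' μ t ≤ (1024 * K ^ 2 * K * Z ^ 2) * wd' μ n := by
      refine h7.trans ?_
      have h9 := wd'_one_le (μ := μ) n
      have h10 : 0 ≤ 1024 * K ^ 2 * Z ^ 2 * wd' μ n := by positivity
      calc 1024 * K ^ 2 * Z ^ 2 * wd' μ n = 1024 * K ^ 2 * Z ^ 2 * wd' μ n * 1 := (mul_one _).symm
        _ ≤ 1024 * K ^ 2 * Z ^ 2 * wd' μ n * K := mul_le_mul_of_nonneg_left hK h10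
        _ = _ := by ring
    have hX1 : 1 ≤ 1024 * K ^ 2 * K * Z ^ 2 := hX1'
    obtain ⟨r1, r2⟩ := wd_ratio ha0 ha1 hK hw (t := t) (n := n) (by omega) hn1' hX1 h8
    have e1 : K * (1024 * K ^ 2 * K * Z ^ 2) = K1 * Z ^ 2 := by rw [hK1]; ring
    rw [e1] at r1 r2
    refine ⟨?_, ?_⟩
    · calc (t : ℝ) / n1 e ≤ 2 * (t / n) := by
            rw [div_le_iff₀ (by linarith), ← mul_div_assoc, div_mul_eq_mul_div, le_div_iff₀ (by linarith)]
            have h0 : (0 : ℝ) ≤ t := Nat.cast_nonneg _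
            calc (t : ℝ) * n ≤ t * (2 * n1 e) := mul_le_mul_of_nonneg_left hnn h0
              _ = _ := by ring
        _ ≤ _ := by linarith
    · calc (2 : ℝ) ^ e / n1 e ≤ P * wd' μ n / n1 e := by gcongr
        _ ≤ 2 * P * (wd' μ n / n) := by
            have h9 := wd'_one_le (μ := μ) n
            rw [div_le_iff₀ (by linarith)]
            have e2 : 2 * P * (wd' μ n / n) * n1 e = P * wd' μ n * (2 * n1 e / n) := by field_simp
            rw [e2]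
            have h10 : 1 ≤ 2 * (n1 e : ℝ) / n := by
              rw [one_le_div (by linarith)]
              exact hnn
            have h11 : 0 ≤ P * wd' μ n := by positivity
            exact le_mul_of_one_le_right h11 h10
        _ ≤ _ := mul_le_mul_of_nonneg_left r2 (by positivity)
  -- the power
  have hpow : (K1 * Z ^ 2) ^ a⁻¹ * Z * (81 * 512 * 1024 * K ^ 2) ≤ (L : ℝ) ^ ε := by
    have hK10 : 0 < K1 := by rw [hK1]; positivity
    have e1 : (K1 * Z ^ 2) ^ a⁻¹ = K1 ^ a⁻¹ * (L : ℝ) ^ (2 * ε₂ * a⁻¹) := by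
      rw [Real.mul_rpow hK10.le (by positivity)]
      congr 1
      rw [hZ, ← Real.rpow_natCast, ← Real.rpow_mul hLp.le, ← Real.rpow_mul hLp.le]
      congr 1
      push_cast
      ring
    rw [e1]
    have e2 : K1 ^ a⁻¹ * (L : ℝ) ^ (2 * ε₂ * a⁻¹) * Z * (81 * 512 * 1024 * K ^ 2) =
        (81 * 512 * 1024 * K ^ 2 * K1 ^ a⁻¹) * (L : ℝ) ^ (2 * ε₂ * a⁻¹ + ε₂) := by
      rw [Real.rpow_add hLp]
      ring
    rw [e2]
    have h3 : (L : ℝ) ^ (2 * ε₂ * a⁻¹ + ε₂) ≤ (L : ℝ) ^ (ε / 2) := by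
      refine Real.rpow_le_rpow_of_exponent_le hL0 ?_
      have h4 : ε₂ * a⁻¹ ≤ ε / 12 := by
        rw [← div_eq_mul_inv, div_le_iff₀ ha0]
        linarith
      have h5 : ε₂ ≤ ε₂ * a⁻¹ := le_mul_of_one_le_right h2.le ((one_le_inv₀ ha0).2 ha1.le)
      linarith
    calc _ ≤ (L : ℝ) ^ (ε / 2) * (L : ℝ) ^ (ε / 2) := mul_le_mul hL5 h3 (by positivity) (by positivity)
      _ = (L : ℝ) ^ ε := by
          rw [← Real.rpow_add hLp]
          congr 1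
          ring
  have hY0 : 1 ≤ (K1 * Z ^ 2) ^ a⁻¹ := by
    refine Real.one_le_rpow ?_ (inv_nonneg.2 ha0.le)
    rw [hK1]
    exact one_le_mul_of_one_le_of_one_le (one_le_mul_of_one_le_of_one_le hK
      (one_le_mul_of_one_le_of_one_le (by linarith) hK)) hZ2
  set Y : ℝ := (K1 * Z ^ 2) ^ a⁻¹ with hYd
  have hYL : 16 * Y ≤ (L : ℝ) ^ ε := by
    refine le_trans ?_ hpow
    have g2 : 1 ≤ Z * K ^ 2 := one_le_mul_of_one_le_of_one_le hZ1 hK2
    have g3 : Y ≤ Y * (Z * K ^ 2) := le_mul_of_one_le_right (by linarith) g2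
    have g4 : Y * Z * (81 * 512 * 1024 * K ^ 2) = 81 * 512 * 1024 * (Y * (Z * K ^ 2)) := by ring
    rw [g4]
    linarith
  refine ⟨n1, e0, E, ?_, ?_, ?_, ?_, fun e he _ => hn1pos e he, hn1N, ?_, ?_, ?_, ?_, ?_, ?_⟩
  · rw [hZi]
    exact he1
  · -- e0_ge
    rw [hZi2]
    have h3 : Z⁻¹ * wd' μ (t / 4) / 2 ≤ 2 ^ e0 := by
      rw [pow_succ] at he2
      linarith
    refine le_trans ?_ h3
    have h4 : wd' μ t ≤ Z / 128 * wd' μ (t / 4) := by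
      refine hquart.trans ?_
      have h5 := wd'_one_le (μ := μ) (t / 4)
      refine mul_le_mul_of_nonneg_right ?_ (by linarith)
      linarith
    calc 64 * (Z⁻¹ * Z⁻¹ * wd' μ t) ≤ 64 * (Z⁻¹ * Z⁻¹ * (Z / 128 * wd' μ (t / 4))) := by
          have : 0 ≤ Z⁻¹ * Z⁻¹ := by positivity
          gcongr
      _ = Z⁻¹ * wd' μ (t / 4) / 2 := by
          field_simp
          ring
  · -- E_gt
    intro n hn hnN
    refine lt_of_le_of_lt ?_ hE2
    rw [hZi]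
    have h3 := (hw n N hn hnN).1
    have h4 := (hw (t / 4) N hq1 (by omega)).1
    have h5 := wd'_one_le (μ := μ) N
    have h6 := wd'_one_le (μ := μ) (t / 4)
    have h7 : Z⁻¹ * wd' μ (t / 4) ≤ Z * (K * wd' μ N) := by
      have : Z⁻¹ ≤ Z := hZinv1.trans hZ1
      exact mul_le_mul this h4 (by linarith) hZ0.le
    have h8 : Z * wd' μ n ≤ Z * (K * wd' μ N) := mul_le_mul_of_nonneg_left h3 hZ0.le
    calc 2 * (Z * wd' μ n) + Z⁻¹ * wd' μ (t / 4) ≤ 2 * (Z * (K * wd' μ N)) + Z * (K * wd' μ N) := by linarith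
      _ = _ := by ring
  · -- E_le
    have h3 : ((2 ^ (E + 3) : ℕ) : ℝ) ≤ L := by
      push_cast
      have h4 := (hw 1 N le_rfl hN1).2.2
      have h5 : ((N : ℝ) / ((1 : ℕ) : ℝ)) ^ (1 - a) ≤ (L : ℝ) ^ (1 - a) := by
        refine Real.rpow_le_rpow (by positivity) ?_ (by linarith)
        rw [Nat.cast_one, div_one]
        exact_mod_cast hNL
      have h6 : wd' μ N ≤ K * (L : ℝ) ^ (1 - a) * wd' μ 1 := by
        refine h4.trans ?_
        gcongr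
      calc (2 : ℝ) ^ (E + 3) = 8 * 2 ^ E := by ring
        _ ≤ 8 * (3 * K * Z * wd' μ N) := by linarith
        _ ≤ 8 * (3 * K * Z * (K * (L : ℝ) ^ (1 - a) * wd' μ 1)) := by gcongr
        _ = (24 * K ^ 2 * wd' μ 1) * (Z * (L : ℝ) ^ (1 - a)) := by ring
        _ ≤ (L : ℝ) ^ (a - ε₂) * (Z * (L : ℝ) ^ (1 - a)) := by gcongr
        _ = (L : ℝ) ^ (1 : ℝ) := by
            rw [hZ, ← Real.rpow_add hLp, ← Real.rpow_add hLp]
            congr 1
            ring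
        _ = L := Real.rpow_one _
    exact_mod_cast h3
  · -- n1_wd
    intro e he _ n hn hnn
    have h3 := (hw n (n1 e) hn hnn).1
    calc 64 * (Z * wd' μ n) ≤ 64 * (Z * (K * wd' μ (n1 e))) := by gcongr
      _ = P * wd' μ (n1 e) := by rw [hP]; ring
      _ ≤ 2 ^ e := hspec e he
  · -- rate
    intro e he heE
    have h3 := (hrat e he heE).2
    have h4 : 0 ≤ wd' μ t / t := by
      have := wd'_one_le (μ := μ) t
      positivity
    calc 81 * 512 * ((2 : ℝ) ^ (e + 3) / n1 e) = 81 * 512 * 8 * ((2 : ℝ) ^ e / n1 e) := by ring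
      _ ≤ 81 * 512 * 8 * (2 * P * (K * Y * (wd' μ t / t))) := by gcongr
      _ = Y * Z * (81 * 512 * 1024 * K ^ 2) * (wd' μ t / t) := by rw [hP]; ring
      _ ≤ _ := mul_le_mul_of_nonneg_right hpow h4
  · -- top
    intro e he heE
    refine (htop e he heE).trans ?_
    have h3 := wd'_one_le (μ := μ) (n1 e)
    refine mul_le_mul_of_nonneg_right ?_ (by linarith)
    refine le_trans ?_ hpow
    have g1 : 0 ≤ K ^ 2 * Z := by positivity
    have g2 : K ^ 2 * Z ≤ Y * (K ^ 2 * Z) := le_mul_of_one_le_left g1 hY0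
    have g3 : Y * Z * (81 * 512 * 1024 * K ^ 2) = 81 * 512 * 1024 * (Y * (K ^ 2 * Z)) := by ring
    have g4 : 1024 * K ^ 2 * Z = 1024 * (K ^ 2 * Z) := by ring
    rw [g3, g4]
    linarith
  · -- n1_ge
    intro e he heE
    have h3 := (hrat e he heE).1
    have h5 := hn1pos e he
    have h5R : (0 : ℝ) < n1 e := by exact_mod_cast h5
    rw [div_le_iff₀ h5R] at h3
    refine h3.trans (mul_le_mul_of_nonneg_right ?_ h5R.le)
    linarith
  · -- cnt1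
    intro e he heE
    have h3 := (hrat e he heE).1
    have h5 := hn1pos e he
    have h5R : (1 : ℝ) ≤ n1 e := by exact_mod_cast h5
    refine le_trans ?_ hYL
    unfold ell
    rcases le_total (n1 e) (t / 16) with h | h
    · rw [min_eq_left h]
      calc ((t / 4 / n1 e : ℕ) : ℝ) ≤ ((t / 4 : ℕ) : ℝ) / n1 e := Nat.cast_div_le
        _ ≤ (t : ℝ) / n1 e := by
            have : ((t / 4 : ℕ) : ℝ) ≤ t := by exact_mod_cast Nat.div_le_self t 4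
            gcongr
        _ ≤ 2 * Y := h3
        _ ≤ 16 * Y := by linarith
    · rw [min_eq_right h]
      have h6 : t / 4 / (t / 16) ≤ 16 := by
        refine Nat.div_le_of_le_mul ?_
        omega
      calc ((t / 4 / (t / 16) : ℕ) : ℝ) ≤ 16 := by exact_mod_cast h6
        _ ≤ 16 * Y := by linarith
  · -- cnt2
    have h3 : ((2 ^ (E + 1) : ℕ) : ℝ) ≤ L := by
      have h4 : (2 : ℝ) ^ (E + 1) ≤ 3 * K * Z * wd' μ N * 2 := by
        rw [pow_succ]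
        linarith
      have h4' := (hw 1 N le_rfl hN1).2.2
      have h5 : ((N : ℝ) / ((1 : ℕ) : ℝ)) ^ (1 - a) ≤ (L : ℝ) ^ (1 - a) := by
        refine Real.rpow_le_rpow (by positivity) ?_ (by linarith)
        rw [Nat.cast_one, div_one]
        exact_mod_cast hNL
      have h6 : wd' μ N ≤ K * (L : ℝ) ^ (1 - a) * wd' μ 1 := by
        refine h4'.trans ?_
        gcongr
      push_cast
      calc (2 : ℝ) ^ (E + 1) ≤ 3 * K * Z * wd' μ N * 2 := h4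
        _ ≤ 3 * K * Z * (K * (L : ℝ) ^ (1 - a) * wd' μ 1) * 2 := by gcongr
        _ = (6 * K ^ 2 * wd' μ 1) * (Z * (L : ℝ) ^ (1 - a)) := by ring
        _ ≤ (24 * K ^ 2 * wd' μ 1) * (Z * (L : ℝ) ^ (1 - a)) := by
            have : 0 ≤ K ^ 2 * wd' μ 1 := by positivity
            have : 0 ≤ Z * (L : ℝ) ^ (1 - a) := by positivity
            gcongr
            norm_num
        _ ≤ (L : ℝ) ^ (a - ε₂) * (Z * (L : ℝ) ^ (1 - a)) := by gcongr
        _ = (L : ℝ) ^ (1 : ℝ) := by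
            rw [hZ, ← Real.rpow_add hLp, ← Real.rpow_add hLp]
            congr 1
            ring
        _ = L := Real.rpow_one _
    have hlog2 : 0 < Real.log 2 := Real.log_pos (by norm_num)
    have h4 : ((E + 1 : ℕ) : ℝ) * Real.log 2 ≤ Real.log L := by
      rw [← Real.log_pow]
      refine Real.log_le_log (by positivity) ?_
      have := h3
      push_cast at this
      exact this
    have h5 : Real.log L ≤ (L : ℝ) ^ (ε / 2) / (ε / 2) := Real.log_le_rpow_div hLp.le (by positivity)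
    calc ((E + 1 - e0 : ℕ) : ℝ) ≤ ((E + 1 : ℕ) : ℝ) := by exact_mod_cast Nat.sub_le _ _
      _ ≤ Real.log L / Real.log 2 := by rw [le_div_iff₀ hlog2]; exact h4
      _ ≤ ((L : ℝ) ^ (ε / 2) / (ε / 2)) / Real.log 2 := by gcongr
      _ = ((ε / 2)⁻¹ * (Real.log 2)⁻¹) * (L : ℝ) ^ (ε / 2) := by
          rw [div_eq_mul_inv, div_eq_mul_inv]
          ring
      _ ≤ (L : ℝ) ^ (ε / 2) * (L : ℝ) ^ (ε / 2) := by gcongr
      _ = (L : ℝ) ^ ε := by
          rw [← Real.rpow_add hLp]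
          congr 1
          ring

end

end Pool.Agent.W_7d29a1_Z86
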