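import Pool.Agent.W_7d29a1_Z.Defs
import Pool.Agent.W_7d29a1_Z86.Run86b

/-!
STORM Z, helper86: BRK. A bad junction gives a window of rows at which one path is left of a line and the other one in the strip behind
it (row 664, 4.2 (i), (ii)); the window follows the distance of the two paths.

Zones `b` with `k0 ≤ b < k1`; the junction `b`, `k0 ≤ b ≤ k1`, is between the zones `b - 1` and `b`.
-/

namespace Pool.Agent.W_7d29a1_Z86

open Finset
open Pool.Agent.W_7d29a1_F Pool.Agent.W_7d29a1_X Pool.Agent.W_7d29a1_Z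

/-- The two paths meet at the time `i` (positions in the frame of the environment). -/
def Meet (v : ℕ → ℤ) (S S' : Finset ℕ) (i : ℕ) : Prop := pos S i = px v S' i

/-- The junction `b` is bad: one of its two buffers contains no meeting (at `k0` and `k1` only the inner buffer counts). -/
def BadJ (t τ k0 k1 : ℕ) (v : ℕ → ℤ) (S S' : Finset ℕ) (b : ℕ) : Prop :=
  (k0 < b ∧ ∀ i, zb t τ (b - 1) - t / 4 ≤ i → i ≤ zb t τ (b - 1) → ¬ Meet v S S' i) ∨
    (b < k1 ∧ ∀ i, za t τ b ≤ i → i ≤ za t τ b + t / 4 → ¬ Meet v S S' i)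

/-- The deterministic core: around the time `i₀` at which the two paths have the distance `2 ^ e ≤ |d| < 2 ^ (e + 1)` they are
separated by a line of the grid `2 ^ e ℤ`. -/
theorem win_core {N n e i₀ : ℕ} {v : ℕ → ℤ} {S S' : Finset ℕ} (hi : i₀ ≤ N)
    (h1 : 2 ^ e ≤ |pos S i₀ - px v S' i₀|) (h2 : |pos S i₀ - px v S' i₀| < 2 ^ (e + 1))
    (fS : ∀ i : ℕ, i ≤ N → i ≤ i₀ + n → i₀ ≤ i + n → 32 * |(2 * pos S i - i) - (2 * pos S i₀ - i₀)| ≤ 2 ^ e)
    (fS' : ∀ i : ℕ, i ≤ N → i ≤ i₀ + n → i₀ ≤ i + n → 32 * |(2 * pos S' i - i) - (2 * pos S' i₀ - i₀)| ≤ 2 ^ e)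
    (hD : ∀ i : ℕ, i ≤ N → 64 * |sv v 0 i| ≤ 2 ^ e) :
    (∀ i : ℕ, i ≤ N → i ≤ i₀ + n → i₀ ≤ i + n → ¬ Meet v S S' i) ∧
    ∃ sg Y : ℤ, (sg = 1 ∨ sg = -1) ∧ (2 ^ e : ℤ) ∣ Y ∧ ∀ i : ℕ, i ≤ N → i ≤ i₀ + n → i₀ ≤ i + n →
      sg * (2 * pos S' i - i) ≤ Y ∧ Y - 2 * sg * sv v 0 i < sg * (2 * pos S i - i) ∧
      sg * (2 * pos S i - i) ≤ Y - 2 * sg * sv v 0 i + 2 ^ (e + 3) ∧ |sg * (2 * pos S' i - i) - Y| ≤ 2 ^ (e + 3) ∧
      2 ^ e ≤ 8 * (Y - sg * (2 * pos S' i - i)) ∧ 2 ^ e ≤ 8 * (sg * (2 * pos S i - i) - (Y - 2 * sg * sv v 0 i)) := by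
  have hP : (1 : ℤ) ≤ 2 ^ e := by exact_mod_cast Nat.one_le_two_pow
  have e1 : (2 : ℤ) ^ (e + 1) = 2 * 2 ^ e := by ring
  have e3 : (2 : ℤ) ^ (e + 3) = 8 * 2 ^ e := by ring
  rw [e1] at h2
  rw [e3]
  have hD0 := hD i₀ hi
  unfold px at h1 h2
  generalize (2 : ℤ) ^ e = P at *
  rw [abs_lt] at h2
  have hD1 : -P ≤ 64 * sv v 0 i₀ ∧ 64 * sv v 0 i₀ ≤ P := by
    have := abs_le.1 (show |sv v 0 i₀| ≤ |sv v 0 i₀| from le_rfl)
    constructor <;> linarith [this.1, this.2]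
  refine ⟨?_, ?_⟩
  · intro i hiN hi1 hi2 hm
    unfold Meet px at hm
    have a1 := fS i hiN hi1 hi2
    have a2 := fS' i hiN hi1 hi2
    have a3 := hD i hiN
    have b1 := abs_le.1 (show |(2 * pos S i - i) - (2 * pos S i₀ - i₀)| ≤ _ from le_rfl)
    have b2 := abs_le.1 (show |(2 * pos S' i - i) - (2 * pos S' i₀ - i₀)| ≤ _ from le_rfl)
    have b3 := abs_le.1 (show |sv v 0 i| ≤ _ from le_rfl)
    rcases le_abs.1 h1 with h | h <;> linarith [b1.1, b1.2, b2.1, b2.2, b3.1, b3.2]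
  · rcases le_abs.1 h1 with h | h
    · -- the first path is on the right
      refine ⟨1, P * ((2 * pos S' i₀ - i₀ + (P + P / 2)) / P), Or.inl rfl, dvd_mul_right _ _, ?_⟩
      intro i hiN hi1 hi2
      have a1 := fS i hiN hi1 hi2
      have a2 := fS' i hiN hi1 hi2
      have a3 := hD i hiN
      have b1 := abs_le.1 (show |(2 * pos S i - i) - (2 * pos S i₀ - i₀)| ≤ _ from le_rfl)
      have b2 := abs_le.1 (show |(2 * pos S' i - i) - (2 * pos S' i₀ - i₀)| ≤ _ from le_rfl)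
      have b3 := abs_le.1 (show |sv v 0 i| ≤ _ from le_rfl)
      have c1 := Int.mul_ediv_add_emod (2 * pos S' i₀ - i₀ + (P + P / 2)) P
      have c2 := Int.emod_nonneg (2 * pos S' i₀ - i₀ + (P + P / 2)) (show P ≠ 0 by omega)
      have c3 := Int.emod_lt_of_pos (2 * pos S' i₀ - i₀ + (P + P / 2)) (show 0 < P by omega)
      have c4 : 2 * (P / 2) ≤ P ∧ P ≤ 2 * (P / 2) + 1 := by omega
      generalize P * ((2 * pos S' i₀ - i₀ + (P + P / 2)) / P) = Y at *
      generalize (2 * pos S' i₀ - i₀ + (P + P / 2)) % P = r at *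
      refine ⟨?_, ?_, ?_, ?_, ?_, ?_⟩
      · omega
      · omega
      · omega
      · rw [abs_le]
        constructor <;> omega
      · omega
      · omega
    · refine ⟨-1, P * ((-(2 * pos S' i₀ - i₀) + (P + P / 2)) / P), Or.inr rfl, dvd_mul_right _ _, ?_⟩
      intro i hiN hi1 hi2
      have a1 := fS i hiN hi1 hi2
      have a2 := fS' i hiN hi1 hi2
      have a3 := hD i hiN
      have b1 := abs_le.1 (show |(2 * pos S i - i) - (2 * pos S i₀ - i₀)| ≤ _ from le_rfl)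
      have b2 := abs_le.1 (show |(2 * pos S' i - i) - (2 * pos S' i₀ - i₀)| ≤ _ from le_rfl)
      have b3 := abs_le.1 (show |sv v 0 i| ≤ _ from le_rfl)
      have c1 := Int.mul_ediv_add_emod (-(2 * pos S' i₀ - i₀) + (P + P / 2)) P
      have c2 := Int.emod_nonneg (-(2 * pos S' i₀ - i₀) + (P + P / 2)) (show P ≠ 0 by omega)
      have c3 := Int.emod_lt_of_pos (-(2 * pos S' i₀ - i₀) + (P + P / 2)) (show 0 < P by omega)
      have c4 : 2 * (P / 2) ≤ P ∧ P ≤ 2 * (P / 2) + 1 := by omega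
      generalize P * ((-(2 * pos S' i₀ - i₀) + (P + P / 2)) / P) = Y at *
      generalize (-(2 * pos S' i₀ - i₀) + (P + P / 2)) % P = r at *
      refine ⟨?_, ?_, ?_, ?_, ?_, ?_⟩
      · omega
      · omega
      · omega
      · rw [abs_le]
        constructor <;> omega
      · omega
      · omega

/-! ### The windows -/

/-- The length of the short windows. -/
def ell (t n : ℕ) : ℕ := min n (t / 16)

/-- The first zone behind the junction `b` which is the second one of its pair. -/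
def bz (k0 b : ℕ) : ℕ := b + (b + k0 + 1) % 2

/-- The rows of a long window: the open gaps behind complete pairs of zones, on the right of the junction `b`. -/
def lWin (t τ k0 b n : ℕ) : Finset ℕ :=
  ((range (n / (16 * t))) ×ˢ (range (t - 1))).image fun x => zb t τ (bz k0 b + 2 * x.1) + 1 + x.2

/-- The windows at the junction `b` at the scale `n`. -/
def Wd0 (t τ k0 n b : ℕ) : Finset (ℕ × Finset ℕ) :=
  if n ≤ 16 * t then
    (({zb t τ (b - 1) - t / 4, za t τ b} : Finset ℕ) ×ˢ range (t / 4 / ell t n + 1)).image fun x =>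
      (x.1 + min (x.2 * ell t n) (t / 4 - ell t n),
        Ico (x.1 + min (x.2 * ell t n) (t / 4 - ell t n)) (x.1 + min (x.2 * ell t n) (t / 4 - ell t n) + ell t n))
  else {(zb t τ (bz k0 b) + 1, lWin t τ k0 b n)}

/-- The windows `(e, j₀, J)` at the junction `b`: grid `2 ^ e`, strip `2 ^ (e + 3)`, rows `J`. -/
def Wd (N t τ k0 : ℕ) (n1 : ℕ → ℕ) (e0 E b : ℕ) : Finset (ℕ × ℕ × Finset ℕ) :=
  (Icc e0 E).biUnion fun e => ((Wd0 t τ k0 (n1 e) b).filter fun p =>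
    p.1 ∈ p.2 ∧ (∀ i ∈ p.2, 1 ≤ i ∧ i < N) ∧ n1 e ≤ 512 * p.2.card).image fun p => (e, p.1, p.2)

theorem mem_Wd {N t τ k0 : ℕ} {n1 : ℕ → ℕ} {e0 E b : ℕ} {w : ℕ × ℕ × Finset ℕ} :
    w ∈ Wd N t τ k0 n1 e0 E b ↔ e0 ≤ w.1 ∧ w.1 ≤ E ∧ (w.2.1, w.2.2) ∈ Wd0 t τ k0 (n1 w.1) b ∧ w.2.1 ∈ w.2.2 ∧
      (∀ i ∈ w.2.2, 1 ≤ i ∧ i < N) ∧ n1 w.1 ≤ 512 * w.2.2.card := by
  unfold Wd
  rw [mem_biUnion]
  constructor
  · rintro ⟨e, he, hw⟩
    rw [mem_image] at hw
    obtain ⟨p, hp, rfl⟩ := hw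
    rw [mem_filter] at hp
    rw [mem_Icc] at he
    exact ⟨he.1, he.2, hp.1, hp.2.1, hp.2.2.1, hp.2.2.2⟩
  · rintro ⟨h1, h2, h3, h4, h5, h6⟩
    refine ⟨w.1, mem_Icc.2 ⟨h1, h2⟩, mem_image.2 ⟨(w.2.1, w.2.2), ?_, rfl⟩⟩
    exact mem_filter.2 ⟨h3, h4, h5, h6⟩

theorem card_Wd0 (t τ k0 n b : ℕ) : (Wd0 t τ k0 n b).card ≤ 2 * (t / 4 / ell t n + 1) := by
  unfold Wd0
  split_ifs with h
  · refine card_image_le.trans ?_
    rw [card_product, card_range]
    exact Nat.mul_le_mul_right _ (card_insert_le _ _ |>.trans (by simp))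
  · rw [card_singleton]
    have := Nat.zero_le (t / 4 / ell t n)
    linarith

theorem card_Wd {N t τ k0 : ℕ} {n1 : ℕ → ℕ} {e0 E b X : ℕ} (hX : ∀ e, e0 ≤ e → e ≤ E → t / 4 / ell t (n1 e) ≤ X) :
    (Wd N t τ k0 n1 e0 E b).card ≤ (E + 1 - e0) * (2 * (X + 1)) := by
  unfold Wd
  refine card_biUnion_le.trans ?_
  calc ∑ e ∈ Icc e0 E, _ ≤ ∑ e ∈ Icc e0 E, 2 * (X + 1) := by
        refine sum_le_sum fun e he => ?_
        rw [mem_Icc] at he
        refine card_image_le.trans ((card_filter_le _ _).trans ((card_Wd0 _ _ _ _ _).trans ?_))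
        have := hX e he.1 he.2
        omega
    _ = _ := by rw [sum_const, Nat.card_Icc, smul_eq_mul]

theorem mem_lWin {t τ k0 b n i : ℕ} (hi : i ∈ lWin t τ k0 b n) :
    ∃ c r : ℕ, c < n / (16 * t) ∧ r < t - 1 ∧ i = zb t τ (bz k0 b + 2 * c) + 1 + r := by
  unfold lWin at hi
  rw [mem_image] at hi
  obtain ⟨x, hx, rfl⟩ := hi
  rw [mem_product, mem_range, mem_range] at hx
  exact ⟨x.1, x.2, hx.1, hx.2, rfl⟩

theorem ell_le (t n : ℕ) : ell t n ≤ t / 4 := by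
  have : ell t n ≤ t / 16 := min_le_right _ _
  omega

/-- The place of a window: inside one buffer next to the junction, or in the gaps. -/
theorem Wd0_place {t τ k0 n b : ℕ} {w : ℕ × Finset ℕ} (hw : w ∈ Wd0 t τ k0 n b) :
    (∀ i ∈ w.2, zb t τ (b - 1) - t / 4 ≤ i ∧ i < zb t τ (b - 1)) ∨ (∀ i ∈ w.2, za t τ b ≤ i ∧ i < za t τ b + t / 4) ∨
      (∀ i ∈ w.2, ∀ k, i < za t τ k ∨ zb t τ k < i) := by
  unfold Wd0 at hw
  have hel := ell_le t n
  split_ifs at hw with h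
  · rw [mem_image] at hw
    obtain ⟨x, hx, rfl⟩ := hw
    rw [mem_product, mem_insert, mem_singleton] at hx
    have hm : min (x.2 * ell t n) (t / 4 - ell t n) ≤ t / 4 - ell t n := min_le_right _ _
    rcases hx.1 with h1 | h1
    · left
      intro i hi
      dsimp only at hi
      rw [mem_Ico] at hi
      have hz : t / 4 ≤ zb t τ (b - 1) := by
        unfold zb
        have := Nat.div_le_self t 4
        omega
      constructor
      · omega
      · omega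
    · right
      left
      intro i hi
      dsimp only at hi
      rw [mem_Ico] at hi
      constructor <;> omega
  · right
    right
    rw [mem_singleton] at hw
    subst hw
    intro i hi k
    obtain ⟨c, r, hc, hr, rfl⟩ := mem_lWin hi
    rcases Nat.lt_or_ge (bz k0 b + 2 * c) k with h1 | h1
    · left
      unfold za zb
      have h2 : 2 * t * (bz k0 b + 2 * c + 1) ≤ 2 * t * k := Nat.mul_le_mul_left _ h1
      rw [mul_add, mul_one] at h2
      omega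
    · right
      unfold zb
      have h2 : 2 * t * k ≤ 2 * t * (bz k0 b + 2 * c) := Nat.mul_le_mul_left _ h1
      omega

/-- The rows of a window are in `[j₀, j₀ + n]`. -/
theorem Wd0_span {t τ k0 n b : ℕ} {w : ℕ × Finset ℕ} (hw : w ∈ Wd0 t τ k0 n b) : ∀ i ∈ w.2, w.1 ≤ i ∧ i ≤ w.1 + n := by
  unfold Wd0 at hw
  split_ifs at hw with h
  · rw [mem_image] at hw
    obtain ⟨x, hx, rfl⟩ := hw
    intro i hi
    dsimp only at hi ⊢
    rw [mem_Ico] at hi
    have h2 : ell t n ≤ n := min_le_left _ _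
    omega
  · rw [mem_singleton] at hw
    subst hw
    intro i hi
    obtain ⟨c, r, hc, hr, rfl⟩ := mem_lWin hi
    dsimp only
    have h3 : 16 * t * (c + 1) ≤ n := by
      have : (c + 1) * (16 * t) ≤ n := (Nat.le_div_iff_mul_le (by omega)).1 hc
      linarith
    have e1 : zb t τ (bz k0 b + 2 * c) = zb t τ (bz k0 b) + 4 * (t * c) := by
      unfold zb
      ring
    have e2 : 16 * t * (c + 1) = 16 * (t * c) + 16 * t := by ring
    rw [e1]
    rw [e2] at h3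
    generalize t * c = x at *
    omega

theorem card_lWin {t τ k0 b n : ℕ} (ht : 2 ≤ t) (hn : 16 * t < n) : n ≤ 512 * (lWin t τ k0 b n).card := by
  have hc : (lWin t τ k0 b n).card = n / (16 * t) * (t - 1) := by
    unfold lWin
    rw [card_image_of_injOn, card_product, card_range, card_range]
    intro x hx y hy hxy
    rw [mem_coe, mem_product, mem_range, mem_range] at hx hy
    have hxy' : zb t τ (bz k0 b + 2 * x.1) + 1 + x.2 = zb t τ (bz k0 b + 2 * y.1) + 1 + y.2 := hxy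
    unfold zb at hxy'
    have hd : 2 * t * (bz k0 b + 2 * x.1) + x.2 = 2 * t * (bz k0 b + 2 * y.1) + y.2 := by omega
    have h1 : x.2 < 2 * t := by omega
    have h2 : y.2 < 2 * t := by omega
    have e1 : (2 * t * (bz k0 b + 2 * x.1) + x.2) / (2 * t) = bz k0 b + 2 * x.1 := by
      rw [Nat.mul_add_div (by omega), Nat.div_eq_of_lt h1, add_zero]
    have e2 : (2 * t * (bz k0 b + 2 * y.1) + y.2) / (2 * t) = bz k0 b + 2 * y.1 := by
      rw [Nat.mul_add_div (by omega), Nat.div_eq_of_lt h2, add_zero]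
    rw [hd, e2] at e1
    have e3 : x.1 = y.1 := by omega
    refine Prod.ext e3 ?_
    rw [e3] at hd
    omega
  rw [hc]
  have hq : 1 ≤ n / (16 * t) := by
    rw [Nat.le_div_iff_mul_le (by omega)]
    omega
  have h3 := Nat.lt_div_mul_add (a := n) (b := 16 * t) (by omega)
  generalize n / (16 * t) = q at *
  obtain ⟨m, rfl⟩ : ∃ m, t = m + 1 := ⟨t - 1, by omega⟩
  rw [Nat.add_sub_cancel]
  nlinarith [Nat.mul_le_mul hq (show 1 ≤ m by omega)]

/-- The shift is constant in the buffers. -/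
theorem sv_buf {t τ : ℕ} {I : Finset ℕ} (hI : I ⊆ Core t) (V : ℕ → ℤ) {b β : ℕ} (hβ : β = zb t τ b - t / 4 ∨ β = za t τ b)
    {i : ℕ} (h1 : β ≤ i) (h2 : i ≤ β + t / 4) : sv (pat t τ I V) 0 i = sv (pat t τ I V) 0 β := by
  unfold sv
  rw [← Finset.sum_Ico_consecutive _ (Nat.zero_le β) h1]
  rw [Finset.sum_eq_zero (s := Ico β i), add_zero]
  intro k hk
  rw [mem_Ico] at hk
  unfold pat
  rw [if_neg]
  rintro ⟨h3, h4⟩
  have h5 := hI h4
  unfold Core at h5
  rw [mem_Ico] at h5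
  have ht : 0 < t := by
    by_contra h0
    have : t = 0 := by omega
    subst this
    omega
  rcases hβ with h | h
  · unfold zb at h
    have e1 : (k - τ) % (2 * t) = k - τ - 2 * t * b := by
      have e2 : k - τ = 2 * t * b + (k - τ - 2 * t * b) := by omega
      conv_lhs => rw [e2]
      rw [Nat.mul_add_mod, Nat.mod_eq_of_lt]
      omega
    rw [e1] at h5
    omega
  · unfold za at h
    have e1 : (k - τ) % (2 * t) = k - τ - 2 * t * b := by
      have e2 : k - τ = 2 * t * b + (k - τ - 2 * t * b) := by omega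
      conv_lhs => rw [e2]
      rw [Nat.mul_add_mod, Nat.mod_eq_of_lt]
      omega
    rw [e1] at h5
    omega

/-- BRK with margins: the distances of both paths from the line are at least `2 ^ e / 8`. -/
theorem brk_m {N t τ k0 b a b' β e0 E : ℕ} {I : Finset ℕ} {V : ℕ → ℤ} {S S' : Finset ℕ} {n1 : ℕ → ℕ} (ht : 16 ≤ t)
    (hI : I ⊆ Core t) (hk : k0 ≤ b) (hβ : β = zb t τ (b - 1) - t / 4 ∨ β = za t τ b)
    (ha : Meet (pat t τ I V) S S' a) (hb' : Meet (pat t τ I V) S S' b') (haβ : a ≤ β) (hβb : β + t / 4 ≤ b') (hbN : b' ≤ N)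
    (hd : ∃ i, β ≤ i ∧ i ≤ β + t / 4 ∧ 2 ^ e0 ≤ |pos S i - px (pat t τ I V) S' i|)
    (hE : ∀ i : ℕ, i ≤ N → |pos S i - px (pat t τ I V) S' i| < 2 ^ (E + 1))
    (hn1 : ∀ e, e0 ≤ e → e ≤ E → 1 ≤ n1 e)
    (fS : ∀ e, e0 ≤ e → e ≤ E → ∀ i j : ℕ, i ≤ j → j ≤ N → j ≤ i + n1 e → 32 * |(2 * pos S j - j) - (2 * pos S i - i)| ≤ 2 ^ e)
    (fS' : ∀ e, e0 ≤ e → e ≤ E → ∀ i j : ℕ, i ≤ j → j ≤ N → j ≤ i + n1 e →
      32 * |(2 * pos S' j - j) - (2 * pos S' i - i)| ≤ 2 ^ e)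
    (hD : ∀ i : ℕ, i ≤ N → 64 * |sv (pat t τ I V) 0 i| ≤ 2 ^ e0)
    (hg : ∀ k, k0 ≤ k → (k + k0) % 2 = 1 → ∀ i, zb t τ k ≤ i → i ≤ za t τ (k + 1) → sv (pat t τ I V) 0 i = 0) :
    ∃ w ∈ Wd N t τ k0 n1 e0 E b, ∃ sg Y s₀ : ℤ, ((sg = 1 ∨ sg = -1) ∧ (((2 ^ w.1 : ℕ)) : ℤ) ∣ Y ∧
      |sg * (2 * pos S' w.2.1 - w.2.1) - Y| ≤ ((2 ^ (w.1 + 3) : ℕ) : ℤ) ∧ InL sg w.2.2 Y S' ∧
      InR sg w.2.2 (Y - 2 * sg * s₀) ((2 ^ (w.1 + 3) : ℕ) : ℤ) S ∧ (∀ i ∈ w.2.2, a < i ∧ i < b') ∧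
      ∀ i ∈ w.2.2, sv (pat t τ I V) 0 i = s₀) ∧
      ∀ i ∈ w.2.2, 2 ^ w.1 ≤ 8 * (Y - sg * (2 * pos S' i - i)) ∧
        2 ^ w.1 ≤ 8 * (sg * (2 * pos S i - i) - (Y - 2 * sg * s₀)) := by
  obtain ⟨i₀, hi1, hi2, hi3⟩ := hd
  have hi₀N : i₀ ≤ N := by omega
  -- the scale of the distance
  obtain ⟨e, he0, heE, h1, h2⟩ : ∃ e, e0 ≤ e ∧ e ≤ E ∧ 2 ^ e ≤ |pos S i₀ - px (pat t τ I V) S' i₀| ∧
      |pos S i₀ - px (pat t τ I V) S' i₀| < 2 ^ (e + 1) := by
    have hE' := hE i₀ hi₀N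
    have key : ∀ x : ℕ, 2 ^ e0 ≤ x → x < 2 ^ (E + 1) → ∃ e, e0 ≤ e ∧ e ≤ E ∧ 2 ^ e ≤ x ∧ x < 2 ^ (e + 1) := by
      intro x hx1 hx2
      have hx0 : x ≠ 0 := by
        have := Nat.one_le_two_pow (n := e0)
        omega
      refine ⟨Nat.log 2 x, ?_, ?_, Nat.pow_log_le_self 2 hx0, Nat.lt_pow_succ_log_self (by norm_num) x⟩
      · exact (Nat.le_log_iff_pow_le (by norm_num) hx0).2 hx1
      · have := (Nat.log_lt_iff_lt_pow (b := 2) (by norm_num) hx0).2 hx2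
        omega
    obtain ⟨e, g1, g2, g3, g4⟩ := key (pos S i₀ - px (pat t τ I V) S' i₀).natAbs (by zify; exact hi3) (by zify; exact hE')
    refine ⟨e, g1, g2, ?_, ?_⟩
    · zify at g3
      exact g3
    · zify at g4
      exact g4
  have hn := hn1 e he0 heE
  have hpow : (2 : ℤ) ^ e0 ≤ 2 ^ e := pow_le_pow_right₀ (by norm_num) he0
  obtain ⟨hno, sg, Y, hsg, hY, hwin⟩ := win_core (n := n1 e) hi₀N h1 h2
    (fun i hiN g1 g2 => by
      rcases le_total i i₀ with h | h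
      · rw [abs_sub_comm]
        exact fS e he0 heE i i₀ h hi₀N g2
      · exact fS e he0 heE i₀ i h hiN g1)
    (fun i hiN g1 g2 => by
      rcases le_total i i₀ with h | h
      · rw [abs_sub_comm]
        exact fS' e he0 heE i i₀ h hi₀N g2
      · exact fS' e he0 heE i₀ i h hiN g1)
    (fun i hiN => (hD i hiN).trans hpow)
  -- the window does not reach the meetings
  have haw : a + n1 e < i₀ := by
    by_contra hcon
    exact hno a (by omega) (by omega) (by omega) ha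
  have hbw : i₀ + n1 e < b' := by
    by_contra hcon
    exact hno b' hbN (by omega) (by omega) hb'
  -- it is enough to find the rows
  have main : ∀ (J : Finset ℕ) (j₀ : ℕ) (s₀ : ℤ), (j₀, J) ∈ Wd0 t τ k0 (n1 e) b → j₀ ∈ J → n1 e ≤ 512 * J.card →
      (∀ i ∈ J, i ≤ i₀ + n1 e ∧ i₀ ≤ i + n1 e) → (∀ i ∈ J, sv (pat t τ I V) 0 i = s₀) →
      ∃ w ∈ Wd N t τ k0 n1 e0 E b, ∃ sg Y s₀ : ℤ, ((sg = 1 ∨ sg = -1) ∧ (((2 ^ w.1 : ℕ)) : ℤ) ∣ Y ∧
      |sg * (2 * pos S' w.2.1 - w.2.1) - Y| ≤ ((2 ^ (w.1 + 3) : ℕ) : ℤ) ∧ InL sg w.2.2 Y S' ∧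
      InR sg w.2.2 (Y - 2 * sg * s₀) ((2 ^ (w.1 + 3) : ℕ) : ℤ) S ∧ (∀ i ∈ w.2.2, a < i ∧ i < b') ∧
      ∀ i ∈ w.2.2, sv (pat t τ I V) 0 i = s₀) ∧
      ∀ i ∈ w.2.2, 2 ^ w.1 ≤ 8 * (Y - sg * (2 * pos S' i - i)) ∧
        2 ^ w.1 ≤ 8 * (sg * (2 * pos S i - i) - (Y - 2 * sg * s₀)) := by
    intro J j₀ s₀ hJ hj hJc hJi hJs
    have hJN : ∀ i ∈ J, i ≤ N := fun i hi => by
      have := hJi i hi
      omega
    refine ⟨(e, j₀, J), mem_Wd.2 ⟨he0, heE, hJ, hj, ?_, hJc⟩, sg, Y, s₀, ⟨hsg, ?_, ?_, ?_, ?_, ?_, hJs⟩, ?_⟩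
    · intro i hi
      have := hJi i hi
      omega
    · push_cast
      exact hY
    · have := (hwin j₀ (hJN j₀ hj) (hJi j₀ hj).1 (hJi j₀ hj).2).2.2.2.1
      push_cast
      exact this
    · intro i hi
      exact (hwin i (hJN i hi) (hJi i hi).1 (hJi i hi).2).1
    · intro i hi
      have := hwin i (hJN i hi) (hJi i hi).1 (hJi i hi).2
      rw [hJs i hi] at this
      push_cast
      exact ⟨this.2.1, this.2.2.1⟩
    · intro i hi
      have := hJi i hi
      omega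
    · intro i hi
      have := hwin i (hJN i hi) (hJi i hi).1 (hJi i hi).2
      rw [hJs i hi] at this
      exact this.2.2.2.2
  by_cases hcase : n1 e ≤ 16 * t
  · -- short windows
    have hel : ell t (n1 e) ≤ t / 16 := min_le_right _ _
    have hel2 : ell t (n1 e) ≤ n1 e := min_le_left _ _
    have hel1 : 1 ≤ ell t (n1 e) := by
      unfold ell
      rw [Nat.le_min]
      omega
    set ℓ := ell t (n1 e) with hℓ
    set k := (i₀ - β) / ℓ with hkd
    have hk1 : k * ℓ ≤ i₀ - β := Nat.div_mul_le_self _ _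
    have hk2 : i₀ - β < k * ℓ + ℓ := Nat.lt_div_mul_add (by omega)
    have hkr : k < t / 4 / ℓ + 1 := by
      rw [Nat.lt_succ_iff]
      exact Nat.div_le_div_right (by omega)
    have hβ' : ∃ c, β = zb t τ c - t / 4 ∨ β = za t τ c := by
      rcases hβ with h | h
      · exact ⟨_, Or.inl h⟩
      · exact ⟨_, Or.inr h⟩
    obtain ⟨c, hc⟩ := hβ'
    refine main (Ico (β + min (k * ℓ) (t / 4 - ℓ)) (β + min (k * ℓ) (t / 4 - ℓ) + ℓ)) (β + min (k * ℓ) (t / 4 - ℓ))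
      (sv (pat t τ I V) 0 β) ?_ ?_ ?_ ?_ ?_
    · unfold Wd0
      rw [if_pos hcase, mem_image]
      refine ⟨(β, k), ?_, rfl⟩
      rw [mem_product, mem_insert, mem_singleton, mem_range]
      exact ⟨hβ, hkr⟩
    · rw [mem_Ico]
      omega
    · rw [Nat.card_Ico]
      have : n1 e ≤ 512 * ℓ := by
        rcases le_total (n1 e) (t / 16) with h | h
        · rw [hℓ, ell, min_eq_left h]
          omega
        · rw [hℓ, ell, min_eq_right h]
          omega
      omega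
    · intro i hi
      rw [mem_Ico] at hi
      rcases le_total (k * ℓ) (t / 4 - ℓ) with h | h
      · rw [min_eq_left h] at hi
        omega
      · rw [min_eq_right h] at hi
        omega
    · intro i hi
      rw [mem_Ico] at hi
      have hm : min (k * ℓ) (t / 4 - ℓ) ≤ t / 4 - ℓ := min_le_right _ _
      exact sv_buf hI V hc (by omega) (by omega)
  · -- long windows
    push Not at hcase
    have hbz1 : b ≤ bz k0 b := by unfold bz; omega
    have hbz2 : bz k0 b ≤ b + 1 := by unfold bz; omega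
    have hbz3 : (bz k0 b + k0) % 2 = 1 := by unfold bz; omega
    have hz : za t τ b ≤ i₀ + 2 * t ∧ i₀ ≤ za t τ b + t := by
      rcases hβ with h | h
      · rcases Nat.eq_zero_or_pos b with hb0 | hb0
        · subst hb0
          unfold zb at h
          unfold za
          simp only [Nat.zero_sub, mul_zero] at h ⊢
          omega
        · unfold zb at h
          unfold za
          have e1 : 2 * t * b = 2 * t * (b - 1) + 2 * t := by
            obtain ⟨m, rfl⟩ : ∃ m, b = m + 1 := ⟨b - 1, by omega⟩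
            rw [Nat.add_sub_cancel]
            ring
          omega
      · unfold za at h ⊢
        omega
    refine main (lWin t τ k0 b (n1 e)) (zb t τ (bz k0 b) + 1) 0 ?_ ?_ (card_lWin (by omega) hcase) ?_ ?_
    · unfold Wd0
      rw [if_neg (by omega), mem_singleton]
    · unfold lWin
      rw [mem_image]
      refine ⟨(0, 0), ?_, rfl⟩
      rw [mem_product, mem_range, mem_range]
      refine ⟨?_, by dsimp only; omega⟩
      dsimp only
      exact Nat.div_pos (by omega) (by omega)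
    · intro i hi
      obtain ⟨c, r, hc, hr, rfl⟩ := mem_lWin hi
      have hc2 : 16 * t * (c + 1) ≤ n1 e := by
        have : (c + 1) * (16 * t) ≤ n1 e := (Nat.le_div_iff_mul_le (by omega)).1 hc
        linarith
      have e2 : zb t τ (bz k0 b + 2 * c) = za t τ b + t + 2 * t * (bz k0 b - b) + 4 * (t * c) := by
        unfold zb za
        obtain ⟨m, hm⟩ : ∃ m, bz k0 b = b + m := ⟨bz k0 b - b, by omega⟩
        rw [hm, Nat.add_sub_cancel_left]
        ring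
      have e3 : 2 * t * (bz k0 b - b) ≤ 2 * t := by
        have : bz k0 b - b ≤ 1 := by omega
        calc 2 * t * (bz k0 b - b) ≤ 2 * t * 1 := Nat.mul_le_mul_left _ this
          _ = 2 * t := by ring
      have e4 : 16 * t * (c + 1) = 16 * (t * c) + 16 * t := by ring
      rw [e2]
      rw [e4] at hc2
      generalize t * c = x at *
      generalize 2 * t * (bz k0 b - b) = y at *
      omega
    · intro i hi
      obtain ⟨c, r, hc, hr, rfl⟩ := mem_lWin hi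
      refine hg (bz k0 b + 2 * c) (by omega) (by omega) _ (by omega) ?_
      unfold zb za
      have : 2 * t * (bz k0 b + 2 * c + 1) = 2 * t * (bz k0 b + 2 * c) + 2 * t := by ring
      omega

/-- BRK (row 664, 4.2 (i), (ii)): a buffer `[β, β + t / 4]` next to the junction `b`, without meetings, between two meetings `a`, `b'`.
There is a window `(e, j₀, J)` of the list of the junction, a sign and a line such that `S'` is left of the line and `S` in the strip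
behind it at the rows `J`, and `J` is between `a` and `b'`. -/
theorem brk {N t τ k0 b a b' β e0 E : ℕ} {I : Finset ℕ} {V : ℕ → ℤ} {S S' : Finset ℕ} {n1 : ℕ → ℕ} (ht : 16 ≤ t)
    (hI : I ⊆ Core t) (hk : k0 ≤ b) (hβ : β = zb t τ (b - 1) - t / 4 ∨ β = za t τ b)
    (ha : Meet (pat t τ I V) S S' a) (hb' : Meet (pat t τ I V) S S' b') (haβ : a ≤ β) (hβb : β + t / 4 ≤ b') (hbN : b' ≤ N)
    (hd : ∃ i, β ≤ i ∧ i ≤ β + t / 4 ∧ 2 ^ e0 ≤ |pos S i - px (pat t τ I V) S' i|)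
    (hE : ∀ i : ℕ, i ≤ N → |pos S i - px (pat t τ I V) S' i| < 2 ^ (E + 1))
    (hn1 : ∀ e, e0 ≤ e → e ≤ E → 1 ≤ n1 e)
    (fS : ∀ e, e0 ≤ e → e ≤ E → ∀ i j : ℕ, i ≤ j → j ≤ N → j ≤ i + n1 e → 32 * |(2 * pos S j - j) - (2 * pos S i - i)| ≤ 2 ^ e)
    (fS' : ∀ e, e0 ≤ e → e ≤ E → ∀ i j : ℕ, i ≤ j → j ≤ N → j ≤ i + n1 e →
      32 * |(2 * pos S' j - j) - (2 * pos S' i - i)| ≤ 2 ^ e)
    (hD : ∀ i : ℕ, i ≤ N → 64 * |sv (pat t τ I V) 0 i| ≤ 2 ^ e0)
    (hg : ∀ k, k0 ≤ k → (k + k0) % 2 = 1 → ∀ i, zb t τ k ≤ i → i ≤ za t τ (k + 1) → sv (pat t τ I V) 0 i = 0) :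
    ∃ w ∈ Wd N t τ k0 n1 e0 E b, ∃ sg Y s₀ : ℤ, (sg = 1 ∨ sg = -1) ∧ (((2 ^ w.1 : ℕ)) : ℤ) ∣ Y ∧
      |sg * (2 * pos S' w.2.1 - w.2.1) - Y| ≤ ((2 ^ (w.1 + 3) : ℕ) : ℤ) ∧ InL sg w.2.2 Y S' ∧
      InR sg w.2.2 (Y - 2 * sg * s₀) ((2 ^ (w.1 + 3) : ℕ) : ℤ) S ∧ (∀ i ∈ w.2.2, a < i ∧ i < b') ∧
      ∀ i ∈ w.2.2, sv (pat t τ I V) 0 i = s₀ := by
  obtain ⟨w, hw, sg, Y, s₀, h, _⟩ := brk_m ht hI hk hβ ha hb' haβ hβb hbN hd hE hn1 fS fS' hD hg
  exact ⟨w, hw, sg, Y, s₀, h⟩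

/-- The bracket of a cluster: a meeting in the left buffer of its first zone (or the common start) and a meeting in the right buffer of
its last zone (or the common end); it contains the bad buffers of all the bad junctions of the cluster. -/
theorem bracket {N t τ k0 k1 : ℕ} {v : ℕ → ℤ} {S S' : Finset ℕ} (ht : 4 ≤ t) (h0 : Meet v S S' 0) (hN : Meet v S S' N)
    (hkN : zb t τ (k1 - 1) ≤ N) {p : ℕ × ℕ} (hp : p ∈ Runs (BadJ t τ k0 k1 v S S') k0 k1) :
    ∃ a b' : ℕ, Meet v S S' a ∧ Meet v S S' b' ∧ b' ≤ N ∧ (za t τ p.1 ≤ a ∧ a ≤ za t τ p.1 + t / 4 ∨ a = 0 ∧ p.1 = k0) ∧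
      (zb t τ (p.2 - 1) - t / 4 ≤ b' ∧ b' ≤ zb t τ (p.2 - 1) ∨ b' = N ∧ p.2 = k1) ∧
      ∀ b, p.1 ≤ b → b ≤ p.2 → BadJ t τ k0 k1 v S S' b → ∃ β, (β = zb t τ (b - 1) - t / 4 ∨ β = za t τ b) ∧ a ≤ β ∧
        β + t / 4 ≤ b' ∧ ∀ i, β ≤ i → i ≤ β + t / 4 → ¬ Meet v S S' i := by
  rw [mem_Runs] at hp
  obtain ⟨p1, p2, p3, p4, p5, p6, p7⟩ := hp
  have hza : ∀ x y : ℕ, x ≤ y → za t τ x ≤ za t τ y := fun x y h => by
    unfold za
    have := Nat.mul_le_mul_left (2 * t) h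
    omega
  have hzs : ∀ x : ℕ, za t τ (x + 1) = za t τ x + 2 * t := fun x => by unfold za; ring
  have hzb : ∀ x : ℕ, zb t τ x = za t τ x + t := fun x => rfl
  have hL : ∃ a, Meet v S S' a ∧ (za t τ p.1 ≤ a ∧ a ≤ za t τ p.1 + t / 4 ∧ ¬ BadJ t τ k0 k1 v S S' p.1 ∨ a = 0 ∧ p.1 = k0) := by
    by_cases hb : BadJ t τ k0 k1 v S S' p.1
    · refine ⟨0, h0, Or.inr ⟨rfl, ?_⟩⟩
      rcases p5 with h | h
      · exact h
      · exact absurd hb h
    · have hb' := hb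
      unfold BadJ at hb'
      push Not at hb'
      obtain ⟨i, hi1, hi2, hi3⟩ := hb'.2 (by omega)
      exact ⟨i, hi3, Or.inl ⟨hi1, hi2, hb⟩⟩
  have hR : ∃ b', Meet v S S' b' ∧ b' ≤ N ∧
      (zb t τ (p.2 - 1) - t / 4 ≤ b' ∧ b' ≤ zb t τ (p.2 - 1) ∧ ¬ BadJ t τ k0 k1 v S S' p.2 ∨ b' = N ∧ p.2 = k1) := by
    by_cases hb : BadJ t τ k0 k1 v S S' p.2
    · refine ⟨N, hN, le_rfl, Or.inr ⟨rfl, ?_⟩⟩
      rcases p6 with h | h
      · exact h
      · exact absurd hb h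
    · have hb' := hb
      unfold BadJ at hb'
      push Not at hb'
      obtain ⟨i, hi1, hi2, hi3⟩ := hb'.1 (by omega)
      have := hza (p.2 - 1) (k1 - 1) (by omega)
      have e1 := hzb (p.2 - 1)
      have e2 := hzb (k1 - 1)
      exact ⟨i, hi3, by omega, Or.inl ⟨hi1, hi2, hb⟩⟩
  obtain ⟨a, ha, ha'⟩ := hL
  obtain ⟨b', hb', hbN, hb''⟩ := hR
  refine ⟨a, b', ha, hb', hbN, ?_, ?_, ?_⟩
  · rcases ha' with h | h
    · exact Or.inl ⟨h.1, h.2.1⟩
    · exact Or.inr h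
  · rcases hb'' with h | h
    · exact Or.inl ⟨h.1, h.2.1⟩
    · exact Or.inr h
  · intro b hb1 hb2 hbad
    have hA : a = 0 ∨ (a ≤ za t τ p.1 + t / 4 ∧ p.1 < b) := by
      rcases ha' with h | h
      · refine Or.inr ⟨h.2.1, ?_⟩
        rcases Nat.lt_or_ge p.1 b with h1 | h1
        · exact h1
        · exact absurd (by rw [show p.1 = b by omega]; exact hbad) h.2.2
      · exact Or.inl h.1
    have hB : (b' = N ∧ p.2 = k1) ∨ (zb t τ (p.2 - 1) - t / 4 ≤ b' ∧ b < p.2) := by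
      rcases hb'' with h | h
      · refine Or.inr ⟨h.1, ?_⟩
        rcases Nat.lt_or_ge b p.2 with h1 | h1
        · exact h1
        · exact absurd (by rw [show p.2 = b by omega]; exact hbad) h.2.2
      · exact Or.inl h
    rcases hbad with ⟨g1, g2⟩ | ⟨g1, g2⟩
    · refine ⟨zb t τ (b - 1) - t / 4, Or.inl rfl, ?_, ?_, ?_⟩
      · rcases hA with h | h
        · omega
        · have := hza p.1 (b - 1) (by omega)
          have e1 := hzb (b - 1)
          omega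
      · have e1 := hzb (b - 1)
        rcases hB with h | h
        · have := hza (b - 1) (k1 - 1) (by omega)
          have e2 := hzb (k1 - 1)
          omega
        · have := hza b (p.2 - 1) (by omega)
          have e2 := hzb (p.2 - 1)
          have e3 := hzs (b - 1)
          rw [show b - 1 + 1 = b by omega] at e3
          omega
      · intro i hi1 hi2
        have e1 := hzb (b - 1)
        exact g2 i hi1 (by omega)
    · refine ⟨za t τ b, Or.inr rfl, ?_, ?_, g2⟩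
      · rcases hA with h | h
        · omega
        · have := hza (p.1 + 1) b (by omega)
          have e3 := hzs p.1
          omega
      · rcases hB with h | h
        · have := hza b (k1 - 1) (by omega)
          have e2 := hzb (k1 - 1)
          omega
        · have := hza b (p.2 - 1) (by omega)
          have e2 := hzb (p.2 - 1)
          omega

end Pool.Agent.W_7d29a1_Z86
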