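import Pool.Agent.W_7d29a1_Z.Exch
import Pool.Agent.W_7d29a1_Z.Asm72
import Pool.Agent.W_7d29a1_Z86.Ins86A
import Pool.Agent.W_7d29a1_Z86.Brk86

/-!
STORM Z, helper86: the instance of the assembly (`Asm72.onestep_w`), part B: the block functionals, the exchange at the good junctions,
the three projections and the comparison of the sums over the clusters.
-/

namespace Pool.Agent.W_7d29a1_Z86

open MeasureTheory ProbabilityTheory Filter Topology Finset
open Pool.Agent.W_7d29a1_F Pool.Agent.W_7d29a1_X Pool.Agent.W_7d29a1_G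
open Pool.Agent.W_7d29a1_Z
open Pool.Agent.W_7d29a1_Z.Asm72 (SubProb)
open _root_.W_7d29a1_Z.CtrOp77 (D)

noncomputable section

variable {μ : Measure ℝ}

/-- The block functionals of a pair (environment, path). -/
def phi (μ : Measure ℝ) (t τ : ℕ) (I : Finset ℕ) (y : Env × Finset ℕ) (b : ℕ) (a : ℤ) : ℝ := fb μ t τ I y.1 b a (pos y.2)

theorem D_phi (t τ : ℕ) (I : Finset ℕ) (s : ℤ) (y : Env × Finset ℕ) (b : ℕ) (a : ℤ) :
    D s (phi μ t τ I y b) a = Db μ t τ I s y.1 b a (pos y.2) := rfl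

/-- The times of the shears are in the cores of the zones. -/
theorem pat_supp {t τ k0 k1 : ℕ} {I : Finset ℕ} {V : ℕ → ℤ} (hI : I ⊆ Core t) (hV : ∀ b, b < k0 ∨ k1 ≤ b → V b = 0) {k : ℕ}
    (h : pat t τ I V k ≠ 0) : ∃ b, k0 ≤ b ∧ b < k1 ∧ za t τ b + t / 4 ≤ k ∧ k < za t τ b + 3 * t / 4 := by
  unfold pat at h
  split_ifs at h with h1
  · obtain ⟨h2, h3⟩ := h1
    have h4 := hI h3
    unfold Core at h4
    rw [mem_Ico] at h4
    refine ⟨(k - τ) / (2 * t), ?_, ?_, ?_, ?_⟩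
    · by_contra hcon
      exact h (hV _ (Or.inl (by omega)))
    · by_contra hcon
      exact h (hV _ (Or.inr (by omega)))
    · have := Nat.div_add_mod (k - τ) (2 * t)
      unfold za
      omega
    · have := Nat.div_add_mod (k - τ) (2 * t)
      unfold za
      omega
  · exact absurd rfl h

theorem za_succ' (t τ b : ℕ) : za t τ (b + 1) = za t τ b + 2 * t := by unfold za; ring

theorem za_le {t τ x y : ℕ} (h : x ≤ y) : za t τ x ≤ za t τ y := by
  unfold za
  have := Nat.mul_le_mul_left (2 * t) h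
  omega

theorem zb_eq' (t τ b : ℕ) : zb t τ b = za t τ b + t := rfl

/-- The exchange at the good junctions. -/
theorem exists_ex {N t τ k0 k1 : ℕ} {I : Finset ℕ} {V : ℕ → ℤ} (ht : 4 ≤ t) (hk : k0 < k1) (hN : zb t τ (k1 - 1) ≤ N)
    (hI : I ⊆ Core t) (hV : ∀ b, b < k0 ∨ k1 ≤ b → V b = 0) :
    ∃ ex : Finset ℕ → Finset ℕ → Finset ℕ,
      (∀ S S', S ⊆ range N → S' ⊆ range N → ex S S' ⊆ range N) ∧
      (∀ (η : Env) (y : ℤ) (F : Finset ℕ → ℝ), ∑ S ∈ (range N).powerset, ∑ S' ∈ (range N).powerset,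
        gp μ η N y S * gp μ (shr 0 (pat t τ I V) η) N y S' * F (ex S S') =
          (∑ S' ∈ (range N).powerset, gp μ (shr 0 (pat t τ I V) η) N y S') * ∑ S ∈ (range N).powerset, gp μ η N y S * F S) ∧
      ∀ S S', S ⊆ range N → S' ⊆ range N → Meet (pat t τ I V) S S' N → ∀ b, k0 ≤ b → b < k1 →
        ¬ BadJ t τ k0 k1 (pat t τ I V) S S' b → ¬ BadJ t τ k0 k1 (pat t τ I V) S S' (b + 1) →
        pos (ex S S') (za t τ b) = px (pat t τ I V) S' (za t τ b) ∧
          pos (ex S S') (zb t τ b) = px (pat t τ I V) S' (zb t τ b) := by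
  set v := pat t τ I V with hv
  set P : ℕ → ℕ := fun l => if l = 0 then 0 else zb t τ (k0 + l - 1) - t / 4 with hP
  set Q : ℕ → ℕ := fun l => if l = 0 then 0 else zb t τ (k0 + l - 1) with hQ
  set R : ℕ → ℕ := fun l => if k0 + l = k1 then N else za t τ (k0 + l) with hR
  set T : ℕ → ℕ := fun l => if k0 + l = k1 then N else za t τ (k0 + l) + t / 4 with hT
  have hlast : za t τ (k1 - 1) + t ≤ N := hN
  have hT1 : ∀ b, b < k1 → za t τ b + t ≤ N := fun b hb => (Nat.add_le_add_right (za_le (by omega)) t).trans hlast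
  obtain ⟨ex, he, hs, hx⟩ := exchange (μ := μ) (N := N) v (k1 - k0 + 1) P Q R T
    (by
      intro l hl
      simp only [hP, hQ, hR, hT]
      by_cases h0 : l = 0
      · subst h0
        have h1 : ¬ (k0 + 0 = k1) := by omega
        have h2 := hT1 k0 hk
        rw [if_pos rfl, if_pos rfl, if_neg h1, if_neg h1, add_zero]
        omega
      · rw [if_neg h0, if_neg h0]
        have h3 := zb_eq' t τ (k0 + l - 1)
        by_cases h1 : k0 + l = k1
        · rw [if_pos h1, if_pos h1]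
          have h2 := hT1 (k0 + l - 1) (by omega)
          omega
        · rw [if_neg h1, if_neg h1]
          have h2 := hT1 (k0 + l) (by omega)
          have h4 := za_succ' t τ (k0 + l - 1)
          rw [show k0 + l - 1 + 1 = k0 + l by omega] at h4
          omega)
    (by
      intro l hl
      simp only [hP, hT]
      have h1 : ¬ (k0 + l = k1) := by omega
      rw [if_neg h1, if_neg (by omega), show k0 + (l + 1) - 1 = k0 + l by omega, zb_eq']
      omega)
    (by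
      intro l hl k hk1 hk2
      by_contra hne
      rw [hv] at hne
      obtain ⟨b, hb1, hb2, hb3, hb4⟩ := pat_supp hI hV hne
      simp only [hP] at hk1
      simp only [hT] at hk2
      -- the zone `b` is before or behind the junction
      rcases Nat.lt_or_ge b (k0 + l) with h | h
      · -- `b ≤ k0 + l - 1`
        have h0 : l ≠ 0 := by omega
        rw [if_neg h0] at hk1
        have h3 := zb_eq' t τ (k0 + l - 1)
        rcases Nat.lt_or_ge b (k0 + l - 1) with h' | h'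
        · have h4 : za t τ (b + 1) ≤ za t τ (k0 + l - 1) := za_le (by omega)
          rw [za_succ'] at h4
          omega
        · have h4 : b = k0 + l - 1 := by omega
          subst h4
          omega
      · have h1 : ¬ (k0 + l = k1) := by omega
        rw [if_neg h1] at hk2
        have h4 : za t τ (k0 + l) ≤ za t τ b := za_le h
        omega)
  refine ⟨ex, he, hs, ?_⟩
  intro S S' hS hS' hmN b hb1 hb2 hg1 hg2
  have hm0 : pos S 0 = px v S' 0 := by
    unfold px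
    rw [pos_zero, pos_zero]
    simp [sv]
  unfold BadJ at hg1 hg2
  push Not at hg1 hg2
  constructor
  · refine hx S S' hS hS' (b - k0) (by omega) ?_ ?_ _ ?_ ?_
    · by_cases h0 : b - k0 = 0
      · exact ⟨0, by simp only [hP, if_pos h0, le_refl], by simp only [hQ, if_pos h0, le_refl], hm0⟩
      · obtain ⟨i, hi1, hi2, hi3⟩ := hg1.1 (by omega)
        refine ⟨i, ?_, ?_, hi3⟩
        · simp only [hP, if_neg h0]
          rw [show k0 + (b - k0) - 1 = b - 1 by omega]
          exact hi1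
        · simp only [hQ, if_neg h0]
          rw [show k0 + (b - k0) - 1 = b - 1 by omega]
          exact hi2
    · obtain ⟨i, hi1, hi2, hi3⟩ := hg1.2 hb2
      have h1 : ¬ (k0 + (b - k0) = k1) := by omega
      refine ⟨i, ?_, ?_, hi3⟩
      · simp only [hR, if_neg h1]
        rw [show k0 + (b - k0) = b by omega]
        exact hi1
      · simp only [hT, if_neg h1]
        rw [show k0 + (b - k0) = b by omega]
        exact hi2
    · simp only [hQ]
      split_ifs with h0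
      · exact Nat.zero_le _
      · have h4 := za_succ' t τ (b - 1)
        rw [show k0 + (b - k0) - 1 = b - 1 by omega, zb_eq']
        rw [show b - 1 + 1 = b by omega] at h4
        omega
    · have h1 : ¬ (k0 + (b - k0) = k1) := by omega
      simp only [hR, if_neg h1]
      rw [show k0 + (b - k0) = b by omega]
  · have hne : ¬ (b + 1 - k0 = 0) := by omega
    refine hx S S' hS hS' (b + 1 - k0) (by omega) ?_ ?_ _ ?_ ?_
    · obtain ⟨i, hi1, hi2, hi3⟩ := hg2.1 (by omega)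
      refine ⟨i, ?_, ?_, hi3⟩
      · simp only [hP, if_neg hne]
        rw [show k0 + (b + 1 - k0) - 1 = b + 1 - 1 by omega]
        exact hi1
      · simp only [hQ, if_neg hne]
        rw [show k0 + (b + 1 - k0) - 1 = b + 1 - 1 by omega]
        exact hi2
    · by_cases h1 : k0 + (b + 1 - k0) = k1
      · exact ⟨N, by simp only [hR, if_pos h1, le_refl], by simp only [hT, if_pos h1, le_refl], hmN⟩
      · obtain ⟨i, hi1, hi2, hi3⟩ := hg2.2 (by omega)
        refine ⟨i, ?_, ?_, hi3⟩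
        · simp only [hR, if_neg h1]
          rw [show k0 + (b + 1 - k0) = b + 1 by omega]
          exact hi1
        · simp only [hT, if_neg h1]
          rw [show k0 + (b + 1 - k0) = b + 1 by omega]
          exact hi2
    · simp only [hQ, if_neg hne]
      rw [show k0 + (b + 1 - k0) - 1 = b by omega]
    · simp only [hR]
      split_ifs with h1
      · have := hT1 b hb2
        rw [zb_eq']
        exact this
      · rw [show k0 + (b + 1 - k0) = b + 1 by omega, za_succ', zb_eq']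
        omega

/-- Regular points: paths of length `N` with the end point `y`. -/
def RegT (N : ℕ) (y : ℤ) (θ : Env × Finset ℕ × Finset ℕ) : Prop :=
  θ.2.1 ⊆ range N ∧ θ.2.2 ⊆ range N ∧ pos θ.2.1 N = y ∧ pos θ.2.2 N = y

open scoped Classical in
/-- The clusters. -/
def Bf (N : ℕ) (y : ℤ) (t τ k0 k1 : ℕ) (v : ℕ → ℤ) (θ : Env × Finset ℕ × Finset ℕ) : Finset (ℕ × ℕ) :=
  if RegT N y θ then Runs (BadJ t τ k0 k1 v θ.2.1 θ.2.2) k0 k1 else {(k0, k1)}

theorem Bf_of_reg {N : ℕ} {y : ℤ} {t τ k0 k1 : ℕ} {v : ℕ → ℤ} {θ : Env × Finset ℕ × Finset ℕ} (h : RegT N y θ) :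
    Bf N y t τ k0 k1 v θ = Runs (BadJ t τ k0 k1 v θ.2.1 θ.2.2) k0 k1 := if_pos h

theorem Bf_mem {N : ℕ} {y : ℤ} {t τ k0 k1 : ℕ} {v : ℕ → ℤ} (hk : k0 < k1) {θ : Env × Finset ℕ × Finset ℕ} {p : ℕ × ℕ}
    (hp : p ∈ Bf N y t τ k0 k1 v θ) : k0 ≤ p.1 ∧ p.1 < p.2 ∧ p.2 ≤ k1 := by
  unfold Bf at hp
  split_ifs at hp with h
  · rw [mem_Runs] at hp
    exact ⟨hp.1, hp.2.2.1, hp.2.1⟩
  · rw [mem_singleton] at hp
    subst hp
    exact ⟨le_rfl, hk, le_rfl⟩

theorem fb_congrX (t τ : ℕ) (I : Finset ℕ) (η : Env) (b : ℕ) (a : ℤ) {X X' : ℕ → ℤ} (h1 : X (za t τ b) = X' (za t τ b))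
    (h2 : X (zb t τ b) = X' (zb t τ b)) : fb μ t τ I η b a X = fb μ t τ I η b a X' := by
  unfold fb
  rw [h1, h2]

/-- The comparison of the two sums of second differences (field `hcs`). -/
theorem hcs86 {N t τ k0 k1 : ℕ} {I : Finset ℕ} {V : ℕ → ℤ} {y s : ℤ} (hk : k0 < k1) (hI : I ⊆ Core t)
    (hsv : sv (pat t τ I V) 0 N = 0) {ex : Finset ℕ → Finset ℕ → Finset ℕ}
    (hx : ∀ S S', S ⊆ range N → S' ⊆ range N → Meet (pat t τ I V) S S' N → ∀ b, k0 ≤ b → b < k1 →
        ¬ BadJ t τ k0 k1 (pat t τ I V) S S' b → ¬ BadJ t τ k0 k1 (pat t τ I V) S S' (b + 1) →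
        pos (ex S S') (za t τ b) = px (pat t τ I V) S' (za t τ b) ∧
          pos (ex S S') (zb t τ b) = px (pat t τ I V) S' (zb t τ b))
    (θ : Env × Finset ℕ × Finset ℕ) (G G' : ℕ × ℕ → ℝ)
    (hG : ∀ p ∈ Bf N y t τ k0 k1 (pat t τ I V) θ, ∀ x z, p.1 ≤ x → x ≤ z → z ≤ p.2 →
      |∑ b ∈ Ico x z, D s (phi μ t τ I (θ.1, ex θ.2.1 θ.2.2) b) (V b)| ≤ G p)
    (hG' : ∀ p ∈ Bf N y t τ k0 k1 (pat t τ I V) θ, ∀ x z, p.1 ≤ x → x ≤ z → z ≤ p.2 →
      |∑ b ∈ Ico x z, D s (phi μ t τ I (shr 0 (pat t τ I V) θ.1, θ.2.2) b) 0| ≤ G' p) :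
    |∑ b ∈ Ico k0 k1, D s (phi μ t τ I (shr 0 (pat t τ I V) θ.1, θ.2.2) b) 0 -
      ∑ b ∈ Ico k0 k1, D s (phi μ t τ I (θ.1, ex θ.2.1 θ.2.2) b) (V b)| ≤
        ∑ p ∈ Bf N y t τ k0 k1 (pat t τ I V) θ, (G p + G' p) := by
  by_cases hr : RegT N y θ
  · rw [Bf_of_reg hr] at hG hG' ⊢
    refine runs_cluster_sum _ (fun b => D s (phi μ t τ I (θ.1, ex θ.2.1 θ.2.2) b) (V b))
      (fun b => D s (phi μ t τ I (shr 0 (pat t τ I V) θ.1, θ.2.2) b) 0) G G' ?_ hG hG'
    intro b hb1 hb2 hg1 hg2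
    have hm : Meet (pat t τ I V) θ.2.1 θ.2.2 N := by
      unfold Meet px
      rw [hr.2.2.1, hr.2.2.2, hsv, sub_zero]
    obtain ⟨h1, h2⟩ := hx _ _ hr.1 hr.2.1 hm b hb1 hb2 hg1 hg2
    simp only [D_phi]
    rw [Db_shr hI, add_zero]
    unfold Db
    rw [fb_congrX t τ I θ.1 b (V b + s) h1 h2, fb_congrX t τ I θ.1 b (V b - s) h1 h2, fb_congrX t τ I θ.1 b (V b) h1 h2]
  · have hB : Bf N y t τ k0 k1 (pat t τ I V) θ = {(k0, k1)} := if_neg hr
    rw [hB] at hG hG' ⊢
    rw [sum_singleton]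
    have g1 := hG _ (mem_singleton_self _) k0 k1 le_rfl hk.le le_rfl
    have g2 := hG' _ (mem_singleton_self _) k0 k1 le_rfl hk.le le_rfl
    refine (abs_sub _ _).trans ?_
    linarith

/-! ### The projections -/

/-- Irregular points have probability zero. -/
theorem sp2_reg [IsProbabilityMeasure μ] {N : ℕ} {y : ℤ} (h0 : 0 ≤ y) (hN : y ≤ N) (v : ℕ → ℤ) :
    (sp2 μ h0 hN v).pr {θ | ¬ RegT N y θ} = 0 := by
  unfold sp2
  dsimp only
  have : (P2 μ N y v fun η S S' => (η, S, S') ∈ {θ : Env × Finset ℕ × Finset ℕ | ¬ RegT N y θ}) = 0 := by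
    unfold P2
    refine sum_eq_zero fun S hS => sum_eq_zero fun S' hS' => ?_
    rw [mem_powerset] at hS hS'
    by_cases h : pos S N = y ∧ pos S' N = y
    · have : {η : Env | (η, S, S') ∈ {θ : Env × Finset ℕ × Finset ℕ | ¬ RegT N y θ}} = ∅ := by
        ext η
        simp only [Set.mem_ofPred_eq, Set.mem_empty_iff_false, iff_false, not_not]
        exact ⟨hS, hS', h.1, h.2⟩
      rw [this, measure_empty]
    · have e : (fun η : Env => ENNReal.ofReal (gp μ η N y S * gp μ (shr 0 v η) N y S')) = 0 := by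
        funext η
        have : gp μ η N y S * gp μ (shr 0 v η) N y S' = 0 := by
          rcases not_and_or.1 h with h | h
          · rw [gp, if_neg h, zero_mul]
          · rw [gp, gp, if_neg h, mul_zero]
        rw [this, ENNReal.ofReal_zero]
        rfl
      rw [e, withDensity_zero]
      rfl
  rw [this, ENNReal.toReal_zero]

theorem hp0_86 [IsProbabilityMeasure μ] {N : ℕ} {y : ℤ} (h0 : 0 ≤ y) (hN : y ≤ N) (v : ℕ → ℤ) (E : Set (Env × Finset ℕ)) :
    (sp2 μ h0 hN v).pr {θ | (θ.1, θ.2.1) ∈ E} = (sp1 μ N y).pr E := by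
  unfold sp2 sp1
  dsimp only
  congr 1
  exact P2_fst h0 hN v (fun η S => (η, S) ∈ E)

theorem hp1_86 [IsProbabilityMeasure μ] {N : ℕ} {y : ℤ} (h0 : 0 ≤ y) (hN : y ≤ N) (v : ℕ → ℤ) (E : Set (Env × Finset ℕ)) :
    (sp2 μ h0 hN v).pr {θ | (shr 0 v θ.1, θ.2.2) ∈ E} = (sp1 μ N y).pr E := by
  unfold sp2 sp1
  dsimp only
  congr 1
  exact P2_snd h0 hN v (fun η S => (η, S) ∈ E)

theorem hp2_86 [IsProbabilityMeasure μ] {N : ℕ} {y : ℤ} (h0 : 0 ≤ y) (hN : y ≤ N) (v : ℕ → ℤ)
    {ex : Finset ℕ → Finset ℕ → Finset ℕ} (he : ∀ S S', S ⊆ range N → S' ⊆ range N → ex S S' ⊆ range N)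
    (hs : ∀ (η : Env) (y : ℤ) (F : Finset ℕ → ℝ), ∑ S ∈ (range N).powerset, ∑ S' ∈ (range N).powerset,
        gp μ η N y S * gp μ (shr 0 v η) N y S' * F (ex S S') =
          (∑ S' ∈ (range N).powerset, gp μ (shr 0 v η) N y S') * ∑ S ∈ (range N).powerset, gp μ η N y S * F S)
    (E : Set (Env × Finset ℕ)) :
    (sp2 μ h0 hN v).pr {θ | (θ.1, ex θ.2.1 θ.2.2) ∈ E} = (sp1 μ N y).pr E := by
  unfold sp2 sp1
  dsimp only
  congr 1
  exact P2_exch h0 hN v he hs (fun η S => (η, S) ∈ E)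

end

end Pool.Agent.W_7d29a1_Z86
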