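import Mathlib

/-!
STORM Z, helper86: deterministic cluster lemma.

`M` is the finite set of meeting times, blocks have length `t`, the half gaps
around the time `b * t` have length `u`.  A gap is good if there is a meeting in
both halves.  The blocks adjacent to bad gaps are covered by the intervals of blocks
of the brackets (pairs of consecutive meetings at distance more than `u`).
-/

namespace Pool.Agent.W_7d29a1_Z86

open Finset

/-- Sums over a union of intervals are bounded by the sum of the bounds for the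
subintervals of each interval. -/
theorem abs_sum_biUnion_Ico {ι : Type*} [DecidableEq ι] (s : Finset ι) (a b : ι → ℕ)
    (F : ℕ → ℝ) (G : ι → ℝ) (hab : ∀ i ∈ s, a i ≤ b i)
    (h : ∀ i ∈ s, ∀ x y, a i ≤ x → x ≤ y → y ≤ b i → |∑ k ∈ Ico x y, F k| ≤ G i) :
    |∑ k ∈ s.biUnion (fun i => Ico (a i) (b i)), F k| ≤ ∑ i ∈ s, G i := by
  classical
  revert hab h
  refine Finset.induction_on_max_value a s ?_ ?_
  · intro _ _; simp
  · intro i s hi hmax ih hab h
    have ih' := ih (fun j hj => hab j (mem_insert_of_mem hj))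
      (fun j hj => h j (mem_insert_of_mem hj))
    have habi : a i ≤ b i := hab i (mem_insert_self i s)
    -- R = the largest right end of the other intervals
    set R : ℕ := s.sup b with hR
    set c : ℕ := min (max (a i) R) (b i) with hc
    have hdisj : Disjoint (s.biUnion (fun i => Ico (a i) (b i))) (Ico c (b i)) := by
      rw [Finset.disjoint_left]
      intro x hx hx'
      rw [mem_biUnion] at hx
      obtain ⟨j, hj, hxj⟩ := hx
      rw [mem_Ico] at hxj hx'
      have h1 : b j ≤ R := Finset.le_sup (f := b) hj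
      omega
    have hun : (insert i s).biUnion (fun i => Ico (a i) (b i))
        = s.biUnion (fun i => Ico (a i) (b i)) ∪ Ico c (b i) := by
      ext x
      simp only [mem_biUnion, mem_insert, mem_union, mem_Ico]
      constructor
      · rintro ⟨j, hj | hj, hx⟩
        · subst hj
          by_cases hx2 : c ≤ x
          · right; omega
          · left
            have h3 : x < R := by omega
            rw [hR, Finset.lt_sup_iff] at h3
            obtain ⟨j', hj', hlt⟩ := h3
            exact ⟨j', hj', le_trans (hmax j' hj') hx.1, hlt⟩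
        · left; exact ⟨j, hj, hx⟩
      · rintro (⟨j, hj, hx⟩ | hx)
        · exact ⟨j, Or.inr hj, hx⟩
        · exact ⟨i, Or.inl rfl, by omega, hx.2⟩
    rw [hun, sum_union hdisj, sum_insert hi]
    have h4 := h i (mem_insert_self i s) c (b i) (by omega) (by omega) le_rfl
    have h5 := abs_add_le (∑ k ∈ s.biUnion (fun i => Ico (a i) (b i)), F k)
      (∑ k ∈ Ico c (b i), F k)
    linarith

/-- Brackets: pairs of consecutive meeting times with difference more than `u`. -/
def Br (M : Finset ℕ) (u : ℕ) : Finset (ℕ × ℕ) :=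
  (M ×ˢ M).filter (fun p => p.1 + u < p.2 ∧ ∀ j ∈ M, ¬ (p.1 < j ∧ j < p.2))

theorem mem_Br {M : Finset ℕ} {u : ℕ} {p : ℕ × ℕ} :
    p ∈ Br M u ↔ p.1 ∈ M ∧ p.2 ∈ M ∧ p.1 + u < p.2 ∧ ∀ j ∈ M, ¬ (p.1 < j ∧ j < p.2) := by
  unfold Br
  rw [mem_filter, mem_product]
  tauto

/-- Two different brackets are disjoint as time intervals. -/
theorem Br_disjoint {M : Finset ℕ} {u : ℕ} {p q : ℕ × ℕ} (hp : p ∈ Br M u) (hq : q ∈ Br M u)
    (h : p ≠ q) : p.2 ≤ q.1 ∨ q.2 ≤ p.1 := by
  rw [mem_Br] at hp hq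
  obtain ⟨hp1, hp2, hp3, hp4⟩ := hp
  obtain ⟨hq1, hq2, hq3, hq4⟩ := hq
  by_contra hcon
  push Not at hcon
  have h1 := hp4 q.1 hq1
  have h2 := hq4 p.1 hp1
  have h3 := hp4 q.2 hq2
  have h4 := hq4 p.2 hp2
  apply h
  ext <;> omega

/-- An interval of times without meeting lies in a bracket. -/
theorem exists_Br {M : Finset ℕ} {u x y : ℕ} (hxy : x + u ≤ y)
    (h0 : ∃ i ∈ M, i < x) (h1 : ∃ i ∈ M, y < i) (hM : ∀ i ∈ M, ¬ (x ≤ i ∧ i ≤ y)) :
    ∃ p ∈ Br M u, p.1 < x ∧ y < p.2 := by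
  classical
  obtain ⟨i0, hi0, hi0x⟩ := h0
  obtain ⟨i1, hi1, hi1y⟩ := h1
  set A : Finset ℕ := M.filter (fun i => i < x) with hA
  set B : Finset ℕ := M.filter (fun i => y < i) with hB
  have hAne : A.Nonempty := ⟨i0, by rw [hA, mem_filter]; exact ⟨hi0, hi0x⟩⟩
  have hBne : B.Nonempty := ⟨i1, by rw [hB, mem_filter]; exact ⟨hi1, hi1y⟩⟩
  have ha : A.max' hAne ∈ M ∧ A.max' hAne < x := mem_filter.1 (A.max'_mem hAne)
  have hb : B.min' hBne ∈ M ∧ y < B.min' hBne := mem_filter.1 (B.min'_mem hBne)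
  refine ⟨(A.max' hAne, B.min' hBne), ?_, ha.2, hb.2⟩
  rw [mem_Br]
  refine ⟨ha.1, hb.1, ?_, ?_⟩
  · show A.max' hAne + u < B.min' hBne
    have := ha.2; have := hb.2
    omega
  · intro j hj hcon
    have hcon1 : A.max' hAne < j := hcon.1
    have hcon2 : j < B.min' hBne := hcon.2
    by_cases hjx : j < x
    · have : j ≤ A.max' hAne := A.le_max' j (by rw [hA, mem_filter]; exact ⟨hj, hjx⟩)
      omega
    · by_cases hjy : y < j
      · have : B.min' hBne ≤ j := B.min'_le j (by rw [hB, mem_filter]; exact ⟨hj, hjy⟩)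
        omega
      · exact hM j hj ⟨by omega, by omega⟩

/-- The gap around the time `b * t` is good: there is a meeting in both halves. -/
def GoodGap (M : Finset ℕ) (t u b : ℕ) : Prop :=
  (∃ i ∈ M, b * t ≤ i + u ∧ i ≤ b * t) ∧ (∃ i ∈ M, b * t ≤ i ∧ i ≤ b * t + u)

/-- A bad gap lies in a bracket. -/
theorem bad_gap_Br {M : Finset ℕ} {t u b N : ℕ} (hN0 : 0 ∈ M) (hN : N ∈ M)
    (hb0 : u < b * t) (hbN : b * t + u < N) (hbad : ¬ GoodGap M t u b) :
    ∃ p ∈ Br M u, p.1 < b * t ∧ b * t < p.2 := by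
  unfold GoodGap at hbad
  rw [not_and_or] at hbad
  rcases hbad with h | h
  · push Not at h
    obtain ⟨p, hp, h1, h2⟩ := exists_Br (M := M) (u := u) (x := b * t - u) (y := b * t)
      (by omega) ⟨0, hN0, by omega⟩ ⟨N, hN, by omega⟩
      (fun i hi hcon => by have := h i hi (by omega); omega)
    exact ⟨p, hp, by omega, h2⟩
  · push Not at h
    obtain ⟨p, hp, h1, h2⟩ := exists_Br (M := M) (u := u) (x := b * t) (y := b * t + u)
      (by omega) ⟨0, hN0, by omega⟩ ⟨N, hN, by omega⟩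
      (fun i hi hcon => by have := h i hi (by omega); omega)
    exact ⟨p, hp, h1, by omega⟩

/-- The interval of blocks touched by a bracket: blocks `k` with
`p.1 / t ≤ k < p.2 / t + 1`, cut to the window `[k0, k1)`. -/
def Jl (t k0 : ℕ) (p : ℕ × ℕ) : ℕ := max (p.1 / t) k0
/-- Right end of the interval of blocks touched by a bracket. -/
def Jr (t k0 k1 : ℕ) (p : ℕ × ℕ) : ℕ := max (min (p.2 / t + 1) k1) (Jl t k0 p)

/-- The length of the interval of blocks of a bracket. -/
theorem Jlen (t k0 k1 : ℕ) (ht : 0 < t) (p : ℕ × ℕ) (hp : p.1 ≤ p.2) :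
    Jr t k0 k1 p - Jl t k0 p ≤ (p.2 - p.1) / t + 2 := by
  unfold Jr Jl
  have h1 : p.2 / t ≤ p.1 / t + (p.2 - p.1) / t + 1 := by
    have h2 : p.2 = p.1 + (p.2 - p.1) := by omega
    have h3 : p.2 / t < p.1 / t + (p.2 - p.1) / t + 2 := by
      rw [Nat.div_lt_iff_lt_mul ht]
      have h4 := Nat.div_add_mod p.1 t
      have h5 := Nat.div_add_mod (p.2 - p.1) t
      have h6 := Nat.mod_lt p.1 ht
      have h7 := Nat.mod_lt (p.2 - p.1) ht
      have h8 : (p.1 / t + (p.2 - p.1) / t + 2) * t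
        = t * (p.1 / t) + t * ((p.2 - p.1) / t) + 2 * t := by ring
      rw [h8]
      omega
    omega
  generalize (p.2 - p.1) / t = e at *
  generalize p.1 / t = a at *
  generalize p.2 / t = b at *
  omega

theorem goodGap_zero {M : Finset ℕ} {t u : ℕ} (hN0 : 0 ∈ M) : GoodGap M t u 0 :=
  ⟨⟨0, hN0, by omega, by omega⟩, ⟨0, hN0, by omega, by omega⟩⟩

theorem goodGap_end {M : Finset ℕ} {t u b : ℕ} (hN : b * t ∈ M) : GoodGap M t u b :=
  ⟨⟨b * t, hN, by omega, le_rfl⟩, ⟨b * t, hN, le_rfl, by omega⟩⟩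

/-- A bad gap lies in a bracket (form with `t ∣ N`, also at the two ends). -/
theorem bad_gap_Br' {M : Finset ℕ} {t u b N : ℕ} (ht : u < t) (hN0 : 0 ∈ M) (hN : N ∈ M)
    (htN : t ∣ N) (hbN : b * t ≤ N) (hbad : ¬ GoodGap M t u b) :
    ∃ p ∈ Br M u, p.1 < b * t ∧ b * t < p.2 := by
  have hb : b ≠ 0 := by
    intro h; subst h; exact hbad (goodGap_zero hN0)
  have hbN' : b * t ≠ N := by
    intro h; apply hbad; apply goodGap_end; rw [h]; exact hN
  obtain ⟨n, rfl⟩ := htN
  have hbn : b < n := by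
    by_contra hcon
    push Not at hcon
    have h1 : t * n ≤ b * t := by rw [Nat.mul_comm t n]; exact Nat.mul_le_mul_right t hcon
    omega
  have h2 : (b + 1) * t ≤ t * n := by
    rw [Nat.mul_comm t n]; exact Nat.mul_le_mul_right t hbn
  have h3 : 1 * t ≤ b * t := Nat.mul_le_mul_right t (Nat.one_le_iff_ne_zero.2 hb)
  have h4 : (b + 1) * t = b * t + t := by ring
  exact bad_gap_Br hN0 hN (by omega) (by omega) hbad

/-- **Cluster sum.**  If `F'` and `F~` agree on the blocks whose two gaps are good, then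
the difference of their sums over the window `[k0, k1)` is bounded by the sum over the
brackets of the bounds for the subintervals. -/
theorem cluster_sum {M : Finset ℕ} {t u N k0 k1 : ℕ} (ht : u < t) (hN0 : 0 ∈ M) (hN : N ∈ M)
    (htN : t ∣ N) (hk1 : k1 * t ≤ N)
    (F F' : ℕ → ℝ) (G G' : ℕ × ℕ → ℝ)
    (heq : ∀ k, k0 ≤ k → k < k1 → GoodGap M t u k → GoodGap M t u (k + 1) → F' k = F k)
    (hG : ∀ p ∈ Br M u, ∀ x y, Jl t k0 p ≤ x → x ≤ y → y ≤ Jr t k0 k1 p →
      |∑ k ∈ Ico x y, F k| ≤ G p)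
    (hG' : ∀ p ∈ Br M u, ∀ x y, Jl t k0 p ≤ x → x ≤ y → y ≤ Jr t k0 k1 p →
      |∑ k ∈ Ico x y, F' k| ≤ G' p) :
    |∑ k ∈ Ico k0 k1, F' k - ∑ k ∈ Ico k0 k1, F k|
      ≤ ∑ p ∈ (Br M u).filter (fun p => Jl t k0 p < Jr t k0 k1 p), (G p + G' p) := by
  classical
  have htpos : 0 < t := by omega
  set s := (Br M u).filter (fun p => Jl t k0 p < Jr t k0 k1 p) with hs
  set U := s.biUnion (fun p => Ico (Jl t k0 p) (Jr t k0 k1 p)) with hU
  have hsub : U ⊆ Ico k0 k1 := by
    intro k hk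
    rw [hU, mem_biUnion] at hk
    obtain ⟨p, hp, hk⟩ := hk
    rw [mem_Ico] at hk ⊢
    rw [hs, mem_filter] at hp
    unfold Jl Jr at *
    unfold Jl at *
    omega
  have hcov : ∀ k ∈ Ico k0 k1, k ∉ U → F' k = F k := by
    intro k hk hkU
    rw [mem_Ico] at hk
    have hkk : (k + 1) * t = k * t + t := by ring
    have hk1t : (k + 1) * t ≤ k1 * t := Nat.mul_le_mul_right t hk.2
    apply heq k hk.1 hk.2
    · by_contra hbad
      obtain ⟨p, hp, h1, h2⟩ := bad_gap_Br' ht hN0 hN htN (by omega) hbad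
      apply hkU
      rw [hU, mem_biUnion]
      have h3 : p.1 / t ≤ k := by
        have : p.1 / t < k + 1 := by
          rw [Nat.div_lt_iff_lt_mul htpos]; omega
        omega
      have h4 : k ≤ p.2 / t := by
        rw [Nat.le_div_iff_mul_le htpos]; omega
      have h5 : k ∈ Ico (Jl t k0 p) (Jr t k0 k1 p) := by
        rw [mem_Ico]; unfold Jr Jl; omega
      refine ⟨p, ?_, h5⟩
      rw [hs, mem_filter]
      rw [mem_Ico] at h5
      exact ⟨hp, by omega⟩
    · by_contra hbad
      obtain ⟨p, hp, h1, h2⟩ := bad_gap_Br' ht hN0 hN htN (by omega) hbad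
      apply hkU
      rw [hU, mem_biUnion]
      have h3 : p.1 / t ≤ k := by
        have : p.1 / t < k + 1 := by
          rw [Nat.div_lt_iff_lt_mul htpos]; omega
        omega
      have h4 : k ≤ p.2 / t := by
        rw [Nat.le_div_iff_mul_le htpos]; omega
      have h5 : k ∈ Ico (Jl t k0 p) (Jr t k0 k1 p) := by
        rw [mem_Ico]; unfold Jr Jl; omega
      refine ⟨p, ?_, h5⟩
      rw [hs, mem_filter]
      rw [mem_Ico] at h5
      exact ⟨hp, by omega⟩
  have hsplit : ∑ k ∈ Ico k0 k1, F' k - ∑ k ∈ Ico k0 k1, F k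
      = ∑ k ∈ U, F' k - ∑ k ∈ U, F k := by
    rw [← sum_sub_distrib, ← sum_sub_distrib]
    symm
    apply sum_subset hsub
    intro k hk hkU
    rw [hcov k hk hkU]; ring
  rw [hsplit, sum_add_distrib]
  have h1 := abs_sum_biUnion_Ico s (Jl t k0) (Jr t k0 k1) F G
    (fun p hp => by unfold Jr; omega)
    (fun p hp => hG p (mem_filter.1 hp).1)
  have h2 := abs_sum_biUnion_Ico s (Jl t k0) (Jr t k0 k1) F' G'
    (fun p hp => by unfold Jr; omega)
    (fun p hp => hG' p (mem_filter.1 hp).1)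
  have h3 := abs_sub (∑ k ∈ U, F' k) (∑ k ∈ U, F k)
  linarith

/-- **Cluster sum, general form.**  `s` = the brackets, `Ico (lo p) (hi p)` = the zones touched
by the bracket `p`.  Every zone `k` of the window with `F' k ≠ F k` is touched by a bracket. -/
theorem cluster_sum_gen {ι : Type*} [DecidableEq ι] (s : Finset ι) (lo hi : ι → ℕ)
    {k0 k1 : ℕ} (F F' : ℕ → ℝ) (G G' : ι → ℝ)
    (hcov : ∀ k, k0 ≤ k → k < k1 → F' k ≠ F k → ∃ p ∈ s, lo p ≤ k ∧ k < hi p)
    (hG : ∀ p ∈ s, ∀ x y, max (lo p) k0 ≤ x → x ≤ y → y ≤ min (hi p) k1 →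
      |∑ k ∈ Ico x y, F k| ≤ G p)
    (hG' : ∀ p ∈ s, ∀ x y, max (lo p) k0 ≤ x → x ≤ y → y ≤ min (hi p) k1 →
      |∑ k ∈ Ico x y, F' k| ≤ G' p) :
    |∑ k ∈ Ico k0 k1, F' k - ∑ k ∈ Ico k0 k1, F k|
      ≤ ∑ p ∈ s.filter (fun p => max (lo p) k0 < min (hi p) k1), (G p + G' p) := by
  classical
  set s' := s.filter (fun p => max (lo p) k0 < min (hi p) k1) with hs
  set U := s'.biUnion (fun p => Ico (max (lo p) k0) (min (hi p) k1)) with hU
  have hsub : U ⊆ Ico k0 k1 := by
    intro k hk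
    rw [hU, mem_biUnion] at hk
    obtain ⟨p, hp, hk⟩ := hk
    rw [mem_Ico] at hk ⊢
    omega
  have hcov' : ∀ k ∈ Ico k0 k1, k ∉ U → F' k = F k := by
    intro k hk hkU
    rw [mem_Ico] at hk
    by_contra hne
    obtain ⟨p, hp, h1, h2⟩ := hcov k hk.1 hk.2 hne
    apply hkU
    rw [hU, mem_biUnion]
    refine ⟨p, ?_, ?_⟩
    · rw [hs, mem_filter]; exact ⟨hp, by omega⟩
    · rw [mem_Ico]; omega
  have hsplit : ∑ k ∈ Ico k0 k1, F' k - ∑ k ∈ Ico k0 k1, F k
      = ∑ k ∈ U, F' k - ∑ k ∈ U, F k := by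
    rw [← sum_sub_distrib, ← sum_sub_distrib]
    symm
    apply sum_subset hsub
    intro k hk hkU
    rw [hcov' k hk hkU]; ring
  rw [hsplit, sum_add_distrib]
  have h1 := abs_sum_biUnion_Ico s' (fun p => max (lo p) k0) (fun p => min (hi p) k1) F G
    (fun p hp => (mem_filter.1 hp).2.le)
    (fun p hp => hG p (mem_filter.1 hp).1)
  have h2 := abs_sum_biUnion_Ico s' (fun p => max (lo p) k0) (fun p => min (hi p) k1) F' G'
    (fun p hp => (mem_filter.1 hp).2.le)
    (fun p hp => hG' p (mem_filter.1 hp).1)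
  have h3 := abs_sub (∑ k ∈ U, F' k) (∑ k ∈ U, F k)
  linarith

/-- A half junction `[x, y]` without meeting, `x + u ≤ y`, between the end points of the system,
lies in a bracket. -/
theorem half_Br {M : Finset ℕ} {u x y N : ℕ} (hxy : x + u ≤ y) (hN0 : 0 ∈ M) (hN : N ∈ M)
    (hx : 0 < x) (hy : y < N) (h : ¬ ∃ i ∈ M, x ≤ i ∧ i ≤ y) :
    ∃ p ∈ Br M u, p.1 < x ∧ y < p.2 := by
  push Not at h
  exact exists_Br hxy ⟨0, hN0, hx⟩ ⟨N, hN, hy⟩ (fun i hi hcon => by
    have := h i hi hcon.1; omega)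

/-- Zones touched by a bracket in the geometry with period `P`, first zone at `τ0`: the zones
`k` with `lo ≤ k < hi + 2`, `lo = (p.1 - τ0) / P`, `hi = (p.2 - τ0) / P`. -/
theorem zones_len (τ0 P : ℕ) (hP : 0 < P) (p : ℕ × ℕ) (hp : p.1 ≤ p.2) :
    ((p.2 - τ0) / P + 2) - (p.1 - τ0) / P ≤ (p.2 - p.1) / P + 3 := by
  have h1 : (p.2 - τ0) / P ≤ (p.1 - τ0) / P + (p.2 - p.1) / P + 1 := by
    have h3 : (p.2 - τ0) / P < (p.1 - τ0) / P + (p.2 - p.1) / P + 2 := by
      rw [Nat.div_lt_iff_lt_mul hP]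
      have h4 := Nat.div_add_mod (p.1 - τ0) P
      have h5 := Nat.div_add_mod (p.2 - p.1) P
      have h6 := Nat.mod_lt (p.1 - τ0) hP
      have h7 := Nat.mod_lt (p.2 - p.1) hP
      have h8 : ((p.1 - τ0) / P + (p.2 - p.1) / P + 2) * P
        = P * ((p.1 - τ0) / P) + P * ((p.2 - p.1) / P) + 2 * P := by ring
      rw [h8]
      omega
    omega
  generalize (p.2 - p.1) / P = e at *
  generalize (p.1 - τ0) / P = a at *
  generalize (p.2 - τ0) / P = b at *
  omega

/-- A bracket containing a time interval `[x, y]` of the period of the zone `k`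
(`τ0 + k P ≤ y` and `x ≤ τ0 + (k + 1) P`) touches the zones `k` and `k + 1`. -/
theorem zone_touch (τ0 P k x y : ℕ) (hP : 0 < P) (p : ℕ × ℕ) (h1 : p.1 < x) (h2 : y < p.2)
    (hx : x ≤ τ0 + (k + 1) * P) (hy : τ0 + k * P ≤ y) :
    (p.1 - τ0) / P ≤ k ∧ k + 1 < (p.2 - τ0) / P + 2 := by
  constructor
  · have : (p.1 - τ0) / P < k + 1 := by
      rw [Nat.div_lt_iff_lt_mul hP]
      have : 0 < (k + 1) * P := by positivity
      omega
    omega
  · have : k ≤ (p.2 - τ0) / P := by
      rw [Nat.le_div_iff_mul_le hP]; omega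
    omega

/-- Sum over classes: if the class `j` of `s` has at most `Nn j` elements and `G p` is at most
`g (c p)`, then the sum is at most `Σ_j Nn j * g j`. -/
theorem sum_class_le {ι : Type*} (s : Finset ι) (c : ι → ℕ) (J : ℕ) (Nn : ℕ → ℝ)
    (g : ℕ → ℝ) (G : ι → ℝ) (hc : ∀ p ∈ s, c p < J) (hg : ∀ j < J, 0 ≤ g j)
    (hN : ∀ j < J, ((s.filter (fun p => c p = j)).card : ℝ) ≤ Nn j)
    (hG : ∀ p ∈ s, G p ≤ g (c p)) :
    ∑ p ∈ s, G p ≤ ∑ j ∈ range J, Nn j * g j := by
  classical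
  have h1 : ∑ p ∈ s, G p = ∑ j ∈ range J, ∑ p ∈ s.filter (fun p => c p = j), G p :=
    (sum_fiberwise_of_maps_to (fun p hp => mem_range.2 (hc p hp)) G).symm
  rw [h1]
  apply sum_le_sum
  intro j hj
  rw [mem_range] at hj
  calc ∑ p ∈ s.filter (fun p => c p = j), G p
      ≤ ∑ _p ∈ s.filter (fun p => c p = j), g j := by
        apply sum_le_sum
        intro p hp
        rw [mem_filter] at hp
        rw [← hp.2]
        exact hG p hp.1
    _ = ((s.filter (fun p => c p = j)).card : ℝ) * g j := by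
        rw [sum_const, nsmul_eq_mul]
    _ ≤ Nn j * g j := mul_le_mul_of_nonneg_right (hN j hj) (hg j hj)

/-- The number of brackets of duration at least `τ` touching the window of blocks
`[k0, k1)` is at most `((k1 - k0) * t + 2) / τ + 2` (they are disjoint): crude count. -/
theorem card_Br_le {M : Finset ℕ} {u : ℕ} (s : Finset (ℕ × ℕ)) (hs : s ⊆ Br M u)
    {τ A B : ℕ} (hτ : 0 < τ) (hAB : A ≤ B) (hlen : ∀ p ∈ s, p.1 + τ ≤ p.2)
    (htouch : ∀ p ∈ s, A ≤ p.2 ∧ p.1 ≤ B) : s.card ≤ (B - A) / τ + 2 := by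
  classical
  -- the left ends are `τ`-separated; map a bracket to `(p.2 - A) / τ`
  have hinj : Set.InjOn (fun p : ℕ × ℕ => (p.2 - A) / τ) s := by
    intro p hp q hq h
    by_contra hne
    have hd := Br_disjoint (hs hp) (hs hq) hne
    have hp1 := hlen p hp
    have hq1 := hlen q hq
    have hp2 := htouch p hp
    have hq2 := htouch q hq
    have h' : (p.2 - A) / τ = (q.2 - A) / τ := h
    rcases hd with hd | hd
    · have h3 : (p.2 - A) / τ + 1 ≤ (q.2 - A) / τ := by
        rw [← Nat.add_div_right _ hτ]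
        apply Nat.div_le_div_right
        omega
      omega
    · have h3 : (q.2 - A) / τ + 1 ≤ (p.2 - A) / τ := by
        rw [← Nat.add_div_right _ hτ]
        apply Nat.div_le_div_right
        omega
      omega
  -- all but one of the right ends lie in `[A, B]`
  by_cases hbig : ∃ q ∈ s, B < q.2
  · obtain ⟨q, hq, hqB⟩ := hbig
    have hcard : (s.erase q).card ≤ (range ((B - A) / τ + 1)).card := by
      apply card_le_card_of_injOn (fun p : ℕ × ℕ => (p.2 - A) / τ)
      · intro p hp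
        rw [coe_erase] at hp
        have hps : p ∈ s := hp.1
        have hne : p ≠ q := fun h => hp.2 (by simp [h])
        rw [coe_range, Set.mem_Iio]
        have hd := Br_disjoint (hs hps) (hs hq) hne
        have hp2 := htouch p hps
        have hq2 := htouch q hq
        have hp1 := hlen p hps
        have h5 : p.2 ≤ B := by
          rcases hd with hd | hd
          · omega
          · omega
        have h6 : (p.2 - A) / τ ≤ (B - A) / τ := Nat.div_le_div_right (by omega)
        show (p.2 - A) / τ < (B - A) / τ + 1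
        omega
      · exact hinj.mono (by intro p hp; exact mem_of_mem_erase hp)
    rw [card_range] at hcard
    have h7 := card_erase_add_one hq
    omega
  · push Not at hbig
    have hcard : s.card ≤ (range ((B - A) / τ + 1)).card := by
      apply card_le_card_of_injOn (fun p : ℕ × ℕ => (p.2 - A) / τ)
      · intro p hp
        rw [coe_range, Set.mem_Iio]
        have h5 := hbig p hp
        have h6 : (p.2 - A) / τ ≤ (B - A) / τ := Nat.div_le_div_right (by omega)
        show (p.2 - A) / τ < (B - A) / τ + 1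
        omega
      · exact hinj
    rw [card_range] at hcard
    omega

end Pool.Agent.W_7d29a1_Z86
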