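import Pool.Agent.W_7d29a1_Z86.ProdOf
import Pool.Agent.W_7d29a1_Z10.OkA
import Pool.Agent.W_7d29a1_Z57.FinE57

/-!
STORM Z, second storey, helper86: from price and production of the near ties at the rate `1 / E` (`PriceX μ (qE μ)`) to `OkayQ` and to
the end of the second storey.
-/

namespace Pool.Agent.W_7d29a1_Z86.GX

open MeasureTheory ProbabilityTheory Filter Topology Finset
open Pool.Agent.W_7d29a1_F Pool.Agent.W_7d29a1_X Pool.Agent.W_7d29a1_G
open Pool.Agent.W_7d29a1_SR (In wd)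
open Pool.Agent.W_7d29a1_Z
open Pool.Agent.W_7d29a1_Z.StpK (OkayQ)
open Pool.Agent.W_7d29a1_Z57 (BaseE secondE_ev)
open scoped ENNReal

variable {μ : Measure ℝ} [IsProbabilityMeasure μ] {c C : ℝ} {n₀ : ℕ}

/-- All the kernels of the next scale are okay, at the rate `q` of the near ties `NX`. -/
theorem okayX (h : In μ c C n₀) (hF : HF2 μ) {q : ℕ → ℝ} {K : ℝ} (hq : QOK q K) (hP : PriceX μ q) : OkayQ μ q :=
  Pool.Agent.W_7d29a1_Z10.okayQ_of h hF (fun n hn => (hq.pos n hn).le) (fun ε hε => ns h hF ε hε) (innS_of h hF hq hP)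

/-- The rate `1 / E`. -/
theorem okayE (h : In μ c C n₀) (hF : HF2 μ) (hP : PriceX μ (qE μ)) : OkayQ μ fun t => (EE' μ t)⁻¹ := by
  obtain ⟨K, _, hQ⟩ := QOK_qE h
  exact okayX h hF hQ hP

/-- The end of the second storey from its two inputs. -/
theorem secondX (h : In μ c C n₀) (hF : HF2 μ) (hP : PriceX μ (qE μ)) (hB : BaseE μ) :
    ∃ c' : ℝ, 0 < c' ∧ ∀ᶠ n : ℕ in atTop, (n : ℝ) ^ (1 / 2 + c') ≤ wd μ n ∧
      (n : ℝ) ^ (1 / 2 + c') * EE μ n ≤ wd μ n ^ (3 / 2 : ℝ) :=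
  secondE_ev h hF (okayE h hF hP) hB

end Pool.Agent.W_7d29a1_Z86.GX
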