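import Pool.Agent.W_7d29a1_Z.OneD
import Pool.Agent.W_7d29a1_Z86.GenX

/-!
STORM Z, helper86: the deterministic part of one step (helper72's Z/OneD) with the near tie as a PARAMETER. The production of the
near tie from a bad junction of a cluster is the hypothesis `NJ`; for the plain near tie it is `R72.nt_junction` (`nj_of_badS`).
-/

namespace Pool.Agent.W_7d29a1_Z86.GX

open MeasureTheory ProbabilityTheory Filter Topology Finset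
open Pool.Agent.W_7d29a1_F Pool.Agent.W_7d29a1_X Pool.Agent.W_7d29a1_G
open Pool.Agent.W_7d29a1_Z Pool.Agent.W_7d29a1_Z.R72 Pool.Agent.W_7d29a1_Z.Asm72
open Pool.Agent.W_7d29a1_Z86
open _root_.W_7d29a1_Z.CtrOp77 (D)
open scoped ENNReal

variable {μ : Measure ℝ}

/-- **Production of near ties**: every bad junction of a cluster gives a window of the list of the junction which is nearly tied
(relation `NX`) for the pair (sheared environment, `S'`). -/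
def NJ (μ : Measure ℝ) (NX : NRel) (N t τ k₀ k₁ s e0 E : ℕ) (n1 : ℕ → ℕ) (I : Finset ℕ) (A h lm : ℝ) (V : ℕ → ℤ)
    (θ : Env × Finset ℕ × Finset ℕ) : Prop :=
  ∀ p ∈ Runs (BadJ t τ k₀ k₁ (pat t τ I V) θ.2.1 θ.2.2) k₀ k₁, ∀ b : ℕ, p.1 ≤ b → b ≤ p.2 →
    BadJ t τ k₀ k₁ (pat t τ I V) θ.2.1 θ.2.2 b → ∀ Del : ℝ,
    |Xs s (Ico p.1 p.2) (phi μ t τ I (θ.1, θ.2.1))| ≤ Del →
    |Xs s (Ico p.1 p.2) (phi μ t τ I (shr 0 (pat t τ I V) θ.1, θ.2.2))| ≤ Del →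
    ∃ a b' : ℕ, (za t τ p.1 ≤ a ∨ p.1 = k₀) ∧ (b' ≤ zb t τ (p.2 - 1) ∨ p.2 = k₁) ∧ b' ≤ N ∧
      ∃ W ∈ Wd N t τ k₀ n1 e0 E b, (∀ i ∈ W.2.2, a < i ∧ i < b') ∧ ∀ H M, b' ≤ a + H →
        2 * (Del / 4 + h * √((p.2 - p.1 : ℕ) : ℝ) * (s * A) + 6 * (s * A)) + 3 * lm ≤ M →
        NX W H M (shr 0 (pat t τ I V) θ.1) θ.2.2

/-- The plain near tie. -/
theorem nj_of_badS {L N t τ B k₀ k₁ K s e0 E : ℕ} {n1 : ℕ → ℕ} {I : Finset ℕ} {V : ℕ → ℤ} {w A h lm : ℝ} {y : ℤ}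
    {θ : Env × Finset ℕ × Finset ℕ} (ht : 16 ≤ t) (hI : I ⊆ Core t) (hk : k₀ < k₁) (hk1 : k₁ ≤ B) (hkN : za t τ k₁ ≤ N)
    (hV : VOK t τ N k₀ k₁ s I V) (hs : s ≤ K) (hA : 0 ≤ A) (hw : 4 * w + 8 * (s * I.card) ≤ t)
    (hn1 : ∀ e, e0 ≤ e → e ≤ E → 1 ≤ n1 e) (hD : 64 * (s * I.card) ≤ 2 ^ e0)
    (hθ : θ ∉ BadS μ L N y t τ B k₀ k₁ K s e0 E n1 I w A h lm V) :
    NJ μ (fun W H M => Pool.Agent.W_7d29a1_Z49.NTp μ N H M W) N t τ k₀ k₁ s e0 E n1 I A h lm V θ :=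
  fun _ hp _ hb1 hb2 hb _ hD1 hD2 => nt_junction ht hI hk hk1 hkN hV hs hA hw hn1 hD hθ hp hb1 hb2 hb hD1 hD2

/-- **Field `hcl`.** -/
theorem hcl72X {NX : NRel} {L N t τ B k₀ k₁ K s e0 E M j : ℕ} {n1 : ℕ → ℕ} {I : Finset ℕ} {V : ℕ → ℤ} {w A h lm G : ℝ} {y : ℤ}
    {θ : Env × Finset ℕ × Finset ℕ} (ht : 16 ≤ t) (hs1 : 1 ≤ s) (hA : 1 ≤ A) (hG : 0 ≤ G) (hh : 0 ≤ h) (hlm : 0 ≤ lm)
    (hθ : θ ∉ BadS μ L N y t τ B k₀ k₁ K s e0 E n1 I w A h lm V)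
    (hJ : NJ μ NX N t τ k₀ k₁ s e0 E n1 I A h lm V θ)
    (hg0 : ∀ q ∈ Iv k₀ k₁ M, |Xs s (Ico q.1 q.2) (phi μ t τ I (θ.1, θ.2.1))| ≤
      G * √((q.2 - q.1 : ℕ) : ℝ) * (s * A))
    (hg1 : ∀ q ∈ Iv k₀ k₁ M, |Xs s (Ico q.1 q.2) (phi μ t τ I (shr 0 (pat t τ I V) θ.1, θ.2.2))| ≤
      G * √((q.2 - q.1 : ℕ) : ℝ) * (s * A))
    (hno : ∀ p ∈ Bf N y t τ k₀ k₁ (pat t τ I V) θ, p.2 - p.1 ≤ M) :
    (((Bf N y t τ k₀ k₁ (pat t τ I V) θ).filter fun p => 2 ^ j ≤ p.2 - p.1 ∧ p.2 - p.1 < 2 ^ (j + 1)).card : ℝ) ≤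
      1 * (Set.ncard {u | u < (k₁ - k₀) / st j + 1 ∧ (shr 0 (pat t τ I V) θ.1, θ.2.2) ∈
        NTbX NX N t τ k₀ n1 e0 E (2 * t * (2 ^ (j + 1) + 1)) (2 * t * (2 ^ (j + 1) + 1))
          (√((2 : ℝ) ^ j) * ((G + 3 * h + 12 + 3 * lm) * (s * A))) (k₀ + u * st j)} : ℝ) + 2 := by
  have hreg : RegT N y θ := by
    by_contra hcon
    exact hθ (Or.inl hcon)
  rw [Pool.Agent.W_7d29a1_Z86.Bf_of_reg hreg] at hno ⊢
  rw [one_mul]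
  have key := Pool.Agent.W_7d29a1_Z86.runs_count2 (bad := BadJ t τ k₀ k₁ (pat t τ I V) θ.2.1 θ.2.2) (k0 := k₀) (k1 := k₁)
    (j := j) (fun b => (shr 0 (pat t τ I V) θ.1, θ.2.2) ∈
        NTbX NX N t τ k₀ n1 e0 E (2 * t * (2 ^ (j + 1) + 1)) (2 * t * (2 ^ (j + 1) + 1))
          (√((2 : ℝ) ^ j) * ((G + 3 * h + 12 + 3 * lm) * (s * A))) b) ?_
  · exact_mod_cast key
  intro p hp h1 h2 h3 h4 b hb1 hb2 hb
  have hpm := Pool.Agent.W_7d29a1_Z86.mem_Runs.1 hp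
  obtain ⟨p1, p2, p3, -, -, -, -⟩ := hpm
  have hq : p ∈ Iv k₀ k₁ M := mem_Iv.2 ⟨⟨p1, p3, p2⟩, hno p hp⟩
  obtain ⟨a, b', ha, hb', hb'N, W, hW, hab, hNT⟩ := hJ p hp b hb1.le
    hb2.le hb _ (hg0 p hq) (hg1 p hq)
  have ha' : za t τ p.1 ≤ a := ha.resolve_right (by omega)
  have hb'' : b' ≤ zb t τ (p.2 - 1) := hb'.resolve_right (by omega)
  -- the lengths
  have e1 : zb t τ (p.2 - 1) ≤ za t τ p.1 + 2 * t * 2 ^ (j + 1) := by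
    have h5 : p.2 - 1 ≤ p.1 + (2 ^ (j + 1) - 1) := by omega
    have h6 := Nat.mul_le_mul_left (2 * t) h5
    have h7 : 1 ≤ 2 ^ (j + 1) := Nat.one_le_two_pow
    have h8 : 2 * t * (p.1 + (2 ^ (j + 1) - 1)) + 2 * t = 2 * t * p.1 + 2 * t * 2 ^ (j + 1) := by
      rw [← Nat.mul_succ, ← Nat.mul_add]
      congr 1
      omega
    rw [zb_eq]
    unfold za
    omega
  have e2 : za t τ p.1 ≤ za t τ b := za_mono' hb1.le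
  have e3 : za t τ b ≤ za t τ p.1 + 2 * t * 2 ^ (j + 1) := by
    have h5 : b ≤ p.1 + 2 ^ (j + 1) := by omega
    have h6 := Nat.mul_le_mul_left (2 * t) h5
    rw [Nat.mul_add] at h6
    unfold za
    omega
  have e4 : 2 * t * (2 ^ (j + 1) + 1) = 2 * t * 2 ^ (j + 1) + 2 * t := by ring
  refine ⟨W, hW, fun i hi => ?_, hNT _ _ ?_ ?_⟩
  · have := hab i hi
    rw [e4]
    omega
  · rw [e4]
    omega
  · -- the depth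
    have ha1 : 1 ≤ (s : ℝ) * A := by
      have : (1 : ℝ) ≤ s := by exact_mod_cast hs1
      nlinarith
    set a₀ := (s : ℝ) * A with ha₀
    have hr : 1 ≤ √((2 : ℝ) ^ j) := Real.one_le_sqrt.2 (one_le_pow₀ (by norm_num))
    set r := √((2 : ℝ) ^ j) with hrd
    have hs2 : √2 ≤ (3 / 2 : ℝ) := by
      rw [Real.sqrt_le_left (by norm_num)]
      norm_num
    have h5 : √((p.2 - p.1 : ℕ) : ℝ) ≤ 3 / 2 * r := by
      have h6 : ((p.2 - p.1 : ℕ) : ℝ) ≤ 2 * 2 ^ j := by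
        have : ((p.2 - p.1 : ℕ) : ℝ) ≤ ((2 ^ (j + 1) : ℕ) : ℝ) := by exact_mod_cast h4.le
        push_cast at this ⊢
        rw [pow_succ] at this
        linarith
      calc √((p.2 - p.1 : ℕ) : ℝ) ≤ √(2 * 2 ^ j) := Real.sqrt_le_sqrt h6
        _ = √2 * r := Real.sqrt_mul (by norm_num) _
        _ ≤ 3 / 2 * r := mul_le_mul_of_nonneg_right hs2 (by linarith)
    have h6 : 0 ≤ √((p.2 - p.1 : ℕ) : ℝ) := Real.sqrt_nonneg _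
    set d := √((p.2 - p.1 : ℕ) : ℝ) with hd
    have h7 : G * d * a₀ ≤ G * (3 / 2 * r) * a₀ := by gcongr
    have h8 : h * d * a₀ ≤ h * (3 / 2 * r) * a₀ := by gcongr
    have h9 : a₀ ≤ r * a₀ := by nlinarith
    have h10 : lm ≤ r * lm * a₀ := by
      have : lm ≤ r * lm := by nlinarith
      have : r * lm ≤ r * lm * a₀ := by
        have : 0 ≤ r * lm := by positivity
        nlinarith
      linarith
    have h11 : 0 ≤ G * r * a₀ := by positivity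
    have h12 : 0 ≤ h * r * a₀ := by positivity
    nlinarith

/-- **Field `hlong`.** -/
theorem hlong72X {NX : NRel} {L N t τ B k₀ k₁ K s e0 E : ℕ} {n1 : ℕ → ℕ} {I : Finset ℕ} {V : ℕ → ℤ} {w A h lm G s₀ : ℝ} {y : ℤ}
    {θ : Env × Finset ℕ × Finset ℕ} (ht : 16 ≤ t) (hk : k₀ < k₁) (hk1 : k₁ ≤ B) (hkN : za t τ k₁ ≤ N) (hs : s ≤ K) (hs1 : 1 ≤ s) (hA : 1 ≤ A)
    (hG : 0 ≤ G) (hh : 0 ≤ h) (hlm : 0 ≤ lm)
    (hs₀ : 1 ≤ s₀) (hθ : θ ∉ BadS μ L N y t τ B k₀ k₁ K s e0 E n1 I w A h lm V)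
    (hJ : NJ μ NX N t τ k₀ k₁ s e0 E n1 I A h lm V θ)
    (hg0 : ∀ q ∈ Iv k₀ k₁ ⌊((k₁ - k₀ : ℕ) : ℝ) / s₀⌋₊, |Xs s (Ico q.1 q.2) (phi μ t τ I (θ.1, θ.2.1))| ≤
      G * √((q.2 - q.1 : ℕ) : ℝ) * (s * A))
    (hg1 : ∀ q ∈ Iv k₀ k₁ ⌊((k₁ - k₀ : ℕ) : ℝ) / s₀⌋₊, |Xs s (Ico q.1 q.2) (phi μ t τ I (shr 0 (pat t τ I V) θ.1, θ.2.2))| ≤
      G * √((q.2 - q.1 : ℕ) : ℝ) * (s * A))
    (hp : ∃ p ∈ Bf N y t τ k₀ k₁ (pat t τ I V) θ, ⌊((k₁ - k₀ : ℕ) : ℝ) / s₀⌋₊ < p.2 - p.1) :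
    ∃ i ∈ range ((k₁ - k₀) / max 1 ⌊((k₁ - k₀ : ℕ) : ℝ) / s₀⌋₊ + 1), (shr 0 (pat t τ I V) θ.1, θ.2.2) ∈
      NTbX NX N t τ k₀ n1 e0 E N N (√((k₁ - k₀ : ℕ) : ℝ) * ((2 * (G + 2) * √s₀ + 2 * h + 12 + 3 * lm) * (s * A)))
        (k₀ + i * max 1 ⌊((k₁ - k₀ : ℕ) : ℝ) / s₀⌋₊) := by
  obtain ⟨c1, c2, c3, c4, c5, c6, c7, c8, c9⟩ := badS_not hθ
  set m : ℝ := ((k₁ - k₀ : ℕ) : ℝ) with hm
  set M : ℕ := ⌊m / s₀⌋₊ with hM
  obtain ⟨p, hp, hMp⟩ := hp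
  rw [Pool.Agent.W_7d29a1_Z86.Bf_of_reg c1] at hp
  obtain ⟨i, hi, hb1, hb2, hb⟩ := long_place hp hMp
  have hpm := Pool.Agent.W_7d29a1_Z86.mem_Runs.1 hp
  obtain ⟨p1, p2, p3, -, -, -, -⟩ := hpm
  have hA0 : 0 ≤ A := by linarith
  have hsA : 0 ≤ (s : ℝ) * A := by positivity
  -- single zones
  have hz : ∀ (η : Env) (S : Finset ℕ), RA μ L t τ B I w A K η → Tame L N t w (pos S) → ∀ b, k₀ ≤ b → b < k₁ →
      |Db μ t τ I s η b 0 (pos S)| ≤ 2 * ((s : ℝ) * A) := by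
    intro η S hR hT b hb1 hb2
    have hzN : zb t τ b ≤ N := by
      have h3 := za_lt (t := t) (τ := τ) (show b < b + 1 by omega)
      have h4 : za t τ (b + 1) ≤ za t τ k₁ := za_mono' (by omega)
      have h5 : za t τ (b + 1) = za t τ b + 2 * t := by unfold za; ring
      rw [zb_eq]
      omega
    have h2 := hT.cone (τ := τ) (pce_full t) hzN
    have h3 := (ra_Db hR (b := b) (s := (s : ℤ)) (a := 0) (by omega) (by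
      rw [abs_zero, zero_add, Nat.abs_cast]
      exact_mod_cast hs) (X := pos S) (by simpa using h2.1) (by
      have e := h2.2
      rw [zb_eq]
      simpa using e)).1
    rw [Int.cast_natCast, Nat.abs_cast] at h3
    linarith
  have hDel0 := del_long (fun b => Db μ t τ I s θ.1 b 0 (pos θ.2.1)) hk hG hsA hs₀
    (fun x z hx hxz hz' hzx => hg0 (x, z) (mem_Iv.2 ⟨⟨hx, hxz, hz'⟩, hzx⟩)) (hz θ.1 θ.2.1 c2 c4.1) p1 p3.le p2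
  have hDel1 := del_long (fun b => Db μ t τ I s (shr 0 (pat t τ I V) θ.1) b 0 (pos θ.2.2)) hk hG hsA hs₀
    (fun x z hx hxz hz' hzx => hg1 (x, z) (mem_Iv.2 ⟨⟨hx, hxz, hz'⟩, hzx⟩)) (hz _ θ.2.2 c3 c5.1) p1 p3.le p2
  obtain ⟨a, b', -, -, hb'N, W, hW, hab, hNT⟩ := hJ p hp _ hb1 hb2 hb _
    hDel0 hDel1
  refine ⟨i, mem_range.2 hi, W, hW, fun j hj => ?_, hNT _ _ (by omega) ?_⟩
  · have h3 := hab j hj
    have h4 : za t τ (k₀ + i * max 1 M) ≤ za t τ k₁ := za_mono' (hb2.trans p2)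
    omega
  · have ha1 : 1 ≤ (s : ℝ) * A := by
      have : (1 : ℝ) ≤ s := by exact_mod_cast hs1
      nlinarith
    have hm1 : 1 ≤ m := by
      rw [hm]
      exact_mod_cast (by omega : 1 ≤ k₁ - k₀)
    have hr : 1 ≤ √m := Real.one_le_sqrt.2 hm1
    have hpm : √((p.2 - p.1 : ℕ) : ℝ) ≤ √m := by
      refine Real.sqrt_le_sqrt ?_
      rw [hm]
      exact_mod_cast (by omega : p.2 - p.1 ≤ k₁ - k₀)
    set a₀ := (s : ℝ) * A with ha₀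
    rw [← hm]
    have h8 : h * √((p.2 - p.1 : ℕ) : ℝ) * a₀ ≤ h * √m * a₀ := by gcongr
    have h9 : a₀ ≤ √m * a₀ := by nlinarith
    have h10 : lm ≤ √m * lm * a₀ := by
      have h11 : lm ≤ √m * lm := by nlinarith
      have : 0 ≤ √m * lm := by positivity
      nlinarith
    have h11 : 0 ≤ (G + 2) * √s₀ * √m * a₀ := by positivity
    nlinarith

/-- Absorption (helper93's `dlx93a`) with the near tie as a parameter. -/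
theorem dlx93X [IsProbabilityMeasure μ] {NX : NRel} {N : ℕ} {y : ℤ} {t τ k₀ k₁ : ℕ} (ht : 1 ≤ t) {n1 : ℕ → ℕ}
    {e0 E : ℕ} {r p : ℝ} (hr : 0 ≤ r) (hp : 0 ≤ p) (hT : TieInX μ NX N y t τ k₀ n1 e0 E r p) {b X : ℕ}
    (hX : (Wd N t τ k₀ n1 e0 E b).card ≤ X) (H Hd : ℕ) {M : ℝ} (hM : 1 ≤ M) {I : Finset ℕ} {s : ℤ} {A dl : ℝ} (hA : 0 ≤ A)
    (hdl : 0 ≤ dl) (hG : P1 μ N y (fun η S => ¬ ∀ k, k₀ ≤ k → k < k₁ → |Db μ t τ I s η k 0 (pos S)| ≤ 2 * A) ≤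
      ENNReal.ofReal dl) (x : ℝ) :
    (sp1 μ N y).pr ({q | x < |Xs s (Ico k₀ k₁) (phi μ t τ I q)|} ∩ NTbX NX N t τ k₀ n1 e0 E H Hd M b) ≤
      X * (r * M) * (sp1 μ N y).pr {q | x - 8 * A < |Xs s (Ico k₀ k₁) (phi μ t τ I q)|} +
        (X * (r * M) * dl + dl + X * p) := by
  have hρ : 0 ≤ (X : ℝ) * (r * M) := by positivity
  have e : x - 8 * A = x - 2 * (4 * A) := by ring
  rw [e]
  refine Num72.dlx72 (sp1 μ N y) (fun q => Xs s (Ico k₀ k₁) (phi μ t τ I q)) (Xw μ t τ I s k₀ k₁ b)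
    (NTbX NX N t τ k₀ n1 e0 E H Hd M b) hρ (fun z => ?_) ?_ x
  · exact ntb_tieX hr hp hT hX H Hd hM (xw_ms I s z) fun w hw _ => xw_off ht hw I s z
  · refine ((sp1 μ N y).mono (F := {q | ¬ ∀ k, k₀ ≤ k → k < k₁ → |Db μ t τ I s q.1 k 0 (pos q.2)| ≤ 2 * A})
      fun q hq => ?_).trans ?_
    · rw [Set.mem_ofPred_eq] at hq ⊢
      intro hcon
      have := xw_diff (b := b) hA hcon
      linarith
    · exact ENNReal.toReal_le_of_le_ofReal hdl hG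

end Pool.Agent.W_7d29a1_Z86.GX
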