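import Mathlib

/-!
STORM Z, helper86: Gibbs measures on `E × ι` (environment and a finite index, e.g. a path or a
pair of paths).  `gm m Ω w` has the density `w η i` on `E × {i}`, `i ∈ Ω`.
-/

namespace Pool.Agent.W_7d29a1_Z86

open MeasureTheory Finset

noncomputable section

variable {E ι κ : Type*} [MeasurableSpace E] [MeasurableSpace ι] [MeasurableSpace κ]

/-- The measure on `E × ι` with the density `w η i` on `E × {i}`, `i ∈ Ω`. -/
def gm (m : Measure E) (Ω : Finset ι) (w : E → ι → ℝ) : Measure (E × ι) :=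
  ∑ i ∈ Ω, (m.withDensity fun η => ENNReal.ofReal (w η i)).map (fun η => (η, i))

theorem gm_apply (m : Measure E) (Ω : Finset ι) (w : E → ι → ℝ) {A : Set (E × ι)}
    (hA : MeasurableSet A) :
    gm m Ω w A = ∑ i ∈ Ω, ∫⁻ η in {η | (η, i) ∈ A}, ENNReal.ofReal (w η i) ∂m := by
  unfold gm
  rw [Measure.finsetSum_apply]
  refine sum_congr rfl fun i _ => ?_
  have hmeas : Measurable (fun η : E => (η, i)) := measurable_prodMk_right
  rw [Measure.map_apply hmeas hA, withDensity_apply _ (hmeas hA)]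
  rfl

theorem gm_lintegral (m : Measure E) (Ω : Finset ι) (w : E → ι → ℝ)
    (hw : ∀ i ∈ Ω, Measurable fun η => w η i) {f : E × ι → ENNReal} (hf : Measurable f) :
    ∫⁻ x, f x ∂(gm m Ω w) = ∑ i ∈ Ω, ∫⁻ η, ENNReal.ofReal (w η i) * f (η, i) ∂m := by
  unfold gm
  rw [lintegral_finsetSum_measure]
  refine sum_congr rfl fun i hi => ?_
  have hmeas : Measurable (fun η : E => (η, i)) := measurable_prodMk_right
  rw [lintegral_map hf hmeas]
  exact lintegral_withDensity_eq_lintegral_mul m ((hw i hi).ennreal_ofReal) (hf.comp hmeas)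

/-- The total mass. -/
theorem gm_univ (m : Measure E) [IsProbabilityMeasure m] (Ω : Finset ι) (w : E → ι → ℝ)
    (hw : ∀ i ∈ Ω, Measurable fun η => w η i) (h0 : ∀ η, ∀ i ∈ Ω, 0 ≤ w η i)
    (h1 : ∀ η, ∑ i ∈ Ω, w η i = 1) : gm m Ω w Set.univ = 1 := by
  rw [gm_apply m Ω w MeasurableSet.univ]
  simp only [Set.mem_univ, Set.ofPred_true, Measure.restrict_univ]
  rw [← lintegral_finsetSum' _ (fun i hi => (hw i hi).ennreal_ofReal.aemeasurable)]
  have h2 : ∀ η, ∑ i ∈ Ω, ENNReal.ofReal (w η i) = 1 := by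
    intro η
    rw [← ENNReal.ofReal_sum_of_nonneg (h0 η), h1 η, ENNReal.ofReal_one]
  simp only [h2, lintegral_one, measure_univ]

theorem gm_prob (m : Measure E) [IsProbabilityMeasure m] (Ω : Finset ι) (w : E → ι → ℝ)
    (hw : ∀ i ∈ Ω, Measurable fun η => w η i) (h0 : ∀ η, ∀ i ∈ Ω, 0 ≤ w η i)
    (h1 : ∀ η, ∑ i ∈ Ω, w η i = 1) : IsProbabilityMeasure (gm m Ω w) :=
  ⟨gm_univ m Ω w hw h0 h1⟩

/-- The probability of a measurable event as an expectation of the quenched probability. -/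
theorem gm_real (m : Measure E) [IsProbabilityMeasure m] (Ω : Finset ι) (w : E → ι → ℝ)
    (hw : ∀ i ∈ Ω, Measurable fun η => w η i) (h0 : ∀ η, ∀ i ∈ Ω, 0 ≤ w η i)
    (h1 : ∀ η, ∑ i ∈ Ω, w η i = 1) {A : Set (E × ι)} (hA : MeasurableSet A) :
    (gm m Ω w).real A = ∫ η, ∑ i ∈ Ω, w η i * A.indicator 1 (η, i) ∂m := by
  classical
  have hle : ∀ η, ∀ i ∈ Ω, w η i ≤ 1 := by
    intro η i hi
    rw [← h1 η]
    exact single_le_sum (f := fun i => w η i) (fun j hj => h0 η j hj) hi
  have hsec : ∀ i : ι, MeasurableSet {η : E | (η, i) ∈ A} := fun i =>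
    (measurable_prodMk_right : Measurable (fun η : E => (η, i))) hA
  have hms : ∀ i ∈ Ω, Measurable fun η => w η i * A.indicator (1 : E × ι → ℝ) (η, i) := by
    intro i hi
    refine (hw i hi).mul ?_
    have : (fun η => A.indicator (1 : E × ι → ℝ) (η, i))
        = {η : E | (η, i) ∈ A}.indicator (fun _ => (1 : ℝ)) := by
      ext η
      by_cases h : (η, i) ∈ A
      · rw [Set.indicator_of_mem h, Set.indicator_of_mem (show η ∈ {η : E | (η, i) ∈ A} from h)]
        rfl
      · rw [Set.indicator_of_notMem h,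
          Set.indicator_of_notMem (show η ∉ {η : E | (η, i) ∈ A} from h)]
    rw [this]
    exact measurable_const.indicator (hsec i)
  have hnn : ∀ η, ∀ i ∈ Ω, 0 ≤ w η i * A.indicator (1 : E × ι → ℝ) (η, i) := by
    intro η i hi
    exact mul_nonneg (h0 η i hi) (Set.indicator_nonneg (fun _ _ => zero_le_one) _)
  have hint : ∀ i ∈ Ω, Integrable (fun η => w η i * A.indicator (1 : E × ι → ℝ) (η, i)) m := by
    intro i hi
    refine Integrable.of_bound (hms i hi).aestronglyMeasurable 1 (ae_of_all _ fun η => ?_)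
    rw [Real.norm_eq_abs, abs_of_nonneg (hnn η i hi)]
    have h3 : A.indicator (1 : E × ι → ℝ) (η, i) ≤ 1 :=
      Set.indicator_le_self' (fun _ _ => zero_le_one) _
    have h4 := hle η i hi
    have h5 := h0 η i hi
    have h6 : 0 ≤ A.indicator (1 : E × ι → ℝ) (η, i) :=
      Set.indicator_nonneg (fun _ _ => zero_le_one) _
    nlinarith
  have hsum : ∀ i ∈ Ω, ∫ η, w η i * A.indicator (1 : E × ι → ℝ) (η, i) ∂m
      = (∫⁻ η in {η | (η, i) ∈ A}, ENNReal.ofReal (w η i) ∂m).toReal := by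
    intro i hi
    have e1 : ∫ η, w η i * A.indicator (1 : E × ι → ℝ) (η, i) ∂m
        = ∫ η in {η | (η, i) ∈ A}, w η i ∂m := by
      rw [← integral_indicator (hsec i)]
      refine integral_congr_ae (ae_of_all _ fun η => ?_)
      by_cases h : (η, i) ∈ A
      · show w η i * A.indicator (1 : E × ι → ℝ) (η, i)
          = {η | (η, i) ∈ A}.indicator (fun η => w η i) η
        rw [Set.indicator_of_mem h, Set.indicator_of_mem (show η ∈ {η : E | (η, i) ∈ A} from h)]
        simp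
      · show w η i * A.indicator (1 : E × ι → ℝ) (η, i)
          = {η | (η, i) ∈ A}.indicator (fun η => w η i) η
        rw [Set.indicator_of_notMem h,
          Set.indicator_of_notMem (show η ∉ {η : E | (η, i) ∈ A} from h)]
        simp
    rw [e1, integral_eq_lintegral_of_nonneg_ae (ae_of_all _ fun η => h0 η i hi)
      (hw i hi).aestronglyMeasurable]
  rw [integral_finsetSum _ hint, Measure.real, gm_apply m Ω w hA, ENNReal.toReal_sum]
  · exact (sum_congr rfl hsum).symm
  · intro i hi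
    have h7 : ∫⁻ η in {η | (η, i) ∈ A}, ENNReal.ofReal (w η i) ∂m ≤ ∫⁻ _η, 1 ∂m := by
      refine (setLIntegral_le_lintegral _ _).trans (lintegral_mono fun η => ?_)
      rw [← ENNReal.ofReal_one]
      exact ENNReal.ofReal_le_ofReal (hle η i hi)
    rw [lintegral_one, measure_univ] at h7
    exact (lt_of_le_of_lt h7 ENNReal.one_lt_top).ne

/-- Push forward under a symmetry of the index (for example the exchange of two paths between
two meetings): if `σ` preserves `Ω` and the weight and is an involution on `Ω`, the law is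
invariant under `(η, i) ↦ (η, σ i)`. -/
theorem gm_map_invol (m : Measure E) (Ω : Finset ι) (w : E → ι → ℝ) (σ : ι → ι)
    (hσm : Measurable σ) (hσ : ∀ i ∈ Ω, σ i ∈ Ω) (hσσ : ∀ i ∈ Ω, σ (σ i) = i)
    (hwσ : ∀ η, ∀ i ∈ Ω, w η (σ i) = w η i) :
    (gm m Ω w).map (fun x => (x.1, σ x.2)) = gm m Ω w := by
  have hf : Measurable (fun x : E × ι => (x.1, σ x.2)) :=
    measurable_fst.prodMk (hσm.comp measurable_snd)
  ext A hA
  rw [Measure.map_apply hf hA, gm_apply m Ω w (hf hA), gm_apply m Ω w hA]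
  refine sum_bij' (fun i _ => σ i) (fun i _ => σ i) hσ hσ hσσ hσσ ?_
  intro i hi
  have e1 : (fun η => ENNReal.ofReal (w η i)) = fun η => ENNReal.ofReal (w η (σ i)) := by
    funext η; rw [hwσ η i hi]
  rw [e1]
  rfl

/-- First marginal of a product weight. -/
theorem gm_map_fst (m : Measure E) (Ω : Finset ι) (Ω' : Finset κ) (a : E → ι → ℝ)
    (b : E → κ → ℝ) (ha : ∀ i ∈ Ω, Measurable fun η => a η i)
    (hb : ∀ j ∈ Ω', Measurable fun η => b η j)
    (ha0 : ∀ η, ∀ i ∈ Ω, 0 ≤ a η i) (hb0 : ∀ η, ∀ j ∈ Ω', 0 ≤ b η j)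
    (hb1 : ∀ η, ∑ j ∈ Ω', b η j = 1) :
    (gm m (Ω ×ˢ Ω') (fun η p => a η p.1 * b η p.2)).map (fun x => (x.1, x.2.1))
      = gm m Ω a := by
  have hf : Measurable (fun x : E × (ι × κ) => (x.1, x.2.1)) :=
    measurable_fst.prodMk (measurable_fst.comp measurable_snd)
  ext A hA
  rw [Measure.map_apply hf hA, gm_apply _ _ _ (hf hA), gm_apply m Ω a hA, sum_product]
  refine sum_congr rfl fun i hi => ?_
  have e0 : ∀ j ∈ Ω', (∫⁻ η in {η | (η, (i, j)) ∈ (fun x : E × (ι × κ) => (x.1, x.2.1)) ⁻¹' A},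
      ENNReal.ofReal (a η i * b η j) ∂m)
      = ∫⁻ η in {η | (η, i) ∈ A}, ENNReal.ofReal (a η i * b η j) ∂m := fun j _ => rfl
  have hms : ∀ j ∈ Ω', Measurable fun η => ENNReal.ofReal (a η i * b η j) := fun j hj =>
    ((ha i hi).mul (hb j hj)).ennreal_ofReal
  rw [sum_congr rfl e0, ← lintegral_finsetSum' _ (fun j hj => (hms j hj).aemeasurable)]
  refine lintegral_congr fun η => ?_
  rw [← ENNReal.ofReal_sum_of_nonneg (fun j hj => mul_nonneg (ha0 η i hi) (hb0 η j hj)),
    ← mul_sum, hb1 η, mul_one]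

/-- Second marginal of a product weight whose second factor is the weight `b` in the transformed
environment `T η`, `T` measure preserving. -/
theorem gm_map_snd (m : Measure E) (Ω : Finset ι) (Ω' : Finset κ) (a : E → ι → ℝ)
    (b : E → κ → ℝ) (T : E → E) (hT : MeasurePreserving T m m)
    (ha : ∀ i ∈ Ω, Measurable fun η => a η i)
    (hb : ∀ j ∈ Ω', Measurable fun η => b η j)
    (ha0 : ∀ η, ∀ i ∈ Ω, 0 ≤ a η i) (hb0 : ∀ η, ∀ j ∈ Ω', 0 ≤ b η j)
    (ha1 : ∀ η, ∑ i ∈ Ω, a η i = 1) :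
    (gm m (Ω ×ˢ Ω') (fun η p => a η p.1 * b (T η) p.2)).map (fun x => (T x.1, x.2.2))
      = gm m Ω' b := by
  have hf : Measurable (fun x : E × (ι × κ) => (T x.1, x.2.2)) :=
    (hT.measurable.comp measurable_fst).prodMk (measurable_snd.comp measurable_snd)
  ext A hA
  rw [Measure.map_apply hf hA, gm_apply _ _ _ (hf hA), gm_apply m Ω' b hA, sum_product_right]
  refine sum_congr rfl fun j hj => ?_
  have hAj : MeasurableSet {η : E | (η, j) ∈ A} :=
    (measurable_prodMk_right : Measurable (fun η : E => (η, j))) hA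
  have e0 : ∀ i ∈ Ω, (∫⁻ η in {η | (η, (i, j)) ∈ (fun x : E × (ι × κ) => (T x.1, x.2.2)) ⁻¹' A},
      ENNReal.ofReal (a η i * b (T η) j) ∂m)
      = ∫⁻ η in T ⁻¹' {η | (η, j) ∈ A}, ENNReal.ofReal (a η i * b (T η) j) ∂m := fun i _ => rfl
  have hbT : Measurable fun η => b (T η) j := (hb j hj).comp hT.measurable
  have hms : ∀ i ∈ Ω, Measurable fun η => ENNReal.ofReal (a η i * b (T η) j) := fun i hi =>
    ((ha i hi).mul hbT).ennreal_ofReal
  rw [sum_congr rfl e0, ← lintegral_finsetSum' _ (fun i hi => (hms i hi).aemeasurable)]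
  have e1 : ∀ η, ∑ i ∈ Ω, ENNReal.ofReal (a η i * b (T η) j) = ENNReal.ofReal (b (T η) j) := by
    intro η
    rw [← ENNReal.ofReal_sum_of_nonneg (fun i hi => mul_nonneg (ha0 η i hi) (hb0 _ j hj)),
      ← sum_mul, ha1 η, one_mul]
  simp only [e1]
  exact hT.setLIntegral_comp_preimage hAj ((hb j hj).ennreal_ofReal)

/-- The lower bound for the second marginal, arbitrary sets (outer measures): the fibres of
`(η, (i, j)) ↦ (T η, j)` carry the full mass of the first path. -/
theorem gm_snd_ge [Countable κ] [MeasurableSingletonClass κ] (m : Measure E) (Ω : Finset ι)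
    (Ω' : Finset κ) (a : E → ι → ℝ)
    (b : E → κ → ℝ) (T T' : E → E) (hT : MeasurePreserving T m m) (hT' : Measurable T')
    (hTT' : ∀ η, T (T' η) = η) (hT'T : ∀ η, T' (T η) = η)
    (ha : ∀ i ∈ Ω, Measurable fun η => a η i)
    (hb : ∀ j ∈ Ω', Measurable fun η => b η j)
    (ha0 : ∀ η, ∀ i ∈ Ω, 0 ≤ a η i) (hb0 : ∀ η, ∀ j ∈ Ω', 0 ≤ b η j)
    (ha1 : ∀ η, ∑ i ∈ Ω, a η i = 1) (A : Set (E × κ)) :
    gm m Ω' b A ≤ gm m (Ω ×ˢ Ω') (fun η p => a η p.1 * b (T η) p.2)
      {x | (T x.1, x.2.2) ∈ A} := by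
  classical
  set Q := gm m (Ω ×ˢ Ω') (fun η p => a η p.1 * b (T η) p.2) with hQ
  set D : Set (E × (ι × κ)) := {x | (T x.1, x.2.2) ∈ A} with hD
  set B := toMeasurable Q D with hB
  have hBm : MeasurableSet B := measurableSet_toMeasurable Q D
  have hDB : D ⊆ B := subset_toMeasurable Q D
  have hQB : Q B = Q D := measure_toMeasurable D
  -- the sections
  have hsec : ∀ (i : ι) (j : κ), MeasurableSet {η : E | (η, (i, j)) ∈ B} := fun i j =>
    (measurable_prodMk_right : Measurable (fun η : E => (η, (i, j)))) hBm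
  set C : κ → Set E := fun j => ⋂ i ∈ Ω, {η : E | (η, (i, j)) ∈ B} with hC
  have hCm : ∀ j, MeasurableSet (C j) := fun j =>
    MeasurableSet.biInter (Finset.countable_toSet Ω) fun i _ => hsec i j
  set B' : Set (E × κ) := {x | T' x.1 ∈ C x.2} with hB'
  have hB'm : MeasurableSet B' := by
    have e : B' = ⋃ j : κ, (T' ⁻¹' C j) ×ˢ {j} := by
      ext x
      simp only [hB', Set.mem_ofPred_eq, Set.mem_iUnion, Set.mem_prod, Set.mem_preimage,
        Set.mem_singleton_iff]
      constructor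
      · intro h; exact ⟨x.2, h, rfl⟩
      · rintro ⟨j, h, rfl⟩; exact h
    rw [e]
    exact MeasurableSet.iUnion fun j => (hT' (hCm j)).prod (measurableSet_singleton j)
  have hAB' : A ⊆ B' := by
    intro x hx
    show T' x.1 ∈ C x.2
    rw [hC, Set.mem_iInter₂]
    intro i _
    apply hDB
    show (T (T' x.1), x.2) ∈ A
    rw [hTT']
    exact hx
  refine (measure_mono hAB').trans ?_
  rw [← hQB, hQ, gm_apply m Ω' b hB'm, gm_apply _ _ _ hBm, sum_product_right]
  refine sum_le_sum fun j hj => ?_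
  have hbT : Measurable fun η => b (T η) j := (hb j hj).comp hT.measurable
  have e1 : {η : E | (η, j) ∈ B'} = T' ⁻¹' C j := rfl
  have e2 : T ⁻¹' (T' ⁻¹' C j) = C j := by
    ext η
    simp only [Set.mem_preimage, hT'T]
  have e3 : ∫⁻ η in {η : E | (η, j) ∈ B'}, ENNReal.ofReal (b η j) ∂m
      = ∫⁻ η in C j, ENNReal.ofReal (b (T η) j) ∂m := by
    rw [e1, ← hT.setLIntegral_comp_preimage (hT' (hCm j)) ((hb j hj).ennreal_ofReal), e2]
  have hms : ∀ i ∈ Ω, Measurable fun η => ENNReal.ofReal (a η i * b (T η) j) := fun i hi =>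
    ((ha i hi).mul hbT).ennreal_ofReal
  have e4 : ∀ η, ENNReal.ofReal (b (T η) j) = ∑ i ∈ Ω, ENNReal.ofReal (a η i * b (T η) j) := by
    intro η
    rw [← ENNReal.ofReal_sum_of_nonneg (fun i hi => mul_nonneg (ha0 η i hi) (hb0 _ j hj)),
      ← sum_mul, ha1 η, one_mul]
  rw [e3]
  simp only [e4]
  rw [lintegral_finsetSum' _ (fun i hi => (hms i hi).aemeasurable)]
  refine sum_le_sum fun i hi => ?_
  refine lintegral_mono_set ?_
  intro η hη
  rw [hC, Set.mem_iInter₂] at hη
  exact hη i hi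

/-- Events of a push forward, arbitrary sets. -/
theorem real_preimage_le {α β : Type*} [MeasurableSpace α] [MeasurableSpace β]
    (P : Measure α) (Q : Measure β) [IsFiniteMeasure Q] {f : α → β} (hf : Measurable f)
    (h : P.map f = Q) (A : Set β) : P.real (f ⁻¹' A) ≤ Q.real A := by
  have h1 : P (f ⁻¹' A) ≤ Q A := by
    rw [← h]; exact Measure.le_map_apply hf.aemeasurable A
  exact ENNReal.toReal_mono (measure_ne_top Q A) h1

end

end Pool.Agent.W_7d29a1_Z86
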