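import Pool.Agent.W_7d29a1_Z.Fresh
import Pool.Agent.W_7d29a1_Z.NT72
import Pool.Agent.W_7d29a1_Z86.Num86
import Pool.Agent.W_7d29a1_Z86.Brk86n

/-!
STORM Z, helper86: the windows and their scales, without the ties (NumW86 without `TIE`; the structure `Nm` is exposed). For the second
storey.
-/

namespace Pool.Agent.W_7d29a1_Z86.GX

open MeasureTheory ProbabilityTheory Filter Topology Finset
open Pool.Agent.W_7d29a1_F Pool.Agent.W_7d29a1_X Pool.Agent.W_7d29a1_G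
open Pool.Agent.W_7d29a1_SR (In wd)
open Pool.Agent.W_7d29a1_Z Pool.Agent.W_7d29a1_Z.R72
open Pool.Agent.W_7d29a1_Z86
open scoped ENNReal

variable {μ : Measure ℝ} [IsProbabilityMeasure μ] {c C : ℝ} {n₀ : ℕ}

/-- The windows and their scales; `ε₃` is the bound of the exponents of `Nm`. -/
theorem numWX (h : In μ c C n₀) (hF : HF2 μ) :
    ∀ ε η θ ε₃ : ℝ, 0 < ε → 0 < η → 0 < θ → 0 < ε₃ → ∃ ε₁ ε₄ : ℝ, 0 < ε₁ ∧ 0 < ε₄ ∧ ε₁ ≤ ε₃ ∧ ε₄ ≤ ε₃ ∧ ∃ L₀ : ℕ,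
    ∀ L : ℕ, L₀ ≤ L → ∀ N t : ℕ, L ≤ 16 * N → N ≤ L → (L : ℝ) ^ θ ≤ t → t ≤ N →
    ∃ (n1 : ℕ → ℕ) (e0 E X : ℕ) (w : ℝ), Nm μ L N t ε₁ ε₄ n1 e0 E ∧ 2 ^ (E + 3) ≤ L ∧ 1 ≤ X ∧ (X : ℝ) ≤ (L : ℝ) ^ ε ∧
      64 * ((L : ℝ) ^ (-η) * wd' μ t) ≤ 2 ^ e0 ∧ 2 ^ e0 ≤ t ∧ 0 ≤ w ∧ w ≤ (L : ℝ) ^ ε * wd' μ t ∧ 16 * w ≤ t ∧
      (∀ e, e0 ≤ e → e ≤ E → 1 ≤ n1 e) ∧
      (∀ τ k₀ b, (Wd N t τ k₀ n1 e0 E b).card ≤ X) ∧
      (∀ S, S ⊆ range N → NSp μ L N ε₁ S → Tame L N t w (pos S) ∧ FlatP N e0 E n1 S) ∧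
      (∀ (τ k₀ k₁ : ℕ) (v : ℕ → ℤ) (S S' : Finset ℕ), S ⊆ range N → S' ⊆ range N → (∀ i, |sv v 0 i| ≤ 2 ^ e0) →
        NSp μ L N ε₁ S → NSp μ L N ε₁ S' → ¬ Close μ L N ε₁ v S S' → SepOK N t τ k₀ k₁ e0 E v S S') := by
  intro ε η θ ε₃ hε hη hθ hε₃
  obtain ⟨a, K', ha0, ha1, hK', hw⟩ := wd'_pow h hF
  set ε₄ : ℝ := min ε₃ (ε / 4) with hε₄
  have hε₄0 : 0 < ε₄ := lt_min hε₃ (by positivity)
  have hε₄3 : ε₄ ≤ ε₃ := min_le_left _ _
  have hε₄4 : ε₄ ≤ ε / 4 := min_le_right _ _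
  set ε₂ : ℝ := min (min (a * ε₄ / 12) (a * θ / 4)) (min (a / 2) (η / 2)) with hε₂
  have hε₂0 : 0 < ε₂ := lt_min (lt_min (by positivity) (by positivity)) (lt_min (by positivity) (by positivity))
  have g1 : 12 * ε₂ ≤ a * ε₄ := by
    have : ε₂ ≤ a * ε₄ / 12 := (min_le_left _ _).trans (min_le_left _ _)
    linarith
  have g2 : 4 * ε₂ ≤ a * θ := by
    have : ε₂ ≤ a * θ / 4 := (min_le_left _ _).trans (min_le_right _ _)
    linarith
  have g3 : 2 * ε₂ ≤ a := by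
    have : ε₂ ≤ a / 2 := (min_le_right _ _).trans (min_le_left _ _)
    linarith
  have g4 : 2 * ε₂ ≤ η := by
    have : ε₂ ≤ η / 2 := (min_le_right _ _).trans (min_le_right _ _)
    linarith
  have g5 : ε₂ ≤ ε / 4 := by
    have : a * ε₄ ≤ 1 * ε₄ := mul_le_mul_of_nonneg_right ha1.le hε₄0.le
    linarith
  obtain ⟨L2, hNm⟩ := exists_nm (μ := μ) ha0 ha1 hK' hw hε₄0 hθ hε₂0 g1 g2 g3
  have hw1 := wd'_one_le (μ := μ) 1
  obtain ⟨L3, hL3⟩ := ev_const (16 * K' ^ 2 * wd' μ 1) (show 0 < a * θ / 2 by positivity)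
  obtain ⟨L4, hL4⟩ := ev_const (K' * wd' μ 1) hε₂0
  obtain ⟨L5, hL5⟩ := ev_const 5 (show 0 < ε / 2 by positivity)
  obtain ⟨L6, hL6⟩ := ev_const 32 (show 0 < θ / 2 by positivity)
  obtain ⟨L7, hL7⟩ := ev_const K' (show 0 < ε / 2 by positivity)
  have g6 : ε₂ ≤ ε₃ := by
    have : a * ε₄ ≤ 1 * ε₄ := mul_le_mul_of_nonneg_right ha1.le hε₄0.le
    linarith
  refine ⟨ε₂, ε₄, hε₂0, hε₄0, g6, hε₄3, L2 + L3 + L4 + L5 + L6 + L7 + 2, ?_⟩
  intro L hL N t hLN hNL htL htN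
  obtain ⟨n1, e0, E, hnm⟩ := hNm L (by omega) N t hLN hNL htL htN
  have hL3 := hL3 L (by omega)
  have hL4 := hL4 L (by omega)
  have hL5 := hL5 L (by omega)
  have hL6 := hL6 L (by omega)
  have hL7 := hL7 L (by omega)
  have hL0 : (1 : ℝ) ≤ L := by exact_mod_cast (show 1 ≤ L by omega)
  have hLp : (0 : ℝ) < L := by linarith
  have hN1 : 1 ≤ N := by omega
  set Z : ℝ := (L : ℝ) ^ ε₂ with hZ
  have hZ1 : 1 ≤ Z := Real.one_le_rpow hL0 hε₂0.le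
  have hZ0 : 0 < Z := by linarith
  have hθ2 : (L : ℝ) ^ (θ / 2) * (L : ℝ) ^ (θ / 2) = (L : ℝ) ^ θ := by
    rw [← Real.rpow_add hLp]
    congr 1
    ring
  have hθ2' : 0 < (L : ℝ) ^ (θ / 2) := Real.rpow_pos_of_pos hLp _
  have hZθ : Z ≤ (L : ℝ) ^ (θ / 2) := by
    refine Real.rpow_le_rpow_of_exponent_le hL0 ?_
    have : a * θ ≤ 1 * θ := mul_le_mul_of_nonneg_right ha1.le hθ.le
    linarith
  have ht32Z : 32 * Z ≤ t := by
    calc 32 * Z ≤ (L : ℝ) ^ (θ / 2) * (L : ℝ) ^ (θ / 2) := mul_le_mul hL6 hZθ hZ0.le hθ2'.le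
      _ = (L : ℝ) ^ θ := hθ2
      _ ≤ t := htL
  have ht32 : (32 : ℝ) ≤ t := by linarith
  have ht32' : 32 ≤ t := by exact_mod_cast ht32
  have htp : (0 : ℝ) < t := by linarith
  have hwt := wd'_one_le (μ := μ) t
  have hq4 : (t : ℝ) / 8 ≤ ((t / 4 : ℕ) : ℝ) := by
    have h1 : t ≤ 8 * (t / 4) := by omega
    have h3 : (t : ℝ) ≤ 8 * ((t / 4 : ℕ) : ℝ) := by exact_mod_cast h1
    linarith
  have hq1 : 1 ≤ t / 4 := by omega
  -- the size of the window of the increments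
  set w : ℝ := K' * Z * wd' μ t with hwd
  have hw0 : 0 ≤ w := by positivity
  have hwt16 : 16 * w ≤ t := by
    have h1 := (hw 1 t le_rfl (by omega)).2.2
    have h2 : ((t : ℝ) / ((1 : ℕ) : ℝ)) ^ (1 - a) = (t : ℝ) / (t : ℝ) ^ a := by
      rw [Nat.cast_one, div_one, Real.rpow_sub htp, Real.rpow_one]
    rw [h2] at h1
    have h3 : (L : ℝ) ^ (a * θ) ≤ (t : ℝ) ^ a := by
      calc (L : ℝ) ^ (a * θ) = ((L : ℝ) ^ θ) ^ a := by rw [← Real.rpow_mul hLp.le, mul_comm θ a]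
        _ ≤ (t : ℝ) ^ a := Real.rpow_le_rpow (by positivity) htL ha0.le
    have h4 : 16 * K' ^ 2 * wd' μ 1 * Z ≤ (t : ℝ) ^ a := by
      refine le_trans ?_ h3
      calc 16 * K' ^ 2 * wd' μ 1 * Z ≤ (L : ℝ) ^ (a * θ / 2) * (L : ℝ) ^ (a * θ / 2) := by
            refine mul_le_mul hL3 ?_ hZ0.le (by positivity)
            exact Real.rpow_le_rpow_of_exponent_le hL0 (by linarith)
        _ = (L : ℝ) ^ (a * θ) := by
            rw [← Real.rpow_add hLp]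
            congr 1
            ring
    have hta : 0 < (t : ℝ) ^ a := Real.rpow_pos_of_pos htp _
    calc 16 * w = 16 * K' * Z * wd' μ t := by rw [hwd]; ring
      _ ≤ 16 * K' * Z * (K' * (t / (t : ℝ) ^ a) * wd' μ 1) := mul_le_mul_of_nonneg_left h1 (by positivity)
      _ = (16 * K' ^ 2 * wd' μ 1 * Z) * (t / (t : ℝ) ^ a) := by ring
      _ ≤ (t : ℝ) ^ a * (t / (t : ℝ) ^ a) := mul_le_mul_of_nonneg_right h4 (by positivity)
      _ = t := by field_simp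
  set X0 : ℕ := ⌊(L : ℝ) ^ ε₄⌋₊ with hX0
  refine ⟨n1, e0, E, (E + 1 - e0) * (2 * (X0 + 1)) + 1, w, hnm, hnm.E_le, by omega, ?_, ?_, ?_, hw0, ?_, hwt16,
    hnm.n1_pos, ?_, ?_, ?_⟩
  · -- the number of windows
    set P : ℝ := (L : ℝ) ^ ε₄ with hP
    have hP1 : 1 ≤ P := Real.one_le_rpow hL0 hε₄0.le
    have h1 : (X0 : ℝ) ≤ P := Nat.floor_le (by linarith)
    have h2 := hnm.cnt2
    have h3 : (((E + 1 - e0) * (2 * (X0 + 1)) + 1 : ℕ) : ℝ) = ((E + 1 - e0 : ℕ) : ℝ) * (2 * ((X0 : ℝ) + 1)) + 1 := by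
      rw [Nat.cast_add, Nat.cast_mul]
      push_cast
      ring
    rw [h3]
    have h5 : 1 ≤ P * P := one_le_mul_of_one_le_of_one_le hP1 hP1
    calc ((E + 1 - e0 : ℕ) : ℝ) * (2 * ((X0 : ℝ) + 1)) + 1 ≤ P * (2 * (P + P)) + 1 := by
          have h4 : 2 * ((X0 : ℝ) + 1) ≤ 2 * (P + P) := by linarith
          have h6 := mul_le_mul h2 h4 (by positivity) (by linarith)
          linarith
      _ ≤ 5 * (P * P) := by linarith
      _ ≤ (L : ℝ) ^ (ε / 2) * (L : ℝ) ^ (ε / 2) := by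
          refine mul_le_mul hL5 ?_ (by positivity) (by positivity)
          rw [hP, ← Real.rpow_add hLp]
          exact Real.rpow_le_rpow_of_exponent_le hL0 (by linarith)
      _ = (L : ℝ) ^ ε := by
          rw [← Real.rpow_add hLp]
          congr 1
          ring
  · -- lower bound of `2 ^ e0`
    refine le_trans ?_ hnm.e0_ge
    have h1 : (L : ℝ) ^ (-η) ≤ (L : ℝ) ^ (-(2 * ε₂)) := Real.rpow_le_rpow_of_exponent_le hL0 (by linarith)
    have h2 := mul_le_mul_of_nonneg_right h1 (show 0 ≤ wd' μ t by linarith)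
    linarith
  · -- `2 ^ e0 ≤ t`
    have h1 := hnm.e0_le
    have h2 := (hw 1 (t / 4) le_rfl hq1).2.2
    have hq1R : (1 : ℝ) ≤ ((t / 4 : ℕ) : ℝ) := by exact_mod_cast hq1
    have h3 : (((t / 4 : ℕ) : ℝ) / ((1 : ℕ) : ℝ)) ^ (1 - a) ≤ t := by
      rw [Nat.cast_one, div_one]
      calc ((t / 4 : ℕ) : ℝ) ^ (1 - a) ≤ ((t / 4 : ℕ) : ℝ) ^ (1 : ℝ) :=
            Real.rpow_le_rpow_of_exponent_le hq1R (by linarith)
        _ = ((t / 4 : ℕ) : ℝ) := Real.rpow_one _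
        _ ≤ t := by exact_mod_cast Nat.div_le_self t 4
    have h4 : (L : ℝ) ^ (-ε₂) = Z⁻¹ := Real.rpow_neg hLp.le _
    have h5 : (2 : ℝ) ^ e0 ≤ t := by
      rw [h4] at h1
      refine h1.trans ?_
      rw [inv_mul_eq_div, div_le_iff₀ hZ0]
      calc wd' μ (t / 4) ≤ K' * (((t / 4 : ℕ) : ℝ) / ((1 : ℕ) : ℝ)) ^ (1 - a) * wd' μ 1 := h2
        _ ≤ K' * t * wd' μ 1 := by gcongr
        _ = t * (K' * wd' μ 1) := by ring
        _ ≤ t * Z := mul_le_mul_of_nonneg_left hL4 htp.le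
    exact_mod_cast h5
  · -- `w ≤ L ^ ε wd' t`
    rw [hwd]
    refine mul_le_mul_of_nonneg_right ?_ (by linarith)
    calc K' * Z ≤ (L : ℝ) ^ (ε / 2) * (L : ℝ) ^ (ε / 2) := by
          refine mul_le_mul hL7 ?_ hZ0.le (by positivity)
          exact Real.rpow_le_rpow_of_exponent_le hL0 (by linarith)
      _ = (L : ℝ) ^ ε := by
          rw [← Real.rpow_add hLp]
          congr 1
          ring
  · -- the number of the windows
    intro τ k₀ b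
    refine (card_Wd (X := X0) fun e he0 heE => ?_).trans (Nat.le_succ _)
    exact Nat.le_floor (hnm.cnt1 e he0 heE)
  · -- tame and flat
    intro S hS hNS
    refine ⟨⟨fun i hi => ?_, fun i i' hii hit hiN => ?_⟩, flat_of_NSp hnm hNS⟩
    · have h1 := pos_nonneg S i
      have h2 := pos_le S i
      rw [abs_of_nonneg h1]
      have h3 : (i : ℤ) ≤ L := by exact_mod_cast hi.trans hNL
      linarith
    · rcases Nat.eq_or_lt_of_le hii with h1 | h1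
      · subst h1
        rw [sub_self, sub_self, mul_zero, sub_zero, abs_zero]
        linarith
      · obtain ⟨n, rfl⟩ : ∃ n, i' = i + n := ⟨i' - i, by omega⟩
        have h2 := hNS i n (by omega) hiN
        have h3 := (hw n t (by omega) (by omega)).1
        have h4 : Z * wd' μ n ≤ w := by
          rw [hwd]
          calc Z * wd' μ n ≤ Z * (K' * wd' μ t) := mul_le_mul_of_nonneg_left h3 hZ0.le
            _ = _ := by ring
        have e1 : 2 * ((pos S (i + n) : ℝ) - pos S i) - (((i + n : ℕ) : ℝ) - i) =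
            2 * ((pos S (i + n) - pos S i : ℤ) : ℝ) - n := by
          push_cast
          ring
        rw [e1]
        linarith
  · -- separation
    intro τ k₀ k₁ v S S' hS hS' hsv hNS hNS' hcl
    have hsv' : ∀ i, |((sv v 0 i : ℤ) : ℝ)| ≤ (L : ℝ) ^ (-ε₂) * wd' μ (t / 4) := by
      intro i
      refine le_trans ?_ hnm.e0_le
      rw [← Int.cast_abs]
      have := hsv i
      exact_mod_cast this
    refine ⟨fun b β _ _ _ hβN hno => ?_, fun i hi => ?_⟩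
    · have h1 : ¬ ∃ i n : ℕ, (L : ℝ) ^ ε₂ ≤ n ∧ i + n ≤ N ∧ (∀ k, i ≤ k → k ≤ i + n → pos S k ≠ px v S' k) ∧
        ∀ k, i ≤ k → k ≤ i + n → |((pos S k - px v S' k : ℤ) : ℝ)| ≤ (L : ℝ) ^ (-ε₂) * wd' μ n := hcl
      push Not at h1
      obtain ⟨k, hk1, hk2, hk3⟩ := h1 β (t / 4) (by linarith) hβN (fun k hk1 hk2 => hno k hk1 hk2)
      refine ⟨k, hk1, hk2, ?_⟩
      have h8 : ((2 ^ e0 : ℤ) : ℝ) ≤ ((|pos S k - px v S' k| : ℤ) : ℝ) := by
        have := hnm.e0_le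
        push_cast at hk3 ⊢
        linarith
      exact_mod_cast h8
    · rcases Nat.eq_zero_or_pos i with h1 | h1
      · subst h1
        unfold px
        rw [pos_zero, pos_zero]
        simp [sv]
      · have h2 := hNS 0 i h1 (by omega)
        have h3 := hNS' 0 i h1 (by omega)
        rw [zero_add, pos_zero, sub_zero] at h2 h3
        have h4 := hnm.E_gt i h1 hi
        have h5 := hsv' i
        have h7 : ((|pos S i - px v S' i| : ℤ) : ℝ) < ((2 ^ (E + 1) : ℤ) : ℝ) := by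
          unfold px
          push_cast
          rw [abs_lt]
          have g1 := abs_le.1 h2
          have g2 := abs_le.1 h3
          have g3 := abs_le.1 h5
          constructor <;> linarith [g1.1, g1.2, g2.1, g2.2, g3.1, g3.2]
        exact_mod_cast h7

end Pool.Agent.W_7d29a1_Z86.GX
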