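import Pool.Agent.W_7d29a1_Z86.InnX
import Pool.Agent.W_7d29a1_Z86.NumWX

/-!
STORM Z, helper86: `ProdX` (the input of INN with the near tie as a parameter) from `PriceX`: price and production of the near ties for
every list of windows with the numbers `Nm`. For the second storey.
-/

namespace Pool.Agent.W_7d29a1_Z86.GX

open MeasureTheory ProbabilityTheory Filter Topology Finset
open Pool.Agent.W_7d29a1_F Pool.Agent.W_7d29a1_X Pool.Agent.W_7d29a1_G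
open Pool.Agent.W_7d29a1_SR (In wd)
open Pool.Agent.W_7d29a1_Z Pool.Agent.W_7d29a1_Z.R72 Pool.Agent.W_7d29a1_Z.Asm72
open Pool.Agent.W_7d29a1_Z86
open Pool.Agent.W_7d29a1_Z10 (InnS)
open scoped ENNReal

variable {μ : Measure ℝ} [IsProbabilityMeasure μ] {c C : ℝ} {n₀ : ℕ}

/-- Price and production of the near ties `NX`, for every list of windows with the numbers `Nm`. -/
def PriceX (μ : Measure ℝ) [IsProbabilityMeasure μ] (q : ℕ → ℝ) : Prop :=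
  ∀ ε θ : ℝ, 0 < ε → 0 < θ → ∃ ε₃ δ c' : ℝ, 0 < ε₃ ∧ 0 < δ ∧ 0 < c' ∧ ∃ L₀ : ℕ,
    ∀ L : ℕ, L₀ ≤ L → ∀ N t : ℕ, L ≤ 16 * N → N ≤ L → (L : ℝ) ^ θ ≤ t → t ≤ N →
    ∀ (y : ℤ) (h0 : 0 ≤ y) (h1 : y ≤ N), |2 * (y : ℝ) - N| ≤ 2 * ((L : ℝ) ^ δ * wd' μ N) →
    ∀ (ε₂ ε₄ : ℝ) (n1 : ℕ → ℕ) (e0 E : ℕ), 0 < ε₂ → ε₂ ≤ ε₃ → 0 < ε₄ → ε₄ ≤ ε₃ → Nm μ L N t ε₂ ε₄ n1 e0 E →
    ∃ NX : NRel, NOk NX ∧
      (∀ τ k₀, TieInX μ NX N y t τ k₀ n1 e0 E ((L : ℝ) ^ ε * q t) (Real.exp (-(L : ℝ) ^ c'))) ∧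
      (∀ (τ B k₀ k₁ K s X : ℕ) (I : Finset ℕ) (w A u lm : ℝ) (V : ℕ → ℤ), 16 ≤ t → I ⊆ Core t → k₀ < k₁ → k₁ ≤ B →
        B ≤ L → za t τ k₁ ≤ N → VOK t τ N k₀ k₁ s I V → 1 ≤ s → s ≤ K → 1 ≤ A → 0 ≤ u → 0 ≤ lm →
        (∀ b, (Wd N t τ k₀ n1 e0 E b).card ≤ X) → 4 * w + 8 * ((s : ℝ) * I.card) ≤ t → 64 * (s * I.card) ≤ 2 ^ e0 →
        ∃ Bd : Set (Env × Finset ℕ × Finset ℕ),
          (sp2 μ h0 h1 (pat t τ I V)).pr Bd ≤ Real.exp (-(L : ℝ) ^ c') + (10 * ((L : ℝ) + 1)) ^ 6 * X * Real.exp (-lm) ∧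
          ∀ θ : Env × Finset ℕ × Finset ℕ, θ ∉ BadS μ L N y t τ B k₀ k₁ K s e0 E n1 I w A (2 * (u + 4)) lm V → θ ∉ Bd →
            NJ μ NX N t τ k₀ k₁ s e0 E n1 I A (2 * (u + 4)) lm V θ)

theorem prodX_of (h : In μ c C n₀) (hF : HF2 μ) {q : ℕ → ℝ} (hP : PriceX μ q) : ProdX μ q := by
  intro ε η θ hε hη hθ
  obtain ⟨ε₃, δ, c', hε₃, hδ, hc', L1, hPr⟩ := hP ε θ hε hθ
  obtain ⟨ε₁, ε₄, hε₁, hε₄, h13, h43, L2, hW⟩ := numWX h hF ε η θ ε₃ hε hη hθ hε₃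
  refine ⟨ε₁, δ, c', hε₁, hδ, hc', L1 + L2, ?_⟩
  intro L hL N t hLN hNL htL htN y hy0 hyN hyc
  obtain ⟨n1, e0, E, X, w, hnm, w1, w2, w3, w4, w5, w6, w7, w8, _, w10, w11, w12⟩ := hW L (by omega) N t hLN hNL htL htN
  obtain ⟨NX, hNX, hT, hPd⟩ := hPr L (by omega) N t hLN hNL htL htN y hy0 hyN hyc ε₁ ε₄ n1 e0 E hε₁ h13 hε₄ h43 hnm
  exact ⟨NX, n1, e0, E, X, w, hNX, w1, w2, w3, w4, w5, w6, w7, w8, hT, w10, w11, w12,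
    fun τ B k₀ k₁ K s I A u lm V ht hI hk hk1 hBL hkN hV hs1 hsK hA hu hlm hw hD =>
      hPd τ B k₀ k₁ K s X I w A u lm V ht hI hk hk1 hBL hkN hV hs1 hsK hA hu hlm (w10 τ k₀) hw hD⟩

/-- INN from price and production. -/
theorem innS_of (h : In μ c C n₀) (hF : HF2 μ) {q : ℕ → ℝ} {K : ℝ} (hq : QOK q K) (hP : PriceX μ q) : InnS μ q :=
  innX h hF hq (prodX_of h hF hP)

end Pool.Agent.W_7d29a1_Z86.GX
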