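import Pool.Agent.W_7d29a1_ZE.PriceX
import Pool.Agent.W_7d29a1_ZE.NumX
import Pool.Agent.W_7d29a1_ZE.CellOut
import Pool.Agent.W_7d29a1_Z.NumI77
import Pool.Agent.W_7d29a1_Z86.ProdOf

/-!
STORM Z, second storey, helper86: price and production of the near ties at the rate `1 / E` (`PriceX μ (qE μ)`), assembled from
helper36's `numX`, helper37's `tieE_all`, helper15's `hPX_of` and helper59's price of the bad events of the depth.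
-/

namespace Pool.Agent.W_7d29a1_Z86.GX

open MeasureTheory ProbabilityTheory Filter Topology Finset
open Pool.Agent.W_7d29a1_F Pool.Agent.W_7d29a1_X Pool.Agent.W_7d29a1_G
open Pool.Agent.W_7d29a1_SR (In wd)
open Pool.Agent.W_7d29a1_Z Pool.Agent.W_7d29a1_Z.R72 Pool.Agent.W_7d29a1_Z.Asm72
open Pool.Agent.W_7d29a1_Z86
open Pool.Agent.W_7d29a1_ZE (Par NXE nok_NXE TVp POk BadDX numX hPX_of P1_tvp tieE_all)
open scoped ENNReal

variable {μ : Measure ℝ} [IsProbabilityMeasure μ] {c C : ℝ} {n₀ : ℕ}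

/-- The price of the bad events of the depth. -/
def BadDXpr (μ : Measure ℝ) [IsProbabilityMeasure μ] : Prop :=
  ∀ (L N t τ k₀ k₁ e0 E X : ℕ) (n1 : ℕ → ℕ) (pr : Par) (I : Finset ℕ) (V : ℕ → ℤ) (y : ℤ) (h0 : 0 ≤ y) (h1 : y ≤ N), pr.i₁ ≤ pr.a →
    N ≤ L → k₁ ≤ L → 2 ^ (E + 3) ≤ L → (∀ b, (Wd N t τ k₀ n1 e0 E b).card ≤ X) → ∀ lm : ℝ, 0 ≤ lm →
    (sp2 μ h0 h1 (pat t τ I V)).pr (BadDX μ N t τ k₀ k₁ e0 E n1 pr I V lm) ≤ (10 * ((L : ℝ) + 1)) ^ 6 * X * Real.exp (-lm)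

theorem priceX_of (h : In μ c C n₀) (hF : HF2 μ) (hBD : BadDXpr μ) : PriceX μ (qE μ) := by
  intro ε θ hε hθ
  obtain ⟨ε₃, ε₅, c', hε₃, hε₅, hc', L1, hNX⟩ := numX h hF (fun C hC => (tieE_all h hF).toC hC) hε hθ
  obtain ⟨δ, cn, hδ, hcn, L2, hNs⟩ := ns h hF ε₅ hε₅
  set cm : ℝ := min c' cn with hcm
  have hcm0 : 0 < cm := lt_min hc' hcn
  obtain ⟨cp, hcp, _, L3, hPE⟩ := NumI77.pow_exp hcm0 1
  refine ⟨ε₃, δ, cp, hε₃, hδ, hcp, L1 + L2 + L3 + 2, ?_⟩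
  intro L hL N t hLN hNL htL htN y h0 h1 hy ε₂ ε₄ n1 e0 E _ h23 _ h43 hnm
  have hL1 : 1 ≤ L := by omega
  have hL2 : (2 : ℝ) ≤ L := by exact_mod_cast (show 2 ≤ L by omega)
  have e1 : Real.exp (-(L : ℝ) ^ c') ≤ Real.exp (-(L : ℝ) ^ cm) := NumI77.exp_mono (min_le_left _ _) hL1
  have e2 : Real.exp (-(L : ℝ) ^ cn) ≤ Real.exp (-(L : ℝ) ^ cm) := NumI77.exp_mono (min_le_right _ _) hL1
  have e3 := hPE L (by omega)
  rw [Real.rpow_one] at e3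
  have e4 := Real.exp_pos (-(L : ℝ) ^ cm)
  have e5 : Real.exp (-(L : ℝ) ^ cn) + Real.exp (-(L : ℝ) ^ c') ≤ Real.exp (-(L : ℝ) ^ cp) := by
    have := mul_le_mul_of_nonneg_right hL2 e4.le
    linarith
  have e6 : Real.exp (-(L : ℝ) ^ c') ≤ Real.exp (-(L : ℝ) ^ cp) := by
    have := Real.exp_pos (-(L : ℝ) ^ cn)
    linarith
  obtain ⟨p, hp1, hp2⟩ := hNX L (by omega) N t hNL htL htN y h0 h1
  obtain ⟨hpr, hT⟩ := hp2 ε₂ ε₄ n1 e0 E h23 h43 hnm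
  refine ⟨NXE μ N y p, nok_NXE N y p, fun τ k₀ => ?_, ?_⟩
  · intro b W hW H M hM F hF' hoff
    refine (hT τ k₀ b W hW H M hM F hF' hoff).trans (add_le_add (le_of_eq ?_) (ENNReal.ofReal_le_ofReal e6))
    rw [div_eq_mul_inv]
    rfl
  · intro τ B k₀ k₁ K s X I w A u lm V ht hI hk hk1 hBL hkN hV _ hsK hA _ hlm hX hw hD
    have hTV := P1_tvp (L := L) (ε := ε₅) (pr := p) (Real.exp_pos _).le (Real.exp_pos _).le
      (hNs L (by omega) N hLN hNL y h0 h1 hy) hp1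
    obtain ⟨Bd, g1, g2⟩ := hPX_of (B := B) (K := K) (w := w) (A := A) (h := 2 * (u + 4)) h0 h1 hpr ht hI hk hk1 hkN hV hsK
      (by linarith) hw hnm.n1_pos hD (by positivity) hTV
      (hBD L N t τ k₀ k₁ e0 E X n1 p I V y h0 h1 hpr.i₁a hNL (hk1.trans hBL) hnm.E_le hX lm hlm)
    exact ⟨Bd, g1.trans (by linarith), g2⟩

end Pool.Agent.W_7d29a1_Z86.GX
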