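import Pool.Agent.W_7d29a1_Z86.Clus86

/-!
STORM Z, helper86: clusters as maximal runs of zones.

The zones are `k ∈ [k0, k1)`, the junction `b ∈ [k0, k1]` is between the zones `b - 1` and `b`.
`Runs bad k0 k1` = the maximal intervals `[l, r)` of zones all of whose interior junctions are
bad, with at least one bad junction in `[l, r]`.
-/

namespace Pool.Agent.W_7d29a1_Z86

open Finset

open scoped Classical in
/-- The clusters. -/
noncomputable def Runs (bad : ℕ → Prop) (k0 k1 : ℕ) : Finset (ℕ × ℕ) :=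
  ((Icc k0 k1) ×ˢ (Icc k0 k1)).filter fun p =>
    p.1 < p.2 ∧ (∀ b, p.1 < b → b < p.2 → bad b) ∧ (p.1 = k0 ∨ ¬ bad p.1) ∧
      (p.2 = k1 ∨ ¬ bad p.2) ∧ ∃ b, p.1 ≤ b ∧ b ≤ p.2 ∧ bad b

theorem mem_Runs {bad : ℕ → Prop} {k0 k1 : ℕ} {p : ℕ × ℕ} :
    p ∈ Runs bad k0 k1 ↔ k0 ≤ p.1 ∧ p.2 ≤ k1 ∧ p.1 < p.2 ∧
      (∀ b, p.1 < b → b < p.2 → bad b) ∧ (p.1 = k0 ∨ ¬ bad p.1) ∧
      (p.2 = k1 ∨ ¬ bad p.2) ∧ ∃ b, p.1 ≤ b ∧ b ≤ p.2 ∧ bad b := by
  classical
  unfold Runs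
  rw [mem_filter, mem_product, mem_Icc, mem_Icc]
  constructor
  · rintro ⟨⟨⟨h1, h2⟩, h3, h4⟩, h5, h6⟩
    exact ⟨h1, h4, h5, h6⟩
  · rintro ⟨h1, h4, h5, h6⟩
    exact ⟨⟨⟨h1, by omega⟩, by omega, h4⟩, h5, h6⟩

/-- Two different clusters are disjoint. -/
theorem Runs_disjoint {bad : ℕ → Prop} {k0 k1 : ℕ} {p q : ℕ × ℕ} (hp : p ∈ Runs bad k0 k1)
    (hq : q ∈ Runs bad k0 k1) (h : p ≠ q) : p.2 ≤ q.1 ∨ q.2 ≤ p.1 := by
  rw [mem_Runs] at hp hq
  obtain ⟨p1, p2, p3, p4, p5, p6, p7⟩ := hp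
  obtain ⟨q1, q2, q3, q4, q5, q6, q7⟩ := hq
  by_contra hcon
  push Not at hcon
  obtain ⟨c1, c2⟩ := hcon
  -- the left ends agree
  have e1 : p.1 = q.1 := by
    rcases Nat.lt_trichotomy p.1 q.1 with hlt | heq | hgt
    · exfalso
      rcases q5 with h5 | h5
      · omega
      · exact h5 (p4 q.1 hlt c1)
    · exact heq
    · exfalso
      rcases p5 with h5 | h5
      · omega
      · exact h5 (q4 p.1 hgt c2)
  have e2 : p.2 = q.2 := by
    rcases Nat.lt_trichotomy p.2 q.2 with hlt | heq | hgt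
    · exfalso
      rcases p6 with h6 | h6
      · omega
      · exact h6 (q4 p.2 (by omega) hlt)
    · exact heq
    · exfalso
      rcases q6 with h6 | h6
      · omega
      · exact h6 (p4 q.2 (by omega) hgt)
  exact h (Prod.ext e1 e2)

/-- A bad junction is not shared by two clusters. -/
theorem Runs_bad_unique {bad : ℕ → Prop} {k0 k1 : ℕ} {p q : ℕ × ℕ} (hp : p ∈ Runs bad k0 k1)
    (hq : q ∈ Runs bad k0 k1) {b : ℕ} (hb : bad b) (hbp : p.1 ≤ b ∧ b ≤ p.2)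
    (hbq : q.1 ≤ b ∧ b ≤ q.2) : p = q := by
  by_contra hne
  have hd := Runs_disjoint hp hq hne
  rw [mem_Runs] at hp hq
  obtain ⟨p1, p2, p3, p4, p5, p6, p7⟩ := hp
  obtain ⟨q1, q2, q3, q4, q5, q6, q7⟩ := hq
  rcases hd with hd | hd
  · have e : b = p.2 := by omega
    subst e
    rcases p6 with h6 | h6
    · omega
    · exact h6 hb
  · have e : b = q.2 := by omega
    subst e
    rcases q6 with h6 | h6
    · omega
    · exact h6 hb

/-- Every zone with a bad junction lies in a cluster. -/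
theorem exists_Runs {bad : ℕ → Prop} {k0 k1 k : ℕ} (hk0 : k0 ≤ k) (hk1 : k < k1)
    (hb : bad k ∨ bad (k + 1)) : ∃ p ∈ Runs bad k0 k1, p.1 ≤ k ∧ k < p.2 := by
  classical
  -- left end: the largest `l ≤ k`, `l = k0` or junction `l` good
  set A : Finset ℕ := (Icc k0 k).filter (fun l => l = k0 ∨ ¬ bad l) with hA
  have hAne : A.Nonempty := ⟨k0, by rw [hA, mem_filter, mem_Icc]; exact ⟨⟨le_rfl, hk0⟩, Or.inl rfl⟩⟩
  set B : Finset ℕ := (Icc (k + 1) k1).filter (fun r => r = k1 ∨ ¬ bad r) with hB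
  have hBne : B.Nonempty := ⟨k1, by
    rw [hB, mem_filter, mem_Icc]; exact ⟨⟨hk1, le_rfl⟩, Or.inl rfl⟩⟩
  have ha := mem_filter.1 (A.max'_mem hAne)
  have hb' := mem_filter.1 (B.min'_mem hBne)
  rw [mem_Icc] at ha hb'
  refine ⟨(A.max' hAne, B.min' hBne), ?_, ha.1.2, by
    show k < B.min' hBne
    have := hb'.1.1; omega⟩
  rw [mem_Runs]
  refine ⟨ha.1.1, hb'.1.2, ?_, ?_, ha.2, hb'.2, ?_⟩
  · show A.max' hAne < B.min' hBne
    have h1 := ha.1.2; have h2 := hb'.1.1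
    omega
  · intro b h1 h2
    have h1' : A.max' hAne < b := h1
    have h2' : b < B.min' hBne := h2
    by_contra hnb
    by_cases hbk : b ≤ k
    · have : b ≤ A.max' hAne := A.le_max' b (by
        rw [hA, mem_filter, mem_Icc]
        exact ⟨⟨by have := ha.1.1; omega, hbk⟩, Or.inr hnb⟩)
      omega
    · have : B.min' hBne ≤ b := B.min'_le b (by
        rw [hB, mem_filter, mem_Icc]
        exact ⟨⟨by omega, by have := hb'.1.2; omega⟩, Or.inr hnb⟩)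
      omega
  · rcases hb with hb | hb
    · exact ⟨k, ha.1.2, by show k ≤ B.min' hBne; have := hb'.1.1; omega, hb⟩
    · exact ⟨k + 1, by show A.max' hAne ≤ k + 1; have := ha.1.2; omega, hb'.1.1, hb⟩

/-- **Cluster sum for runs.** -/
theorem runs_cluster_sum (bad : ℕ → Prop) {k0 k1 : ℕ} (F F' : ℕ → ℝ) (G G' : ℕ × ℕ → ℝ)
    (heq : ∀ k, k0 ≤ k → k < k1 → ¬ bad k → ¬ bad (k + 1) → F' k = F k)
    (hG : ∀ p ∈ Runs bad k0 k1, ∀ x y, p.1 ≤ x → x ≤ y → y ≤ p.2 →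
      |∑ k ∈ Ico x y, F k| ≤ G p)
    (hG' : ∀ p ∈ Runs bad k0 k1, ∀ x y, p.1 ≤ x → x ≤ y → y ≤ p.2 →
      |∑ k ∈ Ico x y, F' k| ≤ G' p) :
    |∑ k ∈ Ico k0 k1, F' k - ∑ k ∈ Ico k0 k1, F k|
      ≤ ∑ p ∈ Runs bad k0 k1, (G p + G' p) := by
  classical
  have hle : ∀ p ∈ Runs bad k0 k1, k0 ≤ p.1 ∧ p.2 ≤ k1 ∧ p.1 < p.2 := by
    intro p hp
    rw [mem_Runs] at hp
    exact ⟨hp.1, hp.2.1, hp.2.2.1⟩
  have h := cluster_sum_gen (Runs bad k0 k1) (fun p => p.1) (fun p => p.2) (k0 := k0) (k1 := k1)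
    F F' G G' (fun k hk0 hk1 hne => by
      by_cases hb : bad k ∨ bad (k + 1)
      · exact exists_Runs hk0 hk1 hb
      · push Not at hb
        exact absurd (heq k hk0 hk1 hb.1 hb.2) hne)
    (fun p hp x y h1 h2 h3 => hG p hp x y (le_trans (le_max_left _ _) h1) h2
      (h3.trans (min_le_left _ _)))
    (fun p hp x y h1 h2 h3 => hG' p hp x y (le_trans (le_max_left _ _) h1) h2
      (h3.trans (min_le_left _ _)))
  have hf : (Runs bad k0 k1).filter (fun p => max p.1 k0 < min p.2 k1) = Runs bad k0 k1 := by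
    rw [filter_true_of_mem]
    intro p hp
    have := hle p hp
    omega
  rw [hf] at h
  exact h

/-- The stride of the sub-grid of junctions for the class `j`. -/
def st (j : ℕ) : ℕ := 2 ^ (j - 1)

theorem st_pos (j : ℕ) : 0 < st j := Nat.pos_of_ne_zero (by unfold st; positivity)

/-- Every cluster of the class `j` (`2 ^ j ≤ r - l < 2 ^ (j + 1)`) has a bad junction which is a
multiple of `st j`. -/
theorem run_place {bad : ℕ → Prop} {k0 k1 j : ℕ} {p : ℕ × ℕ} (hp : p ∈ Runs bad k0 k1)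
    (hj : 2 ^ j ≤ p.2 - p.1) : ∃ u, p.1 ≤ u * st j ∧ u * st j ≤ p.2 ∧ bad (u * st j) := by
  rw [mem_Runs] at hp
  obtain ⟨p1, p2, p3, p4, p5, p6, b, hb1, hb2, hb⟩ := hp
  rcases Nat.eq_zero_or_pos j with h0 | hj0
  · subst h0
    refine ⟨b, ?_⟩
    have : st 0 = 1 := rfl
    rw [this, Nat.mul_one]
    exact ⟨hb1, hb2, hb⟩
  · -- the smallest multiple of `st j` larger than `p.1`
    have hst := st_pos j
    have h2 : 2 ^ j = 2 * st j := by
      unfold st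
      obtain ⟨i, rfl⟩ := Nat.exists_eq_succ_of_ne_zero hj0.ne'
      simp [pow_succ, Nat.mul_comm]
    refine ⟨p.1 / st j + 1, ?_⟩
    have h3 := Nat.div_add_mod p.1 (st j)
    have h4 := Nat.mod_lt p.1 hst
    have h5 : (p.1 / st j + 1) * st j = st j * (p.1 / st j) + st j := by ring
    have h6 : p.1 < (p.1 / st j + 1) * st j := by rw [h5]; omega
    have h7 : (p.1 / st j + 1) * st j ≤ p.1 + st j := by rw [h5]; omega
    have h8 : (p.1 / st j + 1) * st j < p.2 := by omega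
    exact ⟨h6.le, h8.le, p4 _ h6 h8⟩

/-- **Count of the clusters of the class `j`** by the near tied places of the sub-grid. -/
theorem runs_count {bad : ℕ → Prop} {k0 k1 j : ℕ} (NT : ℕ → Prop)
    (hNT : ∀ p ∈ Runs bad k0 k1, 2 ^ j ≤ p.2 - p.1 → p.2 - p.1 < 2 ^ (j + 1) →
      ∀ b, p.1 ≤ b → b ≤ p.2 → bad b → NT b) :
    ((Runs bad k0 k1).filter fun p => 2 ^ j ≤ p.2 - p.1 ∧ p.2 - p.1 < 2 ^ (j + 1)).card ≤
      Set.ncard {u | u < k1 / st j + 1 ∧ NT (u * st j)} := by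
  classical
  set s := (Runs bad k0 k1).filter fun p => 2 ^ j ≤ p.2 - p.1 ∧ p.2 - p.1 < 2 ^ (j + 1) with hs
  have hch : ∀ p : ℕ × ℕ, p ∈ s → ∃ u, p.1 ≤ u * st j ∧ u * st j ≤ p.2 ∧ bad (u * st j) := by
    intro p hp
    rw [hs, mem_filter] at hp
    exact run_place hp.1 hp.2.1
  choose! f hf using hch
  have hfin : {u | u < k1 / st j + 1 ∧ NT (u * st j)}.Finite :=
    (Set.finite_lt_nat (k1 / st j + 1)).subset fun u hu => hu.1
  have hcard : s.card = (s.image f).card := by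
    rw [card_image_of_injOn]
    intro p hp q hq hfe
    have hp' := mem_filter.1 hp
    have hq' := mem_filter.1 hq
    have h1 := hf p hp
    have h2 := hf q hq
    have hfe' : f p = f q := hfe
    rw [← hfe'] at h2
    exact Runs_bad_unique hp'.1 hq'.1 h1.2.2 ⟨h1.1, h1.2.1⟩ ⟨h2.1, h2.2.1⟩
  rw [hcard, ← Set.ncard_coe_finset]
  apply Set.ncard_le_ncard _ hfin
  intro u hu
  rw [mem_coe, mem_image] at hu
  obtain ⟨p, hp, rfl⟩ := hu
  have hp' := mem_filter.1 hp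
  have h1 := hf p hp
  refine ⟨?_, hNT p hp'.1 hp'.2.1 hp'.2.2 _ h1.1 h1.2.1 h1.2.2⟩
  have hk1 : p.2 ≤ k1 := (mem_Runs.1 hp'.1).2.1
  have : f p ≤ k1 / st j := by
    rw [Nat.le_div_iff_mul_le (st_pos j)]; omega
  omega

end Pool.Agent.W_7d29a1_Z86
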