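import Pool.Agent.W_7d29a1_Z86.PrE86
import Pool.Agent.W_7d29a1_Z86.EndE86
import Pool.Agent.W_7d29a1_Z95.BaseW

/-!
STORM Z, second storey, helper86: the end of the second storey from the price of the bad events of the depth.
-/

namespace Pool.Agent.W_7d29a1_Z86.GX

open MeasureTheory ProbabilityTheory Filter Topology Finset
open Pool.Agent.W_7d29a1_F Pool.Agent.W_7d29a1_X Pool.Agent.W_7d29a1_G
open Pool.Agent.W_7d29a1_SR (In wd)
open Pool.Agent.W_7d29a1_Z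
open scoped ENNReal

variable {μ : Measure ℝ} [IsProbabilityMeasure μ] {c C : ℝ} {n₀ : ℕ}

theorem second_of (h : In μ c C n₀) (hF : HF2 μ) (hBD : BadDXpr μ) :
    ∃ c' : ℝ, 0 < c' ∧ ∀ᶠ n : ℕ in atTop, (n : ℝ) ^ (1 / 2 + c') ≤ wd μ n ∧
      (n : ℝ) ^ (1 / 2 + c') * EE μ n ≤ wd μ n ^ (3 / 2 : ℝ) :=
  secondX h hF (priceX_of h hF hBD) (Pool.Agent.W_7d29a1_Z95.base_bunch h hF fun e he => ns h hF e he)

end Pool.Agent.W_7d29a1_Z86.GX
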